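import Pool.Agent.Helper59.TD.Defs

/-!
# Piece HDT-12: the two explicit step kernels

`kernelSum` is rewritten as a nested sum (`kernelSum_five`), then as a nested sum of natural
number valued functions read off from packed tables (`kNest_eq`), which the kernel evaluates
(`decide +kernel`, less than one second for each tournament).  The inequalities are true with
relative margins at least `8 * 10 ^ (-4)` (first kernel) and `4 * 10 ^ (-5)` (second kernel).
-/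

namespace Pool.Agent.Helper59.TD

/-- weights of the first kernel, sum 489 -/
def wD : Fin 5 → ℕ := ![229, 227, 3, 27, 3]

/-- arc probabilities of the first kernel, `2 q = 20` -/
def aD : Fin 5 → Fin 5 → ℕ := ![![10, 11, 3, 1, 20],
  ![9, 10, 4, 20, 15],
  ![17, 16, 10, 17, 18],
  ![19, 0, 3, 10, 3],
  ![0, 5, 2, 17, 10]]

/-- weights of the second kernel, sum 10027 -/
def wA : Fin 8 → ℕ := ![105, 4938, 12, 12, 85, 1415, 572, 2888]

/-- arc probabilities of the second kernel, `2 q = 100` -/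
def aA : Fin 8 → Fin 8 → ℕ := ![![50, 100, 2, 99, 3, 0, 40, 1],
  ![0, 50, 0, 100, 100, 39, 70, 52],
  ![98, 100, 50, 45, 100, 100, 100, 100],
  ![1, 0, 55, 50, 4, 0, 0, 0],
  ![97, 0, 0, 96, 50, 75, 100, 100],
  ![100, 61, 0, 100, 25, 50, 34, 33],
  ![60, 30, 0, 100, 0, 66, 50, 78],
  ![99, 48, 0, 100, 0, 67, 22, 50]]

/-- sum over eight values -/
def kS8 (g : ℕ → ℕ) : ℕ :=
  Nat.add (g 0) (Nat.add (g 1) (Nat.add (g 2) (Nat.add (g 3)
    (Nat.add (g 4) (Nat.add (g 5) (Nat.add (g 6) (g 7)))))))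

/-- factor of the arc between two vertices -/
def kE (A : ℕ → ℕ → ℕ) (b : Bool) (x y : ℕ) : ℕ := cond b (A x y) (A y x)

/-- nested sum -/
def kNest (S : (ℕ → ℕ) → ℕ) (w : ℕ → ℕ) (A : ℕ → ℕ → ℕ)
    (b01 b02 b03 b04 b12 b13 b14 b23 b24 b34 : Bool) : ℕ :=
  S fun x0 => Nat.mul (w x0) (S fun x1 => Nat.mul (Nat.mul (w x1) (kE A b01 x0 x1))
    (S fun x2 => Nat.mul (Nat.mul (Nat.mul (w x2) (kE A b02 x0 x2)) (kE A b12 x1 x2))
      (S fun x3 => Nat.mul (Nat.mul (Nat.mul (Nat.mul (w x3) (kE A b03 x0 x3)) (kE A b13 x1 x3))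
          (kE A b23 x2 x3))
        (S fun x4 => Nat.mul (Nat.mul (Nat.mul (Nat.mul (w x4) (kE A b04 x0 x4)) (kE A b14 x1 x4))
          (kE A b24 x2 x4)) (kE A b34 x3 x4)))))

/-- sum over five values -/
def kS5 (g : ℕ → ℕ) : ℕ :=
  Nat.add (g 0) (Nat.add (g 1) (Nat.add (g 2) (Nat.add (g 3) (g 4))))

/-- field `i` of width `w` of a packed table -/
def kTab (w tab : ℕ) (i : ℕ) : ℕ :=
  Nat.land (Nat.shiftRight tab (Nat.mul w i)) (Nat.sub (Nat.pow 2 w) 1)

/-- packed form of `wA` -/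
def wtA (x : ℕ) : ℕ := kTab 16 14995398647668171953128501205032108137 x

/-- packed form of `aA` -/
def atA (x y : ℕ) : ℕ :=
  kTab 8 2623266943853347742021050932646262186740190881515067317719606706125197116838752249917715260559000877115852901244392463139165337255531850476718395205248050
    (Nat.add (Nat.mul 8 x) y)

/-- packed form of `wD` -/
def wtD (x : ℕ) : ℕ := kTab 16 55347832058399621349 x

/-- packed form of `aD` -/
def atD (x y : ℕ) : ℕ :=
  kTab 8 63188049573664383668621058476502966951950212536247691447050 (Nat.add (Nat.mul 5 x) y)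

theorem kSum_cons {m n : ℕ} (F : (Fin (n + 1) → Fin m) → ℕ) :
    ∑ i : Fin (n + 1) → Fin m, F i = ∑ x : Fin m, ∑ i : Fin n → Fin m, F (Fin.cons x i) := by
  rw [← (Fin.consEquiv (fun _ : Fin (n + 1) => Fin m)).sum_comp, Fintype.sum_prod_type]
  rfl

theorem kSum_five {m : ℕ} (F : (Fin 5 → Fin m) → ℕ) :
    ∑ i : Fin 5 → Fin m, F i = ∑ x0 : Fin m, ∑ x1 : Fin m, ∑ x2 : Fin m, ∑ x3 : Fin m,
      ∑ x4 : Fin m, F ![x0, x1, x2, x3, x4] := by
  rw [kSum_cons]
  refine Finset.sum_congr rfl fun x0 _ => ?_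
  rw [kSum_cons]
  refine Finset.sum_congr rfl fun x1 _ => ?_
  rw [kSum_cons]
  refine Finset.sum_congr rfl fun x2 _ => ?_
  rw [kSum_cons]
  refine Finset.sum_congr rfl fun x3 _ => ?_
  rw [kSum_cons]
  refine Finset.sum_congr rfl fun x4 _ => ?_
  rw [Fintype.sum_unique]
  congr 1

/-- factor of an arc -/
def kF {m : ℕ} (a : Fin m → Fin m → ℕ) (b : Bool) (x y : Fin m) : ℕ :=
  if b = true then a x y else a y x

theorem kernelSum_five {m : ℕ} (w : Fin m → ℕ) (a : Fin m → Fin m → ℕ) (H : Tour 5) :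
    kernelSum w a H = ∑ x0 : Fin m, w x0 * ∑ x1 : Fin m, w x1 * kF a (H.adj 0 1) x0 x1 *
      ∑ x2 : Fin m, w x2 * kF a (H.adj 0 2) x0 x2 * kF a (H.adj 1 2) x1 x2 *
      ∑ x3 : Fin m, w x3 * kF a (H.adj 0 3) x0 x3 * kF a (H.adj 1 3) x1 x3 *
        kF a (H.adj 2 3) x2 x3 *
      ∑ x4 : Fin m, w x4 * kF a (H.adj 0 4) x0 x4 * kF a (H.adj 1 4) x1 x4 *
        kF a (H.adj 2 4) x2 x4 * kF a (H.adj 3 4) x3 x4 := by
  unfold kernelSum
  rw [kSum_five]
  simp only [Finset.mul_sum]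
  refine Finset.sum_congr rfl fun x0 _ => Finset.sum_congr rfl fun x1 _ =>
    Finset.sum_congr rfl fun x2 _ => Finset.sum_congr rfl fun x3 _ =>
    Finset.sum_congr rfl fun x4 _ => ?_
  have h00 : ¬ ((0 : Fin 5) < 0) := by decide
  have h01 : ((0 : Fin 5) < 1) := by decide
  have h02 : ((0 : Fin 5) < 2) := by decide
  have h03 : ((0 : Fin 5) < 3) := by decide
  have h04 : ((0 : Fin 5) < 4) := by decide
  have h10 : ¬ ((1 : Fin 5) < 0) := by decide
  have h11 : ¬ ((1 : Fin 5) < 1) := by decide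
  have h12 : ((1 : Fin 5) < 2) := by decide
  have h13 : ((1 : Fin 5) < 3) := by decide
  have h14 : ((1 : Fin 5) < 4) := by decide
  have h20 : ¬ ((2 : Fin 5) < 0) := by decide
  have h21 : ¬ ((2 : Fin 5) < 1) := by decide
  have h22 : ¬ ((2 : Fin 5) < 2) := by decide
  have h23 : ((2 : Fin 5) < 3) := by decide
  have h24 : ((2 : Fin 5) < 4) := by decide
  have h30 : ¬ ((3 : Fin 5) < 0) := by decide
  have h31 : ¬ ((3 : Fin 5) < 1) := by decide
  have h32 : ¬ ((3 : Fin 5) < 2) := by decide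
  have h33 : ¬ ((3 : Fin 5) < 3) := by decide
  have h34 : ((3 : Fin 5) < 4) := by decide
  have h40 : ¬ ((4 : Fin 5) < 0) := by decide
  have h41 : ¬ ((4 : Fin 5) < 1) := by decide
  have h42 : ¬ ((4 : Fin 5) < 2) := by decide
  have h43 : ¬ ((4 : Fin 5) < 3) := by decide
  have h44 : ¬ ((4 : Fin 5) < 4) := by decide
  have e0 : (![x0, x1, x2, x3, x4] : Fin 5 → Fin m) 0 = x0 := rfl
  have e1 : (![x0, x1, x2, x3, x4] : Fin 5 → Fin m) 1 = x1 := rfl
  have e2 : (![x0, x1, x2, x3, x4] : Fin 5 → Fin m) 2 = x2 := rfl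
  have e3 : (![x0, x1, x2, x3, x4] : Fin 5 → Fin m) 3 = x3 := rfl
  have e4 : (![x0, x1, x2, x3, x4] : Fin 5 → Fin m) 4 = x4 := rfl
  simp only [Fin.prod_univ_five, if_pos h01, if_pos h02, if_pos h03, if_pos h04, if_pos h12,
    if_pos h13, if_pos h14, if_pos h23, if_pos h24, if_pos h34, if_neg h00, if_neg h10,
    if_neg h11, if_neg h20, if_neg h21, if_neg h22, if_neg h30, if_neg h31, if_neg h32,
    if_neg h33, if_neg h40, if_neg h41, if_neg h42, if_neg h43, if_neg h44, e0, e1, e2, e3, e4]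
  simp only [← kF.eq_def]
  ring

theorem kS8_eq (g : Fin 8 → ℕ) (G : ℕ → ℕ) (h : ∀ i : Fin 8, g i = G i.val) :
    ∑ i : Fin 8, g i = kS8 G := by
  rw [Fin.sum_univ_eight]
  simp only [h]
  simp only [kS8, Nat.add_eq]
  simp only [Fin.val_zero, Fin.val_one, Fin.val_two]
  have h3 : ((3 : Fin 8) : ℕ) = 3 := rfl
  have h4 : ((4 : Fin 8) : ℕ) = 4 := rfl
  have h5 : ((5 : Fin 8) : ℕ) = 5 := rfl
  have h6 : ((6 : Fin 8) : ℕ) = 6 := rfl
  have h7 : ((7 : Fin 8) : ℕ) = 7 := rfl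
  rw [h3, h4, h5, h6, h7]
  ring

theorem kF_eq {m : ℕ} (a : Fin m → Fin m → ℕ) (A : ℕ → ℕ → ℕ)
    (h : ∀ x y : Fin m, a x y = A x.val y.val) (b : Bool) (x y : Fin m) :
    kF a b x y = kE A b x.val y.val := by
  cases b <;> simp [kF, kE, h]

theorem kNest_eq {m : ℕ} (S : (ℕ → ℕ) → ℕ)
    (hS : ∀ (g : Fin m → ℕ) (G : ℕ → ℕ), (∀ i : Fin m, g i = G i.val) → ∑ i : Fin m, g i = S G)
    (w : Fin m → ℕ) (W : ℕ → ℕ) (hw : ∀ x : Fin m, w x = W x.val)
    (a : Fin m → Fin m → ℕ) (A : ℕ → ℕ → ℕ) (ha : ∀ x y : Fin m, a x y = A x.val y.val)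
    (H : Tour 5) :
    kernelSum w a H = kNest S W A (H.adj 0 1) (H.adj 0 2) (H.adj 0 3) (H.adj 0 4)
      (H.adj 1 2) (H.adj 1 3) (H.adj 1 4) (H.adj 2 3) (H.adj 2 4) (H.adj 3 4) := by
  rw [kernelSum_five]
  unfold kNest
  refine hS _ _ fun x0 => ?_
  simp only [Nat.mul_eq]
  rw [hw x0]
  congr 1
  refine hS _ _ fun x1 => ?_
  rw [hw x1, kF_eq a A ha]
  congr 1
  refine hS _ _ fun x2 => ?_
  rw [hw x2, kF_eq a A ha, kF_eq a A ha]
  congr 1
  refine hS _ _ fun x3 => ?_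
  rw [hw x3, kF_eq a A ha, kF_eq a A ha, kF_eq a A ha]
  congr 1
  refine hS _ _ fun x4 => ?_
  rw [hw x4, kF_eq a A ha, kF_eq a A ha, kF_eq a A ha, kF_eq a A ha]

theorem kS5_eq (g : Fin 5 → ℕ) (G : ℕ → ℕ) (h : ∀ i : Fin 5, g i = G i.val) :
    ∑ i : Fin 5, g i = kS5 G := by
  rw [Fin.sum_univ_five]
  simp only [h]
  simp only [kS5, Nat.add_eq]
  simp only [Fin.val_zero, Fin.val_one, Fin.val_two]
  have h3 : ((3 : Fin 5) : ℕ) = 3 := rfl
  have h4 : ((4 : Fin 5) : ℕ) = 4 := rfl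
  rw [h3, h4]
  ring

theorem wtA_eq : ∀ x : Fin 8, wA x = wtA x.val := by decide +kernel

theorem atA_eq : ∀ x y : Fin 8, aA x y = atA x.val y.val := by decide +kernel

theorem wtD_eq : ∀ x : Fin 5, wD x = wtD x.val := by decide +kernel

theorem atD_eq : ∀ x y : Fin 5, aD x y = atD x.val y.val := by decide +kernel

theorem kernelD (k : Fin 12) (hk : k ∈ ({0, 1, 2, 3, 4, 5, 7, 8} : Finset (Fin 12))) :
    489 ^ 5 * 10 ^ 10 < kernelSum wD aD (Rep k) := by
  rw [kNest_eq kS5 kS5_eq wD wtD wtD_eq aD atD atD_eq (Rep k)]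
  simp only [Finset.mem_insert, Finset.mem_singleton] at hk
  rcases hk with rfl | rfl | rfl | rfl | rfl | rfl | rfl | rfl <;> decide +kernel

theorem kernelA (k : Fin 12) (hk : k ∈ ({0, 1, 2, 3, 4, 5, 7, 11} : Finset (Fin 12))) :
    10027 ^ 5 * 50 ^ 10 < kernelSum wA aA (Rep k) := by
  rw [kNest_eq kS8 kS8_eq wA wtA wtA_eq aA atA atA_eq (Rep k)]
  simp only [Finset.mem_insert, Finset.mem_singleton] at hk
  rcases hk with rfl | rfl | rfl | rfl | rfl | rfl | rfl | rfl <;> decide +kernel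

end Pool.Agent.Helper59.TD
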