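import Pool.Agent.Helper59.TD.Defs
import Pool.Agent.Helper59.TD.Data67

/-!
# Piece HDT-3: classification of the tournaments on five and on seven vertices

`class5`: every tournament on five vertices is isomorphic to one of the twelve coded in `reps5`
(brute force over the 1024 labelled ones is possible; or by the chain below).

`class7`: every tournament on seven vertices is isomorphic to one of the 456 coded in `reps7`.
Chain: `A` on `Fin (n + 1)`; the restriction to the first `n` vertices (`Fin.castSucc`) is
isomorphic to a representative, so `A` is isomorphic to one of the extensions of the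
representatives by a last vertex (`2 ^ n` patterns).  The tables `tab6`, `tab7` of `Data67.lean`
say, for each representative number `i` on `n` vertices and each pattern `p < 2 ^ n` (bit `r` of
`p` set iff the new vertex beats `r`), which representative `j` on `n + 1` vertices it is
isomorphic to and by which permutation: entry number `i * 2 ^ n + p` (fields of width 32), low
nine bits `j`, then three bits each for `σ 0, …, σ n`; the claim is
`ext (σ a) (σ b) = ad rep_j a b` for all `a, b ≤ n`, where `ext` is the adjacency of the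
extension (see `chkExt`).  `12 * 32 + 56 * 64` checks by `decide +kernel` (a few seconds).

The chain starts at no vertices with small tables `c5reps0n … c5tab5` (all representatives are
checked to be tournaments by `c5chkT`, which gives the injectivity of the coded maps).
-/

namespace Pool.Agent.Helper59.TD

/-! ### The tables -/

theorem allBelow_spec (f : ℕ → Bool) : ∀ n, allBelow f n = true → ∀ i < n, f i = true
  | 0, _, i, hi => absurd hi (Nat.not_lt_zero i)
  | n + 1, h, i, hi => by
    rw [allBelow, Bool.cond_false_right, Bool.and_eq_true] at h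
    rcases Nat.lt_succ_iff_lt_or_eq.mp hi with h' | h'
    · exact allBelow_spec f n h.2 i h'
    · rw [h']; exact h.1

/-- the representatives on 0 vertices (fields of width 49) -/
def c5reps0n : ℕ := 0x0
/-- the representatives on 1 vertices (fields of width 49) -/
def c5reps1n : ℕ := 0x0
/-- the representatives on 2 vertices (fields of width 49) -/
def c5reps2n : ℕ := 0x2
/-- the representatives on 3 vertices (fields of width 49) -/
def c5reps3n : ℕ := 0x8404000000000206
/-- the representatives on 4 vertices (fields of width 49) -/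
def c5reps4n : ℕ := 0x5003030000001080838000000440c0c00000002060e
/-- table of the extensions of the representatives on 0 vertices -/
def c5tab1 : ℕ := 0x0
/-- table of the extensions of the representatives on 1 vertices -/
def c5tab2 : ℕ := 0x20000001000
/-- table of the extensions of the representatives on 2 vertices -/
def c5tab3 : ℕ := 0x84000000a0000001100100011000
/-- table of the extensions of the representatives on 3 vertices -/
def c5tab4 : ℕ := 0x886020008b001000132010009900100043401000584010001a20100099003000886000008b000000d10030009900000088601000d1002000d1001000d1000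
/-- table of the extensions of the representatives on 4 vertices -/
def c5tab5 : ℕ := 0x85a0030010a6050031a00500062605008584090010a60a0031a00a000546060070220500622205002e2005002e20070070220a00614206002d4006002d40070081320100113201008132060006260200819406000a32020005380a000546020080a606000e1402000ca80a000cc4020009980a0009c202000998090009c2030080a6020010a60400313006000626040080b40a000a1609002a3008000546040080a6080010a608002e200a000626060029c00b0005460a0029c008000546050080a6000010a60000313007000626000080b405000a320300053805000546000080a6040010a602000538060005c40100053808000538020005380400053800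

/-- all `k` codes in the table `rn` are tournaments on `n` vertices -/
def c5chkT (n k rn : ℕ) : Bool :=
  allBelow (fun j => allBelow (fun a => allBelow (fun b =>
    cond (Nat.beq a b) true (ad (fld 49 rn j) a b == (ad (fld 49 rn j) b a).not)) n) n) k

theorem c5_tour {n k rn : ℕ} (h : c5chkT n k rn = true) {j a b : ℕ} (hj : j < k) (ha : a < n)
    (hb : b < n) (hab : a ≠ b) : ad (fld 49 rn j) a b = !ad (fld 49 rn j) b a := by
  have h1 := allBelow_spec _ _ (allBelow_spec _ _ (allBelow_spec _ _ h j hj) a ha) b hb
  have h2 : Nat.beq a b = false := by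
    rw [Bool.eq_false_iff]
    intro h3
    exact hab (Nat.eq_of_beq_eq_true h3)
  simp only [h2, cond_false] at h1
  exact eq_of_beq h1

theorem c5_bt (T k : ℕ) : bt T k = T.testBit k := by
  rw [Nat.testBit_eq_decide_div_mod_eq]
  have h1 : Nat.land (Nat.shiftRight T k) 1 = T / 2 ^ k % 2 := by
    rw [← Nat.shiftRight_eq_div_pow, ← Nat.and_one_is_mod]
    rfl
  unfold bt
  rw [h1]
  rcases Nat.mod_two_eq_zero_or_one (T / 2 ^ k) with h | h <;> rw [h] <;> rfl

/-- a number with prescribed bits -/
theorem c5_bits (n : ℕ) (g : Fin n → Bool) : ∃ p < 2 ^ n, ∀ r : Fin n, bt p r = g r := by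
  refine ⟨(BitVec.ofFnLE g).toNat, (BitVec.ofFnLE g).isLt, fun r => ?_⟩
  rw [c5_bt]
  simp

theorem c5_step (n k k' ro rn tab : ℕ) (h : chkTab n k k' ro rn tab = true)
    (hT : c5chkT (n + 1) k' rn = true)
    (A : Fin (n + 1) → Fin (n + 1) → Bool) (hA : IsTour A) (i : ℕ) (hi : i < k)
    (σ : Equiv.Perm (Fin n))
    (hσ : ∀ a b : Fin n, A (σ a).castSucc (σ b).castSucc = ad (fld 49 ro i) a b) :
    ∃ j < k', ∃ τ : Equiv.Perm (Fin (n + 1)), ∀ a b : Fin (n + 1),
      A (τ a) (τ b) = ad (fld 49 rn j) a b := by
  obtain ⟨p, hp, hpb⟩ := c5_bits n (fun r => A (Fin.last n) (σ r).castSucc)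
  have h1 := allBelow_spec _ _ (allBelow_spec _ _ h i hi) p hp
  generalize fld 32 tab (Nat.add (Nat.mul i (Nat.pow 2 n)) p) = e at h1
  unfold chkExt at h1
  rw [Bool.cond_false_right, Bool.and_eq_true] at h1
  obtain ⟨hj, h2⟩ := h1
  have hj' : fld 9 e 0 < k' := by simpa using hj
  have h3 : ∀ a ≤ n, fld 3 (Nat.shiftRight e 9) a ≤ n ∧ ∀ b ≤ n,
      extAd n (fld 49 ro i) p (fld 3 (Nat.shiftRight e 9) a) (fld 3 (Nat.shiftRight e 9) b)
        = ad (fld 49 rn (fld 9 e 0)) a b := by
    intro a ha
    have h4 := allBelow_spec _ _ h2 a (Nat.lt_succ_of_le ha)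
    rw [Bool.cond_false_right, Bool.and_eq_true] at h4
    refine ⟨Nat.le_of_ble_eq_true h4.1, fun b hb => ?_⟩
    exact eq_of_beq (allBelow_spec _ _ h4.2 b (Nat.lt_succ_of_le hb))
  set f : Fin (n + 1) → Fin (n + 1) := fun a =>
    ⟨fld 3 (Nat.shiftRight e 9) a, Nat.lt_succ_of_le (h3 a (Nat.le_of_lt_succ a.2)).1⟩ with hf
  set g : Fin (n + 1) → Fin (n + 1) := Fin.lastCases (Fin.last n) (fun r => (σ r).castSucc) with hg
  have hgl : g (Fin.last n) = Fin.last n := by simp [hg]
  have hgc : ∀ r : Fin n, g r.castSucc = (σ r).castSucc := fun r => by simp [hg]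
  have hext : ∀ x y : Fin (n + 1), A (g x) (g y) = extAd n (fld 49 ro i) p x y := by
    intro x y
    refine Fin.lastCases ?_ (fun r => ?_) x
    · refine Fin.lastCases ?_ (fun s => ?_) y
      · rw [hgl, hA.1]
        simp [extAd]
      · rw [hgl, hgc]
        have h5 : Nat.beq (s : ℕ) n = false := by
          rw [Bool.eq_false_iff]
          intro h6
          exact absurd (Nat.eq_of_beq_eq_true h6) (Nat.ne_of_lt s.2)
        simp [extAd, h5, hpb]
    · have h5 : Nat.beq (r : ℕ) n = false := by
        rw [Bool.eq_false_iff]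
        intro h6
        exact absurd (Nat.eq_of_beq_eq_true h6) (Nat.ne_of_lt r.2)
      refine Fin.lastCases ?_ (fun s => ?_) y
      · rw [hgl, hgc, hA.2 _ _ (Fin.castSucc_lt_last _).ne]
        simp [extAd, h5, hpb]
      · have h6 : Nat.beq (s : ℕ) n = false := by
          rw [Bool.eq_false_iff]
          intro h6
          exact absurd (Nat.eq_of_beq_eq_true h6) (Nat.ne_of_lt s.2)
        rw [hgc, hgc, hσ]
        simp [extAd, h5, h6]
  have hAf : ∀ a b : Fin (n + 1), A (g (f a)) (g (f b)) = ad (fld 49 rn (fld 9 e 0)) a b := by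
    intro a b
    rw [hext]
    exact (h3 a (Nat.le_of_lt_succ a.2)).2 b (Nat.le_of_lt_succ b.2)
  have hinj : Function.Injective (fun a => g (f a)) := by
    intro a b hab
    by_contra hne
    have h7 := hAf a b
    have h8 := hAf b a
    simp only at hab
    rw [hab, hA.1] at h7
    rw [hab, hA.1] at h8
    have h9 := c5_tour hT hj' a.2 b.2 (fun h => hne (Fin.ext h))
    rw [← h7, ← h8] at h9
    simp at h9
  refine ⟨fld 9 e 0, hj', Equiv.ofBijective _ (Finite.injective_iff_bijective.mp hinj), ?_⟩
  intro a b
  exact hAf a b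

/-- the classification statement on `n` vertices -/
def c5Cls (n k rn : ℕ) : Prop :=
  ∀ A : Fin n → Fin n → Bool, IsTour A →
    ∃ j < k, ∃ σ : Equiv.Perm (Fin n), ∀ a b : Fin n, A (σ a) (σ b) = ad (fld 49 rn j) a b

theorem c5_next (n k k' ro rn tab : ℕ) (h : chkTab n k k' ro rn tab = true)
    (hT : c5chkT (n + 1) k' rn = true) (hc : c5Cls n k ro) : c5Cls (n + 1) k' rn := by
  intro A hA
  obtain ⟨i, hi, σ, hσ⟩ := hc (fun a b => A a.castSucc b.castSucc)
    ⟨fun v => hA.1 _, fun u v huv => hA.2 _ _ (fun h => huv (Fin.castSucc_injective n h))⟩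
  exact c5_step n k k' ro rn tab h hT A hA i hi σ hσ

theorem c5Cls5 : c5Cls 5 12 reps5n := by
  have h0 : c5Cls 0 1 c5reps0n := fun A _ => ⟨0, Nat.one_pos, Equiv.refl _, fun a => a.elim0⟩
  have h1 : c5Cls 1 1 c5reps1n :=
    c5_next 0 1 1 c5reps0n c5reps1n c5tab1 (by decide +kernel) (by decide +kernel) h0
  have h2 : c5Cls 2 1 c5reps2n :=
    c5_next 1 1 1 c5reps1n c5reps2n c5tab2 (by decide +kernel) (by decide +kernel) h1
  have h3 : c5Cls 3 2 c5reps3n :=
    c5_next 2 1 2 c5reps2n c5reps3n c5tab3 (by decide +kernel) (by decide +kernel) h2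
  have h4 : c5Cls 4 4 c5reps4n :=
    c5_next 3 2 4 c5reps3n c5reps4n c5tab4 (by decide +kernel) (by decide +kernel) h3
  exact c5_next 4 4 12 c5reps4n reps5n c5tab5 (by decide +kernel) (by decide +kernel) h4

theorem c5Cls7 : c5Cls 7 456 reps7n := by
  have h6 : c5Cls 6 56 reps6n :=
    c5_next 5 12 56 reps5n reps6n tab6 (by decide +kernel) (by decide +kernel) c5Cls5
  exact c5_next 6 56 456 reps6n reps7n tab7 (by decide +kernel) (by decide +kernel) h6

theorem c5_list5 : (List.range 12).map (fld 49 reps5n) = reps5 := by decide +kernel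

theorem c5_list7 : (List.range 456).map (fld 49 reps7n) = reps7 := by decide +kernel

theorem class5 (A : Fin 5 → Fin 5 → Bool) (hA : IsTour A) :
    ∃ T ∈ reps5, ∃ σ : Equiv.Perm (Fin 5), ∀ i j, A (σ i) (σ j) = ad T i j := by
  obtain ⟨j, hj, σ, hσ⟩ := c5Cls5 A hA
  refine ⟨fld 49 reps5n j, ?_, σ, hσ⟩
  rw [← c5_list5]
  exact List.mem_map_of_mem (List.mem_range.mpr hj)

theorem rep_iso (H : Tour 5) : ∃ k : Fin 12, H.Iso (Rep k) := by
  obtain ⟨j, hj, σ, hσ⟩ := c5Cls5 H.adj ⟨H.irr, H.anti⟩
  refine ⟨⟨j, hj⟩, σ, fun a b => ?_⟩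
  rw [hσ]
  show _ = ad (reps5.getD j 0) a b
  rw [← c5_list5]
  simp [hj]

theorem class7 (A : Fin 7 → Fin 7 → Bool) (hA : IsTour A) :
    ∃ T ∈ reps7, ∃ σ : Equiv.Perm (Fin 7), ∀ i j, A (σ i) (σ j) = ad T i j := by
  obtain ⟨j, hj, σ, hσ⟩ := c5Cls7 A hA
  refine ⟨fld 49 reps7n j, ?_, σ, hσ⟩
  rw [← c5_list7]
  exact List.mem_map_of_mem (List.mem_range.mpr hj)

end Pool.Agent.Helper59.TD
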