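import Pool.Agent.Helper59.TD.St.Dens
import Pool.Agent.Helper59.TD.St.Class5

/-!
# Piece HDT-2: the main reduction

Let `F` be a maximal dominant family.  It suffices that `insert (Rep 4).cls F` is dominant
(maximality: `insert _ F ≤ F`).  By `rep_iso` every class is one of the twelve classes
`(Rep k).cls`.
* `(Rep 6).cls ∈ F` is impossible by `h6`: for large `n` the tournament `G` of the definition
  would have `(1 + β) * n.descFactorial 5 ≤ 1024 * cnt (Rep 6) G ≤ n ^ 5 + C * n ^ 4`.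
* If `(Rep 9).cls ∈ F`, or `(Rep 10).cls ∈ F`, or both `(Rep 8).cls, (Rep 11).cls ∈ F`, then the
  same tournaments `G` (of the dominant family `F`) satisfy
  `(1 + β / 2) * n.descFactorial 5 ≤ 1024 * cnt (Rep 4) G` for large `n`, by `h9`, `h10`, `h8`.
* Otherwise `insert (Rep 4).cls F` is contained in the family of the classes
  `0, 1, 2, 3, 4, 5, 7, 8` or in `0, 1, 2, 3, 4, 5, 7, 11`, and these are dominant by `hD`, `hA`
  (`n.descFactorial 5 ≤ n ^ 5`), hence so are their subsets.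
Use `dens_iff` (with `h = 5`, `Nat.choose 5 2 = 10`), `cnt_iso` and
`n ^ 5 - 10 * n ^ 4 ≤ n.descFactorial 5 ≤ n ^ 5`.
-/

namespace Pool.Agent.Helper59.TD

theorem desc5_lower (n : ℕ) : (n : ℝ) ^ 4 * ((n : ℝ) - 10) ≤ (n.descFactorial 5 : ℝ) := by
  rcases Nat.lt_or_ge n 4 with h | h
  · have h1 : (0 : ℝ) ≤ (n.descFactorial 5 : ℝ) := Nat.cast_nonneg _
    have h2 : (n : ℝ) ≤ 10 := by
      have : n ≤ 10 := by omega
      exact_mod_cast this
    have h3 : (0 : ℝ) ≤ (n : ℝ) ^ 4 := by positivity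
    nlinarith
  · obtain ⟨m, rfl⟩ := Nat.exists_eq_add_of_le h
    have h1 : (4 + m).descFactorial 5 = (4 + m) * (3 + m) * (2 + m) * (1 + m) * m := by
      simp only [Nat.descFactorial_succ, Nat.descFactorial_zero]
      have e4 : 4 + m - 4 = m := by omega
      have e3 : 4 + m - 3 = 1 + m := by omega
      have e2 : 4 + m - 2 = 2 + m := by omega
      have e1 : 4 + m - 1 = 3 + m := by omega
      have e0 : 4 + m - 0 = 4 + m := by omega
      rw [e4, e3, e2, e1, e0]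
      ring
    rw [h1]
    push_cast
    have hm : (0 : ℝ) ≤ (m : ℝ) := Nat.cast_nonneg _
    have key : (4 + (m : ℝ)) * (3 + m) * (2 + m) * (1 + m) * m -
        (4 + (m : ℝ)) ^ 4 * ((4 + (m : ℝ)) - 10) =
        (4 + (m : ℝ)) * (35 * (m : ℝ) ^ 2 + 230 * m + 384) := by
      ring
    have h2 : 0 ≤ (4 + (m : ℝ)) * (35 * (m : ℝ) ^ 2 + 230 * m + 384) := by positivity
    linarith

theorem desc5_upper (n : ℕ) : (n.descFactorial 5 : ℝ) ≤ (n : ℝ) ^ 5 := by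
  exact_mod_cast Nat.descFactorial_le_pow n 5

/-- For large `n`, `c * n ^ 4 ≤ b * n.descFactorial 5`. -/
theorem large4 (c b : ℝ) (hb : 0 < b) : ∃ n₁ : ℕ, ∀ n ≥ n₁,
    c * (n : ℝ) ^ 4 ≤ b * (n.descFactorial 5 : ℝ) := by
  obtain ⟨n₁, h₁⟩ := exists_nat_ge (10 + c / b)
  refine ⟨n₁, fun n hn => ?_⟩
  have h2 : (n₁ : ℝ) ≤ n := by exact_mod_cast hn
  have h3 : c / b ≤ (n : ℝ) - 10 := by linarith
  have h4 : c ≤ ((n : ℝ) - 10) * b := (div_le_iff₀ hb).1 h3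
  have h5 := desc5_lower n
  have h6 : (0 : ℝ) ≤ (n : ℝ) ^ 4 := by positivity
  calc c * (n : ℝ) ^ 4 ≤ ((n : ℝ) - 10) * b * (n : ℝ) ^ 4 := mul_le_mul_of_nonneg_right h4 h6
    _ = b * ((n : ℝ) ^ 4 * ((n : ℝ) - 10)) := by ring
    _ ≤ b * (n.descFactorial 5 : ℝ) := mul_le_mul_of_nonneg_left h5 hb.le

/-- For large `n`, `c * n ^ 9 < (b * n.descFactorial 5) ^ 2`. -/
theorem large9 (c b : ℝ) (hb : 0 < b) : ∃ n₁ : ℕ, ∀ n ≥ n₁,
    c * (n : ℝ) ^ 9 < (b * (n.descFactorial 5 : ℝ)) ^ 2 := by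
  obtain ⟨n₁, h₁⟩ := exists_nat_gt (4 * c / b ^ 2)
  refine ⟨max n₁ 20, fun n hn => ?_⟩
  have h20 : (20 : ℝ) ≤ n := by
    have : 20 ≤ n := le_trans (le_max_right _ _) hn
    exact_mod_cast this
  have h2 : (n₁ : ℝ) ≤ n := by
    have : n₁ ≤ n := le_trans (le_max_left _ _) hn
    exact_mod_cast this
  have hb2 : 0 < b ^ 2 := by positivity
  have h3 : 4 * c / b ^ 2 < (n : ℝ) := lt_of_lt_of_le h₁ h2
  have h4 : 4 * c < (n : ℝ) * b ^ 2 := (div_lt_iff₀ hb2).1 h3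
  have hn0 : (0 : ℝ) < n := by linarith
  have h5 := desc5_lower n
  have h6 : (n : ℝ) ^ 4 * ((n : ℝ) / 2) ≤ (n.descFactorial 5 : ℝ) := by
    refine le_trans (mul_le_mul_of_nonneg_left ?_ (by positivity)) h5
    linarith
  have h7 : (0 : ℝ) ≤ b * ((n : ℝ) ^ 4 * ((n : ℝ) / 2)) := by positivity
  have h8 : b * ((n : ℝ) ^ 4 * ((n : ℝ) / 2)) ≤ b * (n.descFactorial 5 : ℝ) :=
    mul_le_mul_of_nonneg_left h6 hb.le
  have h9 : (b * ((n : ℝ) ^ 4 * ((n : ℝ) / 2))) ^ 2 ≤ (b * (n.descFactorial 5 : ℝ)) ^ 2 :=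
    pow_le_pow_left₀ h7 h8 2
  refine lt_of_lt_of_le ?_ h9
  have h10 : (b * ((n : ℝ) ^ 4 * ((n : ℝ) / 2))) ^ 2 - c * (n : ℝ) ^ 9 =
      (n : ℝ) ^ 9 * (((n : ℝ) * b ^ 2 - 4 * c) / 4) := by ring
  have h11 : 0 < (n : ℝ) ^ 9 * (((n : ℝ) * b ^ 2 - 4 * c) / 4) := by
    apply mul_pos (by positivity)
    linarith
  linarith

/-- The definition of dominance in terms of labelled copies. -/
theorem dominant_cnt {F : Set (TClass 5)} (hF : Dominant F) :
    ∃ β : ℝ, 0 < β ∧ ∃ n₀ : ℕ, ∀ n ≥ n₀, ∃ G : Tour n, ∀ H : Tour 5, H.cls ∈ F →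
      (1 + β) * (n.descFactorial 5 : ℝ) ≤ 1024 * (cnt H G : ℝ) := by
  obtain ⟨β, hβ, n₀, h⟩ := hF
  refine ⟨β, hβ, max n₀ 5, fun n hn => ?_⟩
  obtain ⟨G, hG⟩ := h n (le_trans (le_max_left _ _) hn)
  refine ⟨G, fun H hH => ?_⟩
  have := (dens_iff H G (le_trans (le_max_right _ _) hn) (1 + β)).1 (hG H hH)
  have e : (2 : ℝ) ^ (Nat.choose 5 2) = 1024 := by
    have : Nat.choose 5 2 = 10 := by decide
    rw [this]; norm_num
  rwa [e] at this

theorem dominant_of_cnt {F : Set (TClass 5)} {β : ℝ} (hβ : 0 < β) {n₀ : ℕ}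
    (h : ∀ n ≥ n₀, ∃ G : Tour n, ∀ H : Tour 5, H.cls ∈ F →
      (1 + β) * (n.descFactorial 5 : ℝ) ≤ 1024 * (cnt H G : ℝ)) : Dominant F := by
  refine ⟨β, hβ, max n₀ 5, fun n hn => ?_⟩
  obtain ⟨G, hG⟩ := h n (le_trans (le_max_left _ _) hn)
  refine ⟨G, fun H hH => ?_⟩
  refine (dens_iff H G (le_trans (le_max_right _ _) hn) (1 + β)).2 ?_
  have e : (2 : ℝ) ^ (Nat.choose 5 2) = 1024 := by
    have : Nat.choose 5 2 = 10 := by decide
    rw [this]; norm_num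
  rw [e]
  exact hG H hH

theorem cls_eq_iff {H H' : Tour 5} : H.cls = H'.cls ↔ H.Iso H' := by
  constructor
  · intro h
    exact Quotient.exact h
  · intro h
    exact Quotient.sound h

/-- If the tournaments of a dominant family also have many copies of `Rep 4` then the family
remains dominant when `Rep 4` is added. -/
theorem dominant_insert {F : Set (TClass 5)} {β : ℝ} (hβ : 0 < β) {n₀ : ℕ}
    (h : ∀ n ≥ n₀, ∃ G : Tour n, (∀ H : Tour 5, H.cls ∈ F →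
      (1 + β) * (n.descFactorial 5 : ℝ) ≤ 1024 * (cnt H G : ℝ)) ∧
      (1 + β / 2) * (n.descFactorial 5 : ℝ) ≤ 1024 * (cnt (Rep 4) G : ℝ)) :
    Dominant (insert (Rep 4).cls F) := by
  refine dominant_of_cnt (β := β / 2) (by positivity) (n₀ := n₀) fun n hn => ?_
  obtain ⟨G, hG, h4⟩ := h n hn
  refine ⟨G, fun H hH => ?_⟩
  rcases hH with hH | hH
  · have := cnt_iso (cls_eq_iff.1 hH) G
    rw [this]
    exact h4
  · refine le_trans ?_ (hG H hH)
    apply mul_le_mul_of_nonneg_right _ (Nat.cast_nonneg _)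
    linarith

/-- A family contained in the family of the classes of the tournaments of a set `S` of numbers
with many simultaneous copies is dominant, also with `Rep 4`. -/
theorem dominant_of_set {F : Set (TClass 5)} {S : Finset (Fin 12)} (h4 : 4 ∈ S)
    (hS : ∀ k : Fin 12, (Rep k).cls ∈ F → k ∈ S)
    (hD : ∃ β : ℝ, 0 < β ∧ ∃ n₀ : ℕ, ∀ n ≥ n₀, ∃ G : Tour n,
      ∀ k : Fin 12, k ∈ S → (1 + β) * (n : ℝ) ^ 5 ≤ 1024 * (cnt (Rep k) G : ℝ)) :
    Dominant (insert (Rep 4).cls F) := by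
  obtain ⟨β, hβ, n₀, h⟩ := hD
  refine dominant_of_cnt hβ (n₀ := n₀) fun n hn => ?_
  obtain ⟨G, hG⟩ := h n hn
  refine ⟨G, fun H hH => ?_⟩
  have key : ∃ k ∈ S, H.Iso (Rep k) := by
    rcases hH with hH | hH
    · exact ⟨4, h4, cls_eq_iff.1 hH⟩
    · obtain ⟨k, hk⟩ := rep_iso H
      exact ⟨k, hS k (by rw [← cls_eq_iff.2 hk]; exact hH), hk⟩
  obtain ⟨k, hkS, hk⟩ := key
  rw [cnt_iso hk G]
  exact le_trans (mul_le_mul_of_nonneg_left (desc5_upper n) (by linarith)) (hG k hkS)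


theorem main_reduction
    (h6 : ∃ C : ℝ, ∀ (n : ℕ) (G : Tour n),
      1024 * (cnt (Rep 6) G : ℝ) ≤ (n : ℝ) ^ 5 + C * (n : ℝ) ^ 4)
    (h9 : ∃ C : ℝ, ∀ (n : ℕ) (G : Tour n),
      (cnt (Rep 9) G : ℝ) ≤ cnt (Rep 4) G + C * (n : ℝ) ^ 4)
    (h8 : ∃ C : ℝ, ∀ (n : ℕ) (G : Tour n),
      (cnt (Rep 8) G : ℝ) + cnt (Rep 11) G ≤ 2 * cnt (Rep 4) G + C * (n : ℝ) ^ 4)
    (h10 : ∃ C : ℝ, ∀ (n : ℕ) (G : Tour n), (cnt (Rep 4) G : ℝ) ≤ cnt (Rep 10) G →
      ((cnt (Rep 10) G : ℝ) - cnt (Rep 4) G) ^ 2 ≤ C * (n : ℝ) ^ 9)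
    (hD : ∃ β : ℝ, 0 < β ∧ ∃ n₀ : ℕ, ∀ n ≥ n₀, ∃ G : Tour n,
      ∀ k : Fin 12, k ∈ ({0, 1, 2, 3, 4, 5, 7, 8} : Finset (Fin 12)) →
        (1 + β) * (n : ℝ) ^ 5 ≤ 1024 * (cnt (Rep k) G : ℝ))
    (hA : ∃ β : ℝ, 0 < β ∧ ∃ n₀ : ℕ, ∀ n ≥ n₀, ∃ G : Tour n,
      ∀ k : Fin 12, k ∈ ({0, 1, 2, 3, 4, 5, 7, 11} : Finset (Fin 12)) →
        (1 + β) * (n : ℝ) ^ 5 ≤ 1024 * (cnt (Rep k) G : ℝ)) :
    HighlyDominant (Rep 4) := by
  intro F hF
  have hdom : Dominant F := hF.prop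
  -- it suffices that the larger family is dominant
  suffices hs : Dominant (insert (Rep 4).cls F) by
    exact hF.le_of_ge hs (Set.subset_insert _ _) (Set.mem_insert _ _)
  obtain ⟨β, hβ, n₀, hn₀⟩ := dominant_cnt hdom
  -- number 6 does not occur
  have n6 : (Rep 6).cls ∉ F := by
    intro h
    obtain ⟨C, hC⟩ := h6
    obtain ⟨n₁, hn₁⟩ := large4 (C + 10 + 1) β hβ
    have hn : max (max n₀ n₁) 1 ≥ n₀ := le_trans (le_max_left _ _) (le_max_left _ _)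
    have hn' : max (max n₀ n₁) 1 ≥ n₁ := le_trans (le_max_right _ _) (le_max_left _ _)
    have hn'' : max (max n₀ n₁) 1 ≥ 1 := le_max_right _ _
    generalize max (max n₀ n₁) 1 = n at hn hn' hn''
    obtain ⟨G, hG⟩ := hn₀ n hn
    have a1 := hG (Rep 6) h
    have a2 := hC n G
    have a3 := hn₁ n hn'
    have a4 := desc5_lower n
    have a5 : (0 : ℝ) < (n : ℝ) ^ 4 := by
      have : (0 : ℝ) < n := by exact_mod_cast hn''
      positivity
    nlinarith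
  by_cases c9 : (Rep 9).cls ∈ F
  · obtain ⟨C, hC⟩ := h9
    obtain ⟨n₁, hn₁⟩ := large4 (1024 * C) (β / 2) (by positivity)
    refine dominant_insert hβ (n₀ := max n₀ n₁) fun n hn => ?_
    obtain ⟨G, hG⟩ := hn₀ n (le_trans (le_max_left _ _) hn)
    refine ⟨G, hG, ?_⟩
    have a1 := hG (Rep 9) c9
    have a2 := hC n G
    have a3 := hn₁ n (le_trans (le_max_right _ _) hn)
    nlinarith
  by_cases c10 : (Rep 10).cls ∈ F
  · obtain ⟨C, hC⟩ := h10
    obtain ⟨n₁, hn₁⟩ := large9 (1024 ^ 2 * C) (β / 2) (by positivity)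
    refine dominant_insert hβ (n₀ := max n₀ n₁) fun n hn => ?_
    obtain ⟨G, hG⟩ := hn₀ n (le_trans (le_max_left _ _) hn)
    refine ⟨G, hG, ?_⟩
    have a1 := hG (Rep 10) c10
    have a3 := hn₁ n (le_trans (le_max_right _ _) hn)
    have hd : (0 : ℝ) ≤ (n.descFactorial 5 : ℝ) := Nat.cast_nonneg _
    rcases le_total (cnt (Rep 10) G : ℝ) (cnt (Rep 4) G : ℝ) with hle | hle
    · nlinarith
    · have a2 := hC n G hle
      by_contra hcon
      push Not at hcon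
      have b1 : β / 2 * (n.descFactorial 5 : ℝ) <
          1024 * ((cnt (Rep 10) G : ℝ) - cnt (Rep 4) G) := by linarith
      have b2 : (β / 2 * (n.descFactorial 5 : ℝ)) ^ 2 ≤
          (1024 * ((cnt (Rep 10) G : ℝ) - cnt (Rep 4) G)) ^ 2 :=
        pow_le_pow_left₀ (by positivity) b1.le 2
      have b3 : (1024 * ((cnt (Rep 10) G : ℝ) - cnt (Rep 4) G)) ^ 2 =
          1024 ^ 2 * ((cnt (Rep 10) G : ℝ) - cnt (Rep 4) G) ^ 2 := by ring
      rw [b3] at b2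
      linarith
  by_cases c8 : (Rep 8).cls ∈ F
  · by_cases c11 : (Rep 11).cls ∈ F
    · obtain ⟨C, hC⟩ := h8
      obtain ⟨n₁, hn₁⟩ := large4 (1024 * C) (β / 2) (by positivity)
      refine dominant_insert hβ (n₀ := max n₀ n₁) fun n hn => ?_
      obtain ⟨G, hG⟩ := hn₀ n (le_trans (le_max_left _ _) hn)
      refine ⟨G, hG, ?_⟩
      have a1 := hG (Rep 8) c8
      have a1' := hG (Rep 11) c11
      have a2 := hC n G
      have a3 := hn₁ n (le_trans (le_max_right _ _) hn)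
      have hd : (0 : ℝ) ≤ (n.descFactorial 5 : ℝ) := Nat.cast_nonneg _
      nlinarith [mul_nonneg hβ.le hd]
    · refine dominant_of_set (S := {0, 1, 2, 3, 4, 5, 7, 8}) (by decide) (fun k hk => ?_) hD
      have hcases : ∀ k : Fin 12, k ∉ ({0, 1, 2, 3, 4, 5, 7, 8} : Finset (Fin 12)) →
          k = 6 ∨ k = 9 ∨ k = 10 ∨ k = 11 := by decide
      by_contra hne
      rcases hcases k hne with e | e | e | e <;> subst e
      · exact n6 hk
      · exact c9 hk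
      · exact c10 hk
      · exact c11 hk
  · refine dominant_of_set (S := {0, 1, 2, 3, 4, 5, 7, 11}) (by decide) (fun k hk => ?_) hA
    have hcases : ∀ k : Fin 12, k ∉ ({0, 1, 2, 3, 4, 5, 7, 11} : Finset (Fin 12)) →
        k = 6 ∨ k = 9 ∨ k = 10 ∨ k = 8 := by decide
    by_contra hne
    rcases hcases k hne with e | e | e | e <;> subst e
    · exact n6 hk
    · exact c9 hk
    · exact c10 hk
    · exact c8 hk

end Pool.Agent.Helper59.TD
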