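import Pool.Agent.Helper59.TD.Defs

/-!
# Piece HDT-9: walks along `T5c k` are sums over the labelled copies of `Rep k`

For `k < 12` the constraint lists `T5c k` prescribe exactly the arcs of `Rep k` (coded in
`reps5`), most recent vertex first.  So the nested sum is the sum over all
`φ 0, …, φ 4` (distinct, since the arcs among them are prescribed and `G.irr`).
`tgt_bound`: for a copy `φ` and `x` in its range, `#{(a, b) : a, b ∉ φ, x → a → b → x}` differs
from `cyc G x` by at most `10 n`; and `cntAt` counts the copies through a vertex, so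
`∑ v, cyc G v * cntAt (Rep k) G v = ∑ φ, ∑ i, cyc G (φ i)`.
-/

namespace Pool.Agent.Helper59.TD

lemma copies_sum_cons {α : Type} [Fintype α] {m : ℕ} (g : (Fin (m + 1) → α) → ℤ) :
    ∑ f, g f = ∑ a, ∑ f : Fin m → α, g (Fin.cons a f) := by
  rw [← (Fin.consEquiv (fun _ => α)).sum_comp, Fintype.sum_prod_type]
  rfl

lemma copies_sum_five {α : Type} [Fintype α] (g : (Fin 5 → α) → ℤ) :
    ∑ f, g f = ∑ a, ∑ b, ∑ c, ∑ d, ∑ e, g ![a, b, c, d, e] := by
  rw [copies_sum_cons]
  refine Finset.sum_congr rfl fun a _ => ?_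
  rw [copies_sum_cons]
  refine Finset.sum_congr rfl fun b _ => ?_
  rw [copies_sum_cons]
  refine Finset.sum_congr rfl fun c _ => ?_
  rw [copies_sum_cons]
  refine Finset.sum_congr rfl fun d _ => ?_
  rw [copies_sum_cons]
  refine Finset.sum_congr rfl fun e _ => ?_
  rw [Fintype.sum_unique]
  congr 1

lemma copies_walk_five {n : ℕ} (A : Fin n → Fin n → Bool) (c0 c1 c2 c3 c4 : List Bool)
    (F : List (Fin n) → ℤ) :
    gWalk A [c0, c1, c2, c3, c4] [] F = ∑ a, ∑ b, ∑ c, ∑ d, ∑ e,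
      if okc A c0 [] a = true ∧ okc A c1 [a] b = true ∧ okc A c2 [b, a] c = true ∧
        okc A c3 [c, b, a] d = true ∧ okc A c4 [d, c, b, a] e = true then
        F [e, d, c, b, a] else 0 := by
  simp only [gWalk]
  refine Finset.sum_congr rfl fun a _ => ?_
  by_cases h0 : okc A c0 [] a = true
  swap
  · simp [h0]
  rw [if_pos h0]
  refine Finset.sum_congr rfl fun b _ => ?_
  by_cases h1 : okc A c1 [a] b = true
  swap
  · simp [h1]
  rw [if_pos h1]
  refine Finset.sum_congr rfl fun c _ => ?_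
  by_cases h2 : okc A c2 [b, a] c = true
  swap
  · simp [h2]
  rw [if_pos h2]
  refine Finset.sum_congr rfl fun d _ => ?_
  by_cases h3 : okc A c3 [c, b, a] d = true
  swap
  · simp [h3]
  rw [if_pos h3]
  refine Finset.sum_congr rfl fun e _ => ?_
  simp [h0, h1, h2, h3]

lemma copies_pair {n : ℕ} (G : Tour n) (b : Bool) (v x : Fin n) :
    (cond b (G.adj v x) (G.adj x v)) = true ↔ G.adj v x = b ∧ G.adj x v = !b := by
  by_cases h : v = x
  · subst h
    cases b <;> simp [G.irr]
  · have := G.anti v x h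
    cases b <;> simp [this]

lemma copies_okc_cons {n : ℕ} (G : Tour n) (b : Bool) (bs : List Bool) (x : Fin n)
    (xs : List (Fin n)) (v : Fin n) :
    okc G.adj (b :: bs) (x :: xs) v = true ↔
      (G.adj v x = b ∧ G.adj x v = !b) ∧ okc G.adj bs xs v = true := by
  rw [← copies_pair G b v x, okc]
  cases (cond b (G.adj v x) (G.adj x v)) <;> simp

/-- the adjacency matrix prescribed by ten bits -/
def tabOf (p q r s t u w x y z : Bool) : Fin 5 → Fin 5 → Bool :=
  ![![false, !p, !r, !u, !z], ![p, false, !q, !t, !y], ![r, q, false, !s, !x],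
    ![u, t, s, false, !w], ![z, y, x, w, false]]

lemma copies_iff {n : ℕ} (G : Tour n) (p q r s t u w x y z : Bool) (a b c d e : Fin n) :
    (okc G.adj [] [] a = true ∧ okc G.adj [p] [a] b = true ∧ okc G.adj [q, r] [b, a] c = true ∧
      okc G.adj [s, t, u] [c, b, a] d = true ∧ okc G.adj [w, x, y, z] [d, c, b, a] e = true) ↔
    ∀ i j, G.adj (![a, b, c, d, e] i) (![a, b, c, d, e] j) =
      tabOf p q r s t u w x y z i j := by
  simp only [copies_okc_cons]
  constructor
  · rintro ⟨-, ⟨h1, -⟩, ⟨h2, h3, -⟩, ⟨h4, h5, h6, -⟩, ⟨h7, h8, h9, h10, -⟩⟩ i j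
    fin_cases i <;> fin_cases j
    · exact G.irr _
    · exact h1.2
    · exact h3.2
    · exact h6.2
    · exact h10.2
    · exact h1.1
    · exact G.irr _
    · exact h2.2
    · exact h5.2
    · exact h9.2
    · exact h3.1
    · exact h2.1
    · exact G.irr _
    · exact h4.2
    · exact h8.2
    · exact h6.1
    · exact h5.1
    · exact h4.1
    · exact G.irr _
    · exact h7.2
    · exact h10.1
    · exact h9.1
    · exact h8.1
    · exact h7.1
    · exact G.irr _
  · intro h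
    exact ⟨rfl, ⟨⟨h 1 0, h 0 1⟩, rfl⟩, ⟨⟨h 2 1, h 1 2⟩, ⟨h 2 0, h 0 2⟩, rfl⟩,
      ⟨⟨h 3 2, h 2 3⟩, ⟨h 3 1, h 1 3⟩, ⟨h 3 0, h 0 3⟩, rfl⟩,
      ⟨⟨h 4 3, h 3 4⟩, ⟨h 4 2, h 2 4⟩, ⟨h 4 1, h 1 4⟩, ⟨h 4 0, h 0 4⟩, rfl⟩⟩

lemma copies_bits (k : Fin 12) : ∃ p q r s t u w x y z : Bool,
    T5c k = [[], [p], [q, r], [s, t, u], [w, x, y, z]] ∧
      ∀ i j, (Rep k).adj i j = tabOf p q r s t u w x y z i j := by
  fin_cases k
  · exact ⟨_, _, _, _, _, _, _, _, _, _, rfl, by decide⟩
  · exact ⟨_, _, _, _, _, _, _, _, _, _, rfl, by decide⟩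
  · exact ⟨_, _, _, _, _, _, _, _, _, _, rfl, by decide⟩
  · exact ⟨_, _, _, _, _, _, _, _, _, _, rfl, by decide⟩
  · exact ⟨_, _, _, _, _, _, _, _, _, _, rfl, by decide⟩
  · exact ⟨_, _, _, _, _, _, _, _, _, _, rfl, by decide⟩
  · exact ⟨_, _, _, _, _, _, _, _, _, _, rfl, by decide⟩
  · exact ⟨_, _, _, _, _, _, _, _, _, _, rfl, by decide⟩
  · exact ⟨_, _, _, _, _, _, _, _, _, _, rfl, by decide⟩
  · exact ⟨_, _, _, _, _, _, _, _, _, _, rfl, by decide⟩
  · exact ⟨_, _, _, _, _, _, _, _, _, _, rfl, by decide⟩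
  · exact ⟨_, _, _, _, _, _, _, _, _, _, rfl, by decide⟩

theorem walk_copies (k : Fin 12) {n : ℕ} (G : Tour n) (F : List (Fin n) → ℤ) :
    gWalk G.adj (T5c k) [] F =
      ∑ φ : Fin 5 ↪ Fin n, if (∀ i j, G.adj (φ i) (φ j) = (Rep k).adj i j) then
        F [φ 4, φ 3, φ 2, φ 1, φ 0] else 0 := by
  classical
  obtain ⟨p, q, r, s, t, u, w, x, y, z, hT, hR⟩ := copies_bits k
  have hinj : ∀ f : Fin 5 → Fin n, (∀ i j, G.adj (f i) (f j) = (Rep k).adj i j) →
      Function.Injective f := by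
    intro f hf i j hij
    by_contra hne
    have h1 := (Rep k).anti i j hne
    rw [← hf i j, ← hf j i, hij, G.irr] at h1
    exact absurd h1 (by decide)
  have e1 : (∑ φ : Fin 5 ↪ Fin n, if (∀ i j, G.adj (φ i) (φ j) = (Rep k).adj i j) then
        F [φ 4, φ 3, φ 2, φ 1, φ 0] else 0) =
      ∑ f : Fin 5 → Fin n, if (∀ i j, G.adj (f i) (f j) = (Rep k).adj i j) then
        F [f 4, f 3, f 2, f 1, f 0] else 0 := by
    rw [← (Equiv.subtypeInjectiveEquivEmbedding (Fin 5) (Fin n)).sum_comp]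
    have e2 : ∀ f : Fin 5 → Fin n, f ∉ Finset.univ.filter (fun f : Fin 5 → Fin n =>
        Function.Injective f) → (if (∀ i j, G.adj (f i) (f j) = (Rep k).adj i j) then
        F [f 4, f 3, f 2, f 1, f 0] else 0) = 0 := by
      intro f hf
      rw [if_neg]
      intro h
      exact hf (by simpa using hinj f h)
    rw [← Finset.sum_subset (Finset.subset_univ (Finset.univ.filter (fun f : Fin 5 → Fin n =>
        Function.Injective f))) (fun f _ hf => e2 f hf)]
    rw [Finset.sum_subtype (p := fun f : Fin 5 → Fin n => Function.Injective f)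
      (Finset.univ.filter (fun f : Fin 5 → Fin n => Function.Injective f))
      (fun f => by simp)]
    rfl
  rw [e1, hT, copies_walk_five, copies_sum_five]
  refine Finset.sum_congr rfl fun a _ => Finset.sum_congr rfl fun b _ =>
    Finset.sum_congr rfl fun c _ => Finset.sum_congr rfl fun d _ =>
    Finset.sum_congr rfl fun e _ => ?_
  have h := copies_iff G p q r s t u w x y z a b c d e
  have h' : (∀ i j, G.adj (![a, b, c, d, e] i) (![a, b, c, d, e] j) = (Rep k).adj i j) ↔
      (∀ i j, G.adj (![a, b, c, d, e] i) (![a, b, c, d, e] j) =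
        tabOf p q r s t u w x y z i j) := by
    simp only [hR]
  rw [if_congr h' rfl rfl, ← if_congr h rfl rfl]
  rfl

theorem walk_cnt (k : Fin 12) {n : ℕ} (G : Tour n) :
    gWalk G.adj (T5c k) [] (fun _ => 1) = (cnt (Rep k) G : ℤ) := by
  classical
  rw [walk_copies, cnt, Finset.sum_boole]

lemma cyc2_le {n : ℕ} (A : Fin n → Fin n → Bool) (a b : Fin n) (xs : List (Fin n)) :
    cyc2 A a b xs ≤ xs.length := by
  induction xs with
  | nil => exact le_rfl
  | cons x xs ih =>
    rw [cyc2, List.length_cons]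
    have : (cond (A x a) (cond (A b x) 1 0) 0 : ℕ) ≤ 1 := by
      cases A x a <;> cases A b x <;> simp
    change (cond (A x a) (cond (A b x) 1 0) 0 : ℕ) + cyc2 A a b xs ≤ xs.length + 1
    omega

lemma cyc_eq_sum {n : ℕ} (G : Tour n) (x : Fin n) :
    (cyc G x : ℤ) = ∑ a, ∑ b, if G.adj a b = true then
      ((cond (G.adj x a) (cond (G.adj b x) 1 0) 0 : ℕ) : ℤ) else 0 := by
  rw [cyc, ← Fintype.sum_prod_type' (fun a b => if G.adj a b = true then
      ((cond (G.adj x a) (cond (G.adj b x) 1 0) 0 : ℕ) : ℤ) else 0), Finset.card_filter]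
  push_cast
  refine Finset.sum_congr rfl fun p _ => ?_
  cases G.adj x p.1 <;> cases G.adj p.1 p.2 <;> cases G.adj p.2 x <;> simp

lemma sum_cyc_list {n : ℕ} (G : Tour n) (xs : List (Fin n)) :
    (xs.map fun x => (cyc G x : ℤ)).sum =
      ∑ a, ∑ b, if G.adj a b = true then (cyc2 G.adj a b xs : ℤ) else 0 := by
  induction xs with
  | nil => simp [cyc2]
  | cons x xs ih =>
    rw [List.map_cons, List.sum_cons, ih, cyc_eq_sum, ← Finset.sum_add_distrib]
    refine Finset.sum_congr rfl fun a _ => ?_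
    rw [← Finset.sum_add_distrib]
    refine Finset.sum_congr rfl fun b _ => ?_
    by_cases h : G.adj a b = true
    · rw [if_pos h, if_pos h, if_pos h, cyc2]
      exact (Nat.cast_add _ _).symm
    · rw [if_neg h, if_neg h, if_neg h, add_zero]

lemma gLeafT_bound {n : ℕ} (G : Tour n) (xs : List (Fin n)) (hxs : xs.length = 5) :
    |gLeafT G.adj xs - (xs.map fun x => (cyc G x : ℤ)).sum| ≤ 50 * (n : ℤ) := by
  classical
  rw [sum_cyc_list, gLeafT, ← Finset.sum_sub_distrib]
  have key : ∀ a b : Fin n, |(if a ∉ xs then (if b ∉ xs then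
      (if G.adj a b = true then (cyc2 G.adj a b xs : ℤ) else 0) else 0) else 0) -
      (if G.adj a b = true then (cyc2 G.adj a b xs : ℤ) else 0)| ≤
      (if a ∈ xs then 5 else 0) + (if b ∈ xs then 5 else 0) := by
    intro a b
    have h5 : (cyc2 G.adj a b xs : ℤ) ≤ 5 := by
      have := cyc2_le G.adj a b xs
      rw [hxs] at this
      exact_mod_cast this
    have h0 : (0 : ℤ) ≤ (cyc2 G.adj a b xs : ℤ) := Int.natCast_nonneg _
    by_cases ha : a ∈ xs <;> by_cases hb : b ∈ xs <;> by_cases h : G.adj a b = true <;>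
      simp [ha, hb, h] <;> omega
  have hc : ∑ a : Fin n, (if a ∈ xs then (5 : ℤ) else 0) ≤ 25 := by
    rw [← Finset.sum_filter, Finset.sum_const, nsmul_eq_mul]
    have : (Finset.univ.filter fun a : Fin n => a ∈ xs).card ≤ 5 := by
      have h1 : (Finset.univ.filter fun a : Fin n => a ∈ xs) ⊆ xs.toFinset := by
        intro a ha
        simpa using ha
      exact (Finset.card_le_card h1).trans ((List.toFinset_card_le xs).trans hxs.le)
    have : ((Finset.univ.filter fun a : Fin n => a ∈ xs).card : ℤ) ≤ 5 := by exact_mod_cast this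
    linarith
  have e1 : ∀ a : Fin n, (if a ∉ xs then (∑ b, if b ∉ xs then
      (if G.adj a b = true then (cyc2 G.adj a b xs : ℤ) else 0) else 0) else 0) =
      ∑ b, (if a ∉ xs then (if b ∉ xs then
      (if G.adj a b = true then (cyc2 G.adj a b xs : ℤ) else 0) else 0) else 0) := by
    intro a
    by_cases ha : a ∉ xs
    · simp only [if_pos ha]
    · simp only [if_neg ha, Finset.sum_const_zero]
  calc _ = |∑ a, ∑ b, ((if a ∉ xs then (if b ∉ xs then
      (if G.adj a b = true then (cyc2 G.adj a b xs : ℤ) else 0) else 0) else 0) -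
      (if G.adj a b = true then (cyc2 G.adj a b xs : ℤ) else 0))| := by
        congr 1
        refine Finset.sum_congr rfl fun a _ => ?_
        rw [e1, ← Finset.sum_sub_distrib]
    _ ≤ ∑ a, ∑ b, |(if a ∉ xs then (if b ∉ xs then
      (if G.adj a b = true then (cyc2 G.adj a b xs : ℤ) else 0) else 0) else 0) -
      (if G.adj a b = true then (cyc2 G.adj a b xs : ℤ) else 0)| :=
        (Finset.abs_sum_le_sum_abs _ _).trans (Finset.sum_le_sum fun a _ =>
          Finset.abs_sum_le_sum_abs _ _)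
    _ ≤ ∑ a : Fin n, ∑ b : Fin n, ((if a ∈ xs then (5 : ℤ) else 0) +
          (if b ∈ xs then (5 : ℤ) else 0)) :=
        Finset.sum_le_sum fun a _ => Finset.sum_le_sum fun b _ => key a b
    _ = n * (∑ a : Fin n, (if a ∈ xs then (5 : ℤ) else 0)) +
          n * (∑ b : Fin n, (if b ∈ xs then (5 : ℤ) else 0)) := by
        simp only [Finset.sum_add_distrib, Finset.sum_const, Finset.card_univ, Fintype.card_fin,
          nsmul_eq_mul]
        rw [← Finset.mul_sum]
    _ ≤ 50 * (n : ℤ) := by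
        have hn : (0 : ℤ) ≤ n := Int.natCast_nonneg _
        nlinarith [mul_le_mul_of_nonneg_left hc hn]

theorem tgt_bound (k : Fin 12) {n : ℕ} (G : Tour n) :
    |gWalk G.adj (T5c k) [] (gLeafT G.adj) -
      ∑ v : Fin n, (cyc G v : ℤ) * (cntAt (Rep k) G v : ℤ)| ≤ 50 * (n : ℤ) ^ 6 := by
  classical
  rw [walk_copies]
  have e1 : ∑ v : Fin n, (cyc G v : ℤ) * (cntAt (Rep k) G v : ℤ) =
      ∑ φ : Fin 5 ↪ Fin n, if (∀ i j, G.adj (φ i) (φ j) = (Rep k).adj i j) then
        ([φ 4, φ 3, φ 2, φ 1, φ 0].map fun x => (cyc G x : ℤ)).sum else 0 := by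
    have e2 : ∀ v : Fin n, (cyc G v : ℤ) * (cntAt (Rep k) G v : ℤ) =
        ∑ φ : Fin 5 ↪ Fin n, if ((∀ i j, G.adj (φ i) (φ j) = (Rep k).adj i j) ∧ ∃ i, φ i = v) then
          (cyc G v : ℤ) else 0 := by
      intro v
      rw [cntAt, Finset.card_filter]
      push_cast
      rw [Finset.mul_sum]
      refine Finset.sum_congr rfl fun φ _ => ?_
      split_ifs <;> simp
    simp only [e2]
    rw [Finset.sum_comm]
    refine Finset.sum_congr rfl fun φ _ => ?_
    by_cases h : ∀ i j, G.adj (φ i) (φ j) = (Rep k).adj i j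
    swap
    · rw [if_neg h]
      exact Finset.sum_eq_zero fun v _ => if_neg fun h' => h h'.1
    rw [if_pos h]
    have e3 : ∀ v : Fin n, (if ((∀ i j, G.adj (φ i) (φ j) = (Rep k).adj i j) ∧ ∃ i, φ i = v) then
          (cyc G v : ℤ) else 0) = if v ∈ Finset.univ.map φ then (cyc G v : ℤ) else 0 := by
      intro v
      refine if_congr ?_ rfl rfl
      simp only [Finset.mem_map, Finset.mem_univ, true_and]
      exact ⟨fun h' => h'.2, fun h' => ⟨h, h'⟩⟩
    simp only [e3]
    rw [← Finset.sum_filter, Finset.filter_mem_eq_inter, Finset.univ_inter, Finset.sum_map,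
      Fin.sum_univ_five]
    simp only [List.map_cons, List.map_nil, List.sum_cons, List.sum_nil]
    ring
  rw [e1, ← Finset.sum_sub_distrib]
  have hcard : ((Finset.univ : Finset (Fin 5 ↪ Fin n)).card : ℤ) ≤ (n : ℤ) ^ 5 := by
    have h1 : Fintype.card (Fin 5 ↪ Fin n) ≤ Fintype.card (Fin 5 → Fin n) :=
      Fintype.card_le_of_injective (fun φ : Fin 5 ↪ Fin n => (φ : Fin 5 → Fin n))
        DFunLike.coe_injective
    rw [Fintype.card_fun, Fintype.card_fin, Fintype.card_fin] at h1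
    rw [Finset.card_univ]
    exact_mod_cast h1
  calc _ ≤ ∑ φ : Fin 5 ↪ Fin n, |(if (∀ i j, G.adj (φ i) (φ j) = (Rep k).adj i j) then
        gLeafT G.adj [φ 4, φ 3, φ 2, φ 1, φ 0] else 0) -
        (if (∀ i j, G.adj (φ i) (φ j) = (Rep k).adj i j) then
        ([φ 4, φ 3, φ 2, φ 1, φ 0].map fun x => (cyc G x : ℤ)).sum else 0)| :=
        Finset.abs_sum_le_sum_abs _ _
    _ ≤ ∑ _φ : Fin 5 ↪ Fin n, 50 * (n : ℤ) := by
        refine Finset.sum_le_sum fun φ _ => ?_
        by_cases h : ∀ i j, G.adj (φ i) (φ j) = (Rep k).adj i j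
        · rw [if_pos h, if_pos h]
          exact gLeafT_bound G _ rfl
        · rw [if_neg h, if_neg h, sub_zero, abs_zero]
          positivity
    _ ≤ 50 * (n : ℤ) ^ 6 := by
        rw [Finset.sum_const, nsmul_eq_mul]
        have hn : (0 : ℤ) ≤ 50 * n := by positivity
        calc _ ≤ (n : ℤ) ^ 5 * (50 * n) := mul_le_mul_of_nonneg_right hcard hn
          _ = 50 * (n : ℤ) ^ 6 := by ring

end Pool.Agent.Helper59.TD
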