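import Pool.Agent.Helper59.TD.Defs

/-!
# Piece HDT-10: from the localised inequality to the inequality between the counts

Let `H, K` be tournaments on five vertices, `H` not transitive, and suppose
`∑ v, cyc G v * cntAt H G v ≤ ∑ v, cyc G v * cntAt K G v + C n ^ 6` for all `G`.
Put `Φ G = cnt H G - cnt K G`, `D v = cntAt H G v - cntAt K G v` (integers).

Take `G` on `Fin n` maximising `Φ` (finitely many tournaments).  For vertices `u ≠ v` let `G'` be
obtained by making `u` a clone of `v`: `adj' i j = adj (r i) (r j)` with `r u = v`, `r w = w`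
otherwise, except that the arc between `u` and `v` is kept.  Copies avoiding `u` are not changed;
the copies in `G'` through `u` and not through `v` correspond (compose with the transposition
`(u v)`) to the copies in `G` through `v` and not through `u`; embeddings through both `u` and `v`
are at most `20 n ^ 3`.  So `|cnt X G' - (cnt X G - cntAt X G u + cntAt X G v)| ≤ 20 n ^ 3` for
`X = H, K`, and maximality gives `D v ≤ D u + 40 n ^ 3` for all `u, v`.  As `∑ v, D v = 5 Φ G`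
(`∑ v, cntAt X G v = 5 * cnt X G`), `n * D u ≥ 5 Φ - 40 n ^ 4` for every `u`.  Multiply by
`cyc G u ≥ 0` and sum: with `c = ∑ u, cyc G u ≤ n ^ 3`,
`(5 Φ - 40 n ^ 4) * c ≤ n * ∑ cyc * D ≤ C n ^ 7`, hence `5 Φ c ≤ (C + 40) n ^ 7`.
Finally every copy of `H` contains a cyclic triangle at fixed places (`hcyc`), so
`Φ ≤ cnt H G ≤ n ^ 2 * c`, and if `Φ ≥ 0`: `5 Φ ^ 2 ≤ 5 Φ c n ^ 2 ≤ (C + 40) n ^ 9`.
(With `C ≥ 0` without loss of generality.)  For an arbitrary `G`, `Φ G ≤ Φ G_max`.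
-/

namespace Pool.Agent.Helper59.TD

open Finset

private theorem hdt10_finite (n : ℕ) : Finite (Tour n) :=
  Finite.of_injective (fun G : Tour n => G.adj) (by
    intro G G' h
    cases G
    cases G'
    simp only at h
    subst h
    rfl)

set_option linter.unusedVariables false in
/-- making `u` a clone of `v` -/
private def hdt10_clone {n : ℕ} (G : Tour n) (u v : Fin n) (huv : u ≠ v) : Tour n where
  adj i j := if (i = u ∧ j = v) ∨ (i = v ∧ j = u) then G.adj i j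
    else G.adj (if i = u then v else i) (if j = u then v else j)
  irr i := by
    split_ifs <;> exact G.irr _
  anti i j hij := by
    by_cases h : (i = u ∧ j = v) ∨ (i = v ∧ j = u)
    · have h' : (j = u ∧ i = v) ∨ (j = v ∧ i = u) := by
        rcases h with ⟨h1, h2⟩ | ⟨h1, h2⟩
        · exact Or.inr ⟨h2, h1⟩
        · exact Or.inl ⟨h2, h1⟩
      rw [if_pos h, if_pos h']
      exact G.anti i j hij
    · have h' : ¬ ((j = u ∧ i = v) ∨ (j = v ∧ i = u)) := by
        rintro (⟨h1, h2⟩ | ⟨h1, h2⟩)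
        · exact h (Or.inr ⟨h2, h1⟩)
        · exact h (Or.inl ⟨h2, h1⟩)
      rw [if_neg h, if_neg h']
      refine G.anti _ _ ?_
      intro he
      by_cases hi : i = u
      · by_cases hj : j = u
        · exact hij (hi.trans hj.symm)
        · rw [if_pos hi, if_neg hj] at he
          exact h (Or.inl ⟨hi, he.symm⟩)
      · by_cases hj : j = u
        · rw [if_neg hi, if_pos hj] at he
          exact h (Or.inr ⟨he, hj⟩)
        · rw [if_neg hi, if_neg hj] at he
          exact hij he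

private theorem hdt10_clone_off {n : ℕ} (G : Tour n) (u v : Fin n) (huv : u ≠ v) (i j : Fin n)
    (hi : i ≠ u) (hj : j ≠ u) : (hdt10_clone G u v huv).adj i j = G.adj i j := by
  have h : ¬ ((i = u ∧ j = v) ∨ (i = v ∧ j = u)) := by
    rintro (⟨h1, _⟩ | ⟨_, h2⟩)
    · exact hi h1
    · exact hj h2
  show (if (i = u ∧ j = v) ∨ (i = v ∧ j = u) then G.adj i j
    else G.adj (if i = u then v else i) (if j = u then v else j)) = _
  rw [if_neg h, if_neg hi, if_neg hj]

private theorem hdt10_clone_swap {n : ℕ} (G : Tour n) (u v : Fin n) (huv : u ≠ v) (i j : Fin n)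
    (hi : i ≠ v) (hj : j ≠ v) :
    (hdt10_clone G u v huv).adj i j = G.adj (Equiv.swap u v i) (Equiv.swap u v j) := by
  have h : ¬ ((i = u ∧ j = v) ∨ (i = v ∧ j = u)) := by
    rintro (⟨_, h2⟩ | ⟨h1, _⟩)
    · exact hj h2
    · exact hi h1
  have hs : ∀ k : Fin n, k ≠ v → (if k = u then v else k) = Equiv.swap u v k := by
    intro k hk
    by_cases hku : k = u
    · rw [if_pos hku, hku, Equiv.swap_apply_left]
    · rw [if_neg hku, Equiv.swap_apply_of_ne_of_ne hku hk]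
  show (if (i = u ∧ j = v) ∨ (i = v ∧ j = u) then G.adj i j
    else G.adj (if i = u then v else i) (if j = u then v else j)) = _
  rw [if_neg h, hs i hi, hs j hj]

section counts

variable {n : ℕ} (X : Tour 5) (G : Tour n)

/-- copies avoiding `u` -/
private noncomputable def hdt10_A0 (u : Fin n) : ℕ :=
  (univ.filter fun φ : Fin 5 ↪ Fin n =>
    (∀ i j, G.adj (φ i) (φ j) = X.adj i j) ∧ ¬ ∃ i, φ i = u).card

/-- copies through `u` avoiding `v` -/
private noncomputable def hdt10_A1 (u v : Fin n) : ℕ :=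
  (univ.filter fun φ : Fin 5 ↪ Fin n =>
    ((∀ i j, G.adj (φ i) (φ j) = X.adj i j) ∧ ∃ i, φ i = u) ∧ ¬ ∃ i, φ i = v).card

/-- copies through `u` and `v` -/
private noncomputable def hdt10_A2 (u v : Fin n) : ℕ :=
  (univ.filter fun φ : Fin 5 ↪ Fin n =>
    ((∀ i j, G.adj (φ i) (φ j) = X.adj i j) ∧ ∃ i, φ i = u) ∧ ∃ i, φ i = v).card

private theorem hdt10_split0 (u : Fin n) : cnt X G = cntAt X G u + hdt10_A0 X G u := by
  unfold cnt cntAt hdt10_A0
  rw [← Finset.card_filter_add_card_filter_not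
    (s := univ.filter fun φ : Fin 5 ↪ Fin n => ∀ i j, G.adj (φ i) (φ j) = X.adj i j)
    (fun φ : Fin 5 ↪ Fin n => ∃ i, φ i = u), Finset.filter_filter, Finset.filter_filter]

private theorem hdt10_split1 (u v : Fin n) :
    cntAt X G u = hdt10_A2 X G u v + hdt10_A1 X G u v := by
  unfold cntAt hdt10_A1 hdt10_A2
  rw [← Finset.card_filter_add_card_filter_not
    (s := univ.filter fun φ : Fin 5 ↪ Fin n =>
      (∀ i j, G.adj (φ i) (φ j) = X.adj i j) ∧ ∃ i, φ i = u)
    (fun φ : Fin 5 ↪ Fin n => ∃ i, φ i = v), Finset.filter_filter, Finset.filter_filter]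

private theorem hdt10_A0_clone (u v : Fin n) (huv : u ≠ v) :
    hdt10_A0 X (hdt10_clone G u v huv) u = hdt10_A0 X G u := by
  unfold hdt10_A0
  refine congrArg Finset.card (Finset.filter_congr ?_)
  intro φ _
  constructor
  · rintro ⟨h1, h2⟩
    refine ⟨fun i j => ?_, h2⟩
    rw [← h1 i j, hdt10_clone_off G u v huv _ _ (fun h => h2 ⟨i, h⟩) (fun h => h2 ⟨j, h⟩)]
  · rintro ⟨h1, h2⟩
    refine ⟨fun i j => ?_, h2⟩
    rw [← h1 i j, hdt10_clone_off G u v huv _ _ (fun h => h2 ⟨i, h⟩) (fun h => h2 ⟨j, h⟩)]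

private theorem hdt10_A1_clone (u v : Fin n) (huv : u ≠ v) :
    hdt10_A1 X (hdt10_clone G u v huv) u v = hdt10_A1 X G v u := by
  unfold hdt10_A1
  refine Finset.card_equiv (Equiv.embeddingCongr (Equiv.refl (Fin 5)) (Equiv.swap u v)) ?_
  intro φ
  have happ : ∀ i, (Equiv.embeddingCongr (Equiv.refl (Fin 5)) (Equiv.swap u v) φ) i =
      Equiv.swap u v (φ i) := fun i => rfl
  simp only [Finset.mem_filter, Finset.mem_univ, true_and, happ]
  have hu : (∃ i, φ i = u) ↔ ∃ i, Equiv.swap u v (φ i) = v := by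
    refine exists_congr fun i => ?_
    constructor
    · intro h
      rw [h, Equiv.swap_apply_left]
    · intro h
      have := congrArg (Equiv.swap u v) h
      rwa [Equiv.swap_apply_self, Equiv.swap_apply_right] at this
  have hv : (∃ i, φ i = v) ↔ ∃ i, Equiv.swap u v (φ i) = u := by
    refine exists_congr fun i => ?_
    constructor
    · intro h
      rw [h, Equiv.swap_apply_right]
    · intro h
      have := congrArg (Equiv.swap u v) h
      rwa [Equiv.swap_apply_self, Equiv.swap_apply_left] at this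
  rw [← hu, ← hv]
  constructor
  · rintro ⟨⟨h1, h2⟩, h3⟩
    refine ⟨⟨fun i j => ?_, h2⟩, h3⟩
    rw [← h1 i j, hdt10_clone_swap G u v huv _ _ (fun h => h3 ⟨i, h⟩) (fun h => h3 ⟨j, h⟩)]
  · rintro ⟨⟨h1, h2⟩, h3⟩
    refine ⟨⟨fun i j => ?_, h2⟩, h3⟩
    rw [← h1 i j, hdt10_clone_swap G u v huv _ _ (fun h => h3 ⟨i, h⟩) (fun h => h3 ⟨j, h⟩)]

private theorem hdt10_two (u v : Fin n) (i j : Fin 5) (hij : i ≠ j) :
    (univ.filter fun φ : Fin 5 ↪ Fin n => φ i = u ∧ φ j = v).card ≤ n ^ 3 := by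
  have hc : Fintype.card {l : Fin 5 // l ≠ i ∧ l ≠ j} = 3 := by
    revert i j
    decide
  have hcard : (univ : Finset ({l : Fin 5 // l ≠ i ∧ l ≠ j} → Fin n)).card = n ^ 3 := by
    rw [Finset.card_univ, Fintype.card_fun, hc, Fintype.card_fin]
  rw [← hcard]
  refine Finset.card_le_card_of_injOn (fun φ l => φ l.1) (fun _ _ => Finset.mem_univ _) ?_
  intro φ hφ ψ hψ h
  simp only [Finset.coe_filter, Finset.mem_univ, true_and, Set.mem_ofPred_eq] at hφ hψ
  refine DFunLike.ext _ _ fun l => ?_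
  by_cases hli : l = i
  · rw [hli, hφ.1, hψ.1]
  · by_cases hlj : l = j
    · rw [hlj, hφ.2, hψ.2]
    · exact congrFun h ⟨l, hli, hlj⟩

private theorem hdt10_A2_le (u v : Fin n) (huv : u ≠ v) : hdt10_A2 X G u v ≤ 25 * n ^ 3 := by
  have hsub : (univ.filter fun φ : Fin 5 ↪ Fin n =>
      ((∀ i j, G.adj (φ i) (φ j) = X.adj i j) ∧ ∃ i, φ i = u) ∧ ∃ i, φ i = v) ⊆
      (univ : Finset (Fin 5 × Fin 5)).biUnion fun p =>
        univ.filter fun φ : Fin 5 ↪ Fin n => φ p.1 = u ∧ φ p.2 = v := by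
    intro φ hφ
    simp only [Finset.mem_filter, Finset.mem_univ, true_and] at hφ
    obtain ⟨⟨_, i, hi⟩, j, hj⟩ := hφ
    simp only [Finset.mem_biUnion, Finset.mem_univ, true_and, Finset.mem_filter]
    exact ⟨(i, j), hi, hj⟩
  unfold hdt10_A2
  refine (Finset.card_le_card hsub).trans (Finset.card_biUnion_le.trans ?_)
  have h25 : (∑ _p : Fin 5 × Fin 5, n ^ 3) = 25 * n ^ 3 := by
    rw [Finset.sum_const, Finset.card_univ, Fintype.card_prod, Fintype.card_fin, smul_eq_mul]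
  rw [← h25]
  refine Finset.sum_le_sum fun p _ => ?_
  by_cases hp : p.1 = p.2
  · have : (univ.filter fun φ : Fin 5 ↪ Fin n => φ p.1 = u ∧ φ p.2 = v) = ∅ := by
      refine Finset.filter_eq_empty_iff.mpr ?_
      rintro φ _ ⟨h1, h2⟩
      rw [hp] at h1
      exact huv (h1.symm.trans h2)
    rw [this, Finset.card_empty]
    exact Nat.zero_le _
  · exact hdt10_two u v p.1 p.2 hp

private theorem hdt10_clone_le (u v : Fin n) (huv : u ≠ v) :
    cnt X (hdt10_clone G u v huv) + cntAt X G u ≤ cnt X G + cntAt X G v + 25 * n ^ 3 := by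
  have h1 := hdt10_split0 X (hdt10_clone G u v huv) u
  have h2 := hdt10_split1 X (hdt10_clone G u v huv) u v
  have h3 := hdt10_A0_clone X G u v huv
  have h4 := hdt10_A1_clone X G u v huv
  have h5 := hdt10_split0 X G u
  have h6 := hdt10_split1 X G v u
  have h7 := hdt10_A2_le X (hdt10_clone G u v huv) u v huv
  omega

private theorem hdt10_le_clone (u v : Fin n) (huv : u ≠ v) :
    cnt X G + cntAt X G v ≤ cnt X (hdt10_clone G u v huv) + cntAt X G u + 25 * n ^ 3 := by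
  have h1 := hdt10_split0 X (hdt10_clone G u v huv) u
  have h2 := hdt10_split1 X (hdt10_clone G u v huv) u v
  have h3 := hdt10_A0_clone X G u v huv
  have h4 := hdt10_A1_clone X G u v huv
  have h5 := hdt10_split0 X G u
  have h6 := hdt10_split1 X G v u
  have h7 := hdt10_A2_le X G v u huv.symm
  omega

private theorem hdt10_sum_cntAt : ∑ v : Fin n, cntAt X G v = 5 * cnt X G := by
  unfold cntAt cnt
  simp only [← Finset.filter_filter]
  have h : ∀ v : Fin n, ((univ.filter fun φ : Fin 5 ↪ Fin n =>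
      ∀ i j, G.adj (φ i) (φ j) = X.adj i j).filter fun φ => ∃ i, φ i = v).card =
      ∑ φ ∈ univ.filter (fun φ : Fin 5 ↪ Fin n => ∀ i j, G.adj (φ i) (φ j) = X.adj i j),
        if ∃ i, φ i = v then 1 else 0 := fun v => Finset.card_filter _ _
  rw [Finset.sum_congr rfl fun v _ => h v, Finset.sum_comm]
  have h2 : ∀ φ : Fin 5 ↪ Fin n, (∑ v : Fin n, if ∃ i, φ i = v then 1 else 0) = 5 := by
    intro φ
    rw [← Finset.card_filter]
    have : (univ.filter fun v : Fin n => ∃ i, φ i = v) = univ.map φ := by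
      ext v
      simp
    rw [this, Finset.card_map, Finset.card_univ, Fintype.card_fin]
  rw [Finset.sum_congr rfl fun φ _ => h2 φ, Finset.sum_const, smul_eq_mul, mul_comm]

private theorem hdt10_cyc_le (v : Fin n) : cyc G v ≤ n ^ 2 := by
  unfold cyc
  refine (Finset.card_filter_le _ _).trans ?_
  rw [Finset.card_univ, Fintype.card_prod, Fintype.card_fin, sq]

private theorem hdt10_sumcyc_le : ∑ v : Fin n, cyc G v ≤ n ^ 3 := by
  refine (Finset.sum_le_sum fun v _ => hdt10_cyc_le G v).trans ?_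
  rw [Finset.sum_const, Finset.card_univ, Fintype.card_fin, smul_eq_mul]
  exact le_of_eq (by ring)

private theorem hdt10_sumcyc : (univ.filter fun p : Fin n × Fin n × Fin n =>
    G.adj p.1 p.2.1 = true ∧ G.adj p.2.1 p.2.2 = true ∧ G.adj p.2.2 p.1 = true).card =
    ∑ v : Fin n, cyc G v := by
  unfold cyc
  rw [Finset.card_filter, Fintype.sum_prod_type]
  refine Finset.sum_congr rfl fun v _ => ?_
  rw [Finset.card_filter]

private theorem hdt10_cnt_le
    (hcyc : ∃ i j k, X.adj i j = true ∧ X.adj j k = true ∧ X.adj k i = true) :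
    cnt X G ≤ (∑ v : Fin n, cyc G v) * n ^ 2 := by
  obtain ⟨i, j, k, hij, hjk, hki⟩ := hcyc
  have h1 : i ≠ j := by
    intro h
    rw [h, X.irr] at hij
    exact absurd hij (by decide)
  have h2 : j ≠ k := by
    intro h
    rw [h, X.irr] at hjk
    exact absurd hjk (by decide)
  have h3 : k ≠ i := by
    intro h
    rw [h, X.irr] at hki
    exact absurd hki (by decide)
  have hc : Fintype.card {l : Fin 5 // l ≠ i ∧ l ≠ j ∧ l ≠ k} = 2 := by
    clear hij hjk hki
    revert i j k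
    decide
  have hcard : (univ : Finset ({l : Fin 5 // l ≠ i ∧ l ≠ j ∧ l ≠ k} → Fin n)).card = n ^ 2 := by
    rw [Finset.card_univ, Fintype.card_fun, hc, Fintype.card_fin]
  rw [← hcard, ← hdt10_sumcyc G, ← Finset.card_product]
  unfold cnt
  refine Finset.card_le_card_of_injOn
    (fun φ => ((φ i, φ j, φ k), fun l : {l : Fin 5 // l ≠ i ∧ l ≠ j ∧ l ≠ k} => φ l.1)) ?_ ?_
  · intro φ hφ
    simp only [Finset.coe_filter, Finset.mem_univ, true_and, Set.mem_ofPred_eq] at hφ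
    simp only [Finset.coe_product, Finset.coe_univ, Set.mem_prod, Set.mem_univ, and_true,
      Finset.coe_filter, Finset.mem_univ, true_and, Set.mem_ofPred_eq]
    rw [hφ, hφ, hφ]
    exact ⟨hij, hjk, hki⟩
  · intro φ _ ψ _ h
    simp only [Prod.mk.injEq] at h
    obtain ⟨⟨ha, hb, hc'⟩, hd⟩ := h
    refine DFunLike.ext _ _ fun l => ?_
    by_cases hli : l = i
    · rw [hli, ha]
    · by_cases hlj : l = j
      · rw [hlj, hb]
      · by_cases hlk : l = k
        · rw [hlk, hc']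
        · exact congrFun hd ⟨l, hli, hlj, hlk⟩

end counts

theorem extremal (H K : Tour 5)
    (hcyc : ∃ i j k, H.adj i j = true ∧ H.adj j k = true ∧ H.adj k i = true)
    (hloc : ∃ C : ℝ, ∀ (n : ℕ) (G : Tour n),
      (∑ v : Fin n, (cyc G v : ℝ) * cntAt H G v) ≤
        (∑ v : Fin n, (cyc G v : ℝ) * cntAt K G v) + C * (n : ℝ) ^ 6) :
    ∃ C : ℝ, ∀ (n : ℕ) (G : Tour n), (cnt K G : ℝ) ≤ cnt H G →
      ((cnt H G : ℝ) - cnt K G) ^ 2 ≤ C * (n : ℝ) ^ 9 := by
  obtain ⟨C, hC⟩ := hloc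
  refine ⟨(|C| + 50) / 5, fun n G hG => ?_⟩
  have : Finite (Tour n) := hdt10_finite n
  have : Nonempty (Tour n) := ⟨G⟩
  obtain ⟨M, hM⟩ := Finite.exists_max fun M : Tour n => (cnt H M : ℝ) - cnt K M
  have hn : (0 : ℝ) ≤ n := Nat.cast_nonneg n
  -- abbreviations
  obtain ⟨Φ, hΦ⟩ : ∃ Φ : ℝ, Φ = (cnt H M : ℝ) - cnt K M := ⟨_, rfl⟩
  obtain ⟨D, hD⟩ : ∃ D : Fin n → ℝ, ∀ v, D v = (cntAt H M v : ℝ) - cntAt K M v := ⟨_, fun _ => rfl⟩
  obtain ⟨c, hc⟩ : ∃ c : ℝ, c = ∑ v : Fin n, (cyc M v : ℝ) := ⟨_, rfl⟩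
  -- cloning
  have hclone : ∀ u v : Fin n, D v ≤ D u + 50 * (n : ℝ) ^ 3 := by
    intro u v
    by_cases huv : u = v
    · rw [huv]
      have : (0 : ℝ) ≤ 50 * (n : ℝ) ^ 3 := by positivity
      linarith
    · have h1 := hM (hdt10_clone M u v huv)
      have h2 := hdt10_le_clone H M u v huv
      have h3 := hdt10_clone_le K M u v huv
      have h2' : (cnt H M : ℝ) + cntAt H M v ≤
          cnt H (hdt10_clone M u v huv) + cntAt H M u + 25 * (n : ℝ) ^ 3 := by exact_mod_cast h2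
      have h3' : (cnt K (hdt10_clone M u v huv) : ℝ) + cntAt K M u ≤
          cnt K M + cntAt K M v + 25 * (n : ℝ) ^ 3 := by exact_mod_cast h3
      rw [hD, hD]
      linarith
  have hsumD : ∑ v : Fin n, D v = 5 * Φ := by
    have h1 : (∑ v : Fin n, (cntAt H M v : ℝ)) = 5 * cnt H M := by
      exact_mod_cast hdt10_sum_cntAt H M
    have h2 : (∑ v : Fin n, (cntAt K M v : ℝ)) = 5 * cnt K M := by
      exact_mod_cast hdt10_sum_cntAt K M
    rw [Finset.sum_congr rfl fun v _ => hD v, Finset.sum_sub_distrib, h1, h2, hΦ]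
    ring
  have hDlow : ∀ u : Fin n, 5 * Φ - 50 * (n : ℝ) ^ 4 ≤ n * D u := by
    intro u
    have h1 : ∑ v : Fin n, D v ≤ ∑ _v : Fin n, (D u + 50 * (n : ℝ) ^ 3) :=
      Finset.sum_le_sum fun v _ => hclone u v
    rw [Finset.sum_const, Finset.card_univ, Fintype.card_fin, nsmul_eq_mul, hsumD] at h1
    nlinarith [h1]
  have hc0 : 0 ≤ c := by
    rw [hc]
    exact Finset.sum_nonneg fun v _ => Nat.cast_nonneg _
  have hcn : c ≤ (n : ℝ) ^ 3 := by
    rw [hc]
    exact_mod_cast hdt10_sumcyc_le M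
  have hsum : (5 * Φ - 50 * (n : ℝ) ^ 4) * c ≤ n * ∑ v : Fin n, (cyc M v : ℝ) * D v := by
    rw [hc, Finset.mul_sum, Finset.mul_sum]
    refine Finset.sum_le_sum fun v _ => ?_
    have h1 := mul_le_mul_of_nonneg_left (hDlow v) (Nat.cast_nonneg (α := ℝ) (cyc M v))
    calc (5 * Φ - 50 * (n : ℝ) ^ 4) * (cyc M v : ℝ)
        = (cyc M v : ℝ) * (5 * Φ - 50 * (n : ℝ) ^ 4) := by ring
      _ ≤ (cyc M v : ℝ) * (n * D v) := h1
      _ = n * ((cyc M v : ℝ) * D v) := by ring
  have hloc' : ∑ v : Fin n, (cyc M v : ℝ) * D v ≤ C * (n : ℝ) ^ 6 := by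
    have h1 := hC n M
    have h2 : ∑ v : Fin n, (cyc M v : ℝ) * D v =
        (∑ v : Fin n, (cyc M v : ℝ) * cntAt H M v) - ∑ v : Fin n, (cyc M v : ℝ) * cntAt K M v := by
      rw [← Finset.sum_sub_distrib]
      refine Finset.sum_congr rfl fun v _ => ?_
      rw [hD]
      ring
    rw [h2]
    linarith
  have hfive : 5 * Φ * c ≤ (|C| + 50) * (n : ℝ) ^ 7 := by
    have h1 : (n : ℝ) * ∑ v : Fin n, (cyc M v : ℝ) * D v ≤ n * (C * (n : ℝ) ^ 6) :=
      mul_le_mul_of_nonneg_left hloc' hn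
    have h2 : C * (n : ℝ) ^ 7 ≤ |C| * (n : ℝ) ^ 7 :=
      mul_le_mul_of_nonneg_right (le_abs_self C) (by positivity)
    have h3 : 50 * (n : ℝ) ^ 4 * c ≤ 50 * (n : ℝ) ^ 4 * (n : ℝ) ^ 3 :=
      mul_le_mul_of_nonneg_left hcn (by positivity)
    calc 5 * Φ * c = (5 * Φ - 50 * (n : ℝ) ^ 4) * c + 50 * (n : ℝ) ^ 4 * c := by ring
      _ ≤ n * (C * (n : ℝ) ^ 6) + 50 * (n : ℝ) ^ 4 * (n : ℝ) ^ 3 :=
          add_le_add (hsum.trans h1) h3
      _ = C * (n : ℝ) ^ 7 + 50 * (n : ℝ) ^ 7 := by ring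
      _ ≤ |C| * (n : ℝ) ^ 7 + 50 * (n : ℝ) ^ 7 := by linarith
      _ = (|C| + 50) * (n : ℝ) ^ 7 := by ring
  have hΦG : (cnt H G : ℝ) - cnt K G ≤ Φ := by
    rw [hΦ]
    exact hM G
  have hG0 : 0 ≤ (cnt H G : ℝ) - cnt K G := by linarith
  have hΦ0 : 0 ≤ Φ := hG0.trans hΦG
  have hΦle : Φ ≤ c * (n : ℝ) ^ 2 := by
    have h1 : (cnt H M : ℝ) ≤ (∑ v : Fin n, (cyc M v : ℝ)) * (n : ℝ) ^ 2 := by
      exact_mod_cast hdt10_cnt_le H M hcyc
    rw [← hc] at h1
    have h2 : (0 : ℝ) ≤ cnt K M := Nat.cast_nonneg _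
    rw [hΦ]
    linarith
  have hsq : ((cnt H G : ℝ) - cnt K G) ^ 2 ≤ Φ ^ 2 := pow_le_pow_left₀ hG0 hΦG 2
  have hfin : 5 * Φ ^ 2 ≤ (|C| + 50) * (n : ℝ) ^ 9 := by
    calc 5 * Φ ^ 2 = 5 * Φ * Φ := by ring
      _ ≤ 5 * Φ * (c * (n : ℝ) ^ 2) := mul_le_mul_of_nonneg_left hΦle (by positivity)
      _ = 5 * Φ * c * (n : ℝ) ^ 2 := by ring
      _ ≤ (|C| + 50) * (n : ℝ) ^ 7 * (n : ℝ) ^ 2 :=
          mul_le_mul_of_nonneg_right hfive (by positivity)
      _ = (|C| + 50) * (n : ℝ) ^ 9 := by ring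
  calc ((cnt H G : ℝ) - cnt K G) ^ 2 ≤ Φ ^ 2 := hsq
    _ ≤ (|C| + 50) / 5 * (n : ℝ) ^ 9 := by linarith

end Pool.Agent.Helper59.TD
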