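import Pool.Agent.Helper59.TD.Gen

/-!
# Piece HDT-4: positivity up to lower order terms

For one extra vertex: for every root list `xs`,
`∑_{a ∉ xs} ∑_{b ∉ xs} Q (cod a) (cod b) ≥ 0` (by `hpsd` for the list of codes of the vertices
outside `xs`), and `gLeaf1` differs from it by the terms with `a = b`, at most `card V` terms
`≤ B`.  So `gLeaf1 A Q xs ≥ - B * card V` and the walk (at most `card V ^ cs.length` root lists)
gives the claim.  For two extra vertices the pairs `(a, a')`, `(b, b')` that meet are at most
`4 * card V ^ 3` and their terms are `≤ B`.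
-/

namespace Pool.Agent.Helper59.TD

/-- A lower bound for the leaves gives one for the walk. -/
theorem gWalk_lower {V : Type} [Fintype V] [DecidableEq V] (A : V → V → Bool)
    (k : List V → ℤ) (C : ℤ) (hC : 0 ≤ C) (hk : ∀ xs, -C ≤ k xs) :
    ∀ (cs : List (List Bool)) (xs : List V),
      -(C * (Fintype.card V : ℤ) ^ cs.length) ≤ gWalk A cs xs k
  | [], xs => by
      simpa [gWalk] using hk xs
  | c :: cs, xs => by
      have ih := gWalk_lower A k C hC hk cs
      have hp : (0 : ℤ) ≤ C * (Fintype.card V : ℤ) ^ cs.length := by positivity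
      have h1 : ∑ _v : V, -(C * (Fintype.card V : ℤ) ^ cs.length) ≤
          ∑ v : V, if okc A c xs v = true then gWalk A cs (v :: xs) k else 0 := by
        apply Finset.sum_le_sum
        intro v _
        split_ifs
        · exact ih (v :: xs)
        · linarith
      have h2 : ∑ _v : V, -(C * (Fintype.card V : ℤ) ^ cs.length) =
          -(C * (Fintype.card V : ℤ) ^ (c :: cs).length) := by
        rw [Finset.sum_const, Finset.card_univ, nsmul_eq_mul, List.length_cons, pow_succ]
        ring
      rw [h2] at h1
      simpa [gWalk] using h1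

/-- The quadratic form of `hpsd` as a double sum over a finite set. -/
theorem psd_finset {W : Type} (s : Finset W) (f : W → ℕ) (Q : ℕ → ℕ → ℤ) (hpsd : PSDf Q) :
    0 ≤ ∑ p ∈ s, ∑ q ∈ s, Q (f p) (f q) := by
  have h := hpsd (s.toList.map f)
  rw [List.map_map] at h
  have h1 : ((s.toList.map ((fun a => ((s.toList.map f).map fun b => Q a b).sum) ∘ f)).sum) =
      ∑ p ∈ s, ∑ q ∈ s, Q (f p) (f q) := by
    rw [Finset.sum_map_toList]
    apply Finset.sum_congr rfl
    intro p _
    simp only [Function.comp_apply, List.map_map]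
    rw [Finset.sum_map_toList]
    rfl
  rw [h1] at h
  exact h

theorem leaf1_lower {V : Type} [Fintype V] [DecidableEq V] (A : V → V → Bool)
    (Q : ℕ → ℕ → ℤ) (B : ℤ) (hB : 0 ≤ B) (hQ : ∀ i j, |Q i j| ≤ B) (hpsd : PSDf Q)
    (xs : List V) : -(4 * B * (Fintype.card V : ℤ)) ≤ gLeaf1 A Q xs := by
  have h0 : 0 ≤ ∑ a : V, if a ∉ xs then
      ∑ b : V, if b ∉ xs then Q (cod A xs a) (cod A xs b) else 0 else 0 := by
    have h := psd_finset (Finset.univ.filter fun a : V => a ∉ xs) (cod A xs) Q hpsd
    rw [Finset.sum_filter] at h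
    simp only [Finset.sum_filter] at h
    exact h
  have h1 : (∑ a : V, if a ∉ xs then
      ∑ b : V, if b ∉ xs then Q (cod A xs a) (cod A xs b) else 0 else 0) - ∑ _a : V, B ≤
      gLeaf1 A Q xs := by
    rw [← Finset.sum_sub_distrib]
    apply Finset.sum_le_sum
    intro a _
    by_cases ha : a ∈ xs
    · simp only [ha, not_true_eq_false, if_false, zero_sub]
      linarith
    · simp only [ha, not_false_eq_true, if_true]
      have h2 : (∑ b : V, if b ∉ xs then Q (cod A xs a) (cod A xs b) else 0) -
          ∑ b : V, (if b = a then B else 0) ≤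
          ∑ b : V, if b ∉ a :: xs then Q (cod A xs a) (cod A xs b) else 0 := by
        rw [← Finset.sum_sub_distrib]
        apply Finset.sum_le_sum
        intro b _
        have hq := abs_le.mp (hQ (cod A xs a) (cod A xs b))
        by_cases hb : b ∈ xs
        · by_cases hba : b = a
          · subst hba
            simp [hb, hB]
          · simp [hb, hba]
        · by_cases hba : b = a
          · subst hba
            simp [hb]
            linarith [hq.2]
          · simp [hb, hba]
      rw [Finset.sum_ite_eq' Finset.univ a (fun _ => B), if_pos (Finset.mem_univ a)] at h2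
      exact h2
  rw [Finset.sum_const, Finset.card_univ, nsmul_eq_mul] at h1
  have hn : (0 : ℤ) ≤ (Fintype.card V : ℤ) := Int.natCast_nonneg _
  nlinarith [mul_nonneg hB hn]

theorem pos1 {V : Type} [Fintype V] [DecidableEq V] (A : V → V → Bool) (cs : List (List Bool))
    (Q : ℕ → ℕ → ℤ) (B : ℤ) (hB : 0 ≤ B) (hQ : ∀ i j, |Q i j| ≤ B) (hpsd : PSDf Q) :
    -(4 * B * (Fintype.card V : ℤ) ^ (cs.length + 1)) ≤ gWalk A cs [] (gLeaf1 A Q) := by
  have h := gWalk_lower A (gLeaf1 A Q) (4 * B * (Fintype.card V : ℤ)) (by positivity)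
    (leaf1_lower A Q B hB hQ hpsd) cs []
  rw [pow_succ]
  linarith [h]

theorem term2 {V : Type} [DecidableEq V] (xs : List V) (a a' b b' : V) (q B : ℤ) (hB : 0 ≤ B)
    (hq : |q| ≤ B) :
    (if b ∉ xs then (if b' ∉ b :: xs then q else 0) else 0) -
      (((if b = a then B else 0) + (if b = a' then B else 0)) +
        ((if b' = a then B else 0) + (if b' = a' then B else 0))) ≤
    (if b ∉ a' :: a :: xs then (if b' ∉ b :: a' :: a :: xs then q else 0) else 0) := by
  have hq' := abs_le.mp hq
  have hq1 := hq'.1
  have hq2 := hq'.2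
  simp only [List.mem_cons, not_or]
  by_cases h1 : b = a <;> by_cases h2 : b = a' <;> by_cases h3 : b' = a <;>
    by_cases h4 : b' = a' <;> by_cases h5 : b ∈ xs <;> by_cases h6 : b' ∈ xs <;>
    by_cases h7 : b' = b <;> simp only [h1, h2, h3, h4, h5, h6, h7, not_true_eq_false,
      not_false_eq_true, and_true, and_false, false_and, if_true, if_false,
      and_self] <;> (try split_ifs) <;> linarith

theorem leaf2_lower {V : Type} [Fintype V] [DecidableEq V] (A : V → V → Bool)
    (Q : ℕ → ℕ → ℤ) (B : ℤ) (hB : 0 ≤ B) (hQ : ∀ i j, |Q i j| ≤ B) (hpsd : PSDf Q)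
    (xs : List V) : -(4 * B * (Fintype.card V : ℤ) ^ 3) ≤ gLeaf2 A Q xs := by
  have h0 : 0 ≤ ∑ a : V, if a ∉ xs then ∑ a' : V, if a' ∉ a :: xs then
      ∑ b : V, if b ∉ xs then ∑ b' : V, if b' ∉ b :: xs then
        Q (cod2 A xs a a') (cod2 A xs b b') else 0 else 0 else 0 else 0 := by
    have h := psd_finset (Finset.univ.filter fun p : V × V => p.1 ∉ xs ∧ p.2 ∉ p.1 :: xs)
      (fun p => cod2 A xs p.1 p.2) Q hpsd
    rw [Finset.sum_filter] at h
    simp only [Finset.sum_filter, Fintype.sum_prod_type] at h
    convert h using 2 with a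
    rename_i a ha
    by_cases hx : a ∈ xs
    · simp [hx]
    · simp only [hx, not_false_eq_true, if_true, true_and]
      apply Finset.sum_congr rfl
      intro a' _
      by_cases hy : a' ∈ a :: xs
      · simp [hy]
      · simp only [hy, not_false_eq_true, if_true]
        apply Finset.sum_congr rfl
        intro b _
        by_cases hb : b ∈ xs
        · simp [hb]
        · simp only [hb, not_false_eq_true, if_true, true_and]
  have h1 : (∑ a : V, if a ∉ xs then ∑ a' : V, if a' ∉ a :: xs then
      ∑ b : V, if b ∉ xs then ∑ b' : V, if b' ∉ b :: xs then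
        Q (cod2 A xs a a') (cod2 A xs b b') else 0 else 0 else 0 else 0) -
      ∑ _a : V, ∑ _a' : V, (4 * B * (Fintype.card V : ℤ)) ≤ gLeaf2 A Q xs := by
    have hn : (0 : ℤ) ≤ (Fintype.card V : ℤ) := Int.natCast_nonneg _
    have hBn : 0 ≤ 4 * B * (Fintype.card V : ℤ) := by positivity
    rw [← Finset.sum_sub_distrib]
    apply Finset.sum_le_sum
    intro a _
    by_cases ha : a ∈ xs
    · simp only [ha, not_true_eq_false, if_false, zero_sub, Finset.sum_const, Finset.card_univ,
        nsmul_eq_mul]
      nlinarith [mul_nonneg hn hBn]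
    · simp only [ha, not_false_eq_true, if_true]
      rw [← Finset.sum_sub_distrib]
      apply Finset.sum_le_sum
      intro a' _
      by_cases ha' : a' ∈ a :: xs
      · simp only [ha', not_true_eq_false, if_false, zero_sub]
        linarith
      · simp only [ha', not_false_eq_true, if_true]
        have hs : ∑ b : V, ∑ b' : V, (((if b = a then B else 0) + (if b = a' then B else 0)) +
            ((if b' = a then B else 0) + (if b' = a' then B else 0))) =
            4 * B * (Fintype.card V : ℤ) := by
          simp only [Finset.sum_add_distrib, Finset.sum_const, Finset.card_univ, nsmul_eq_mul,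
            Finset.sum_ite_eq', Finset.mem_univ, if_true, mul_ite, mul_zero]
          ring
        rw [← hs, ← Finset.sum_sub_distrib]
        apply Finset.sum_le_sum
        intro b _
        have e1 : (if b ∉ xs then ∑ b' : V, (if b' ∉ b :: xs then
            Q (cod2 A xs a a') (cod2 A xs b b') else 0) else 0) =
            ∑ b' : V, (if b ∉ xs then (if b' ∉ b :: xs then
              Q (cod2 A xs a a') (cod2 A xs b b') else 0) else 0) := by
          split_ifs <;> simp
        have e2 : (if b ∉ a' :: a :: xs then ∑ b' : V, (if b' ∉ b :: a' :: a :: xs then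
            Q (cod2 A xs a a') (cod2 A xs b b') else 0) else 0) =
            ∑ b' : V, (if b ∉ a' :: a :: xs then (if b' ∉ b :: a' :: a :: xs then
              Q (cod2 A xs a a') (cod2 A xs b b') else 0) else 0) := by
          split_ifs <;> simp
        rw [e1, e2, ← Finset.sum_sub_distrib]
        apply Finset.sum_le_sum
        intro b' _
        exact term2 xs a a' b b' _ B hB (hQ _ _)
  simp only [Finset.sum_const, Finset.card_univ, nsmul_eq_mul] at h1
  have e : (Fintype.card V : ℤ) * ((Fintype.card V : ℤ) * (4 * B * (Fintype.card V : ℤ))) =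
      4 * B * (Fintype.card V : ℤ) ^ 3 := by ring
  rw [e] at h1
  linarith

theorem pos2 {V : Type} [Fintype V] [DecidableEq V] (A : V → V → Bool) (cs : List (List Bool))
    (Q : ℕ → ℕ → ℤ) (B : ℤ) (hB : 0 ≤ B) (hQ : ∀ i j, |Q i j| ≤ B) (hpsd : PSDf Q) :
    -(4 * B * (Fintype.card V : ℤ) ^ (cs.length + 3)) ≤ gWalk A cs [] (gLeaf2 A Q) := by
  have h := gWalk_lower A (gLeaf2 A Q) (4 * B * (Fintype.card V : ℤ) ^ 3) (by positivity)
    (leaf2_lower A Q B hB hQ hpsd) cs []
  rw [pow_add]
  linarith [h]

end Pool.Agent.Helper59.TD
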