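import Pool.Agent.Helper59.TD.Walk

/-!
# Piece HDT-7: soundness of the computed evaluation

`rootWalk`, `leaf1`, `leaf2`, `leafT` compute the sums of `Gen.lean` over `V = Fin N`, the values
of `qf` being taken modulo `2 ^ 192` (`sgn x ≡ x` for `x < 2 ^ 192`, and
`fld 192 qt i < 2 ^ 192`).  Lists of natural numbers correspond to lists of `Fin N` by
`List.map Fin.val`; `nin xs a = decide (a ∉ xs)`.
The second part: bounds for the sums over `Fin N` (or any `V`).
-/

namespace Pool.Agent.Helper59.TD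

theorem sum7_eq (g : ℕ → ℕ) : sum7 g = ∑ v : Fin 7, g v := by
  rw [Fin.sum_univ_seven]
  change g 0 + (g 1 + (g 2 + (g 3 + (g 4 + (g 5 + g 6))))) = g 0 + g 1 + g 2 + g 3 + g 4 + g 5 + g 6
  omega

theorem sum5_eq (g : ℕ → ℕ) : sum5 g = ∑ v : Fin 5, g v := by
  rw [Fin.sum_univ_five]
  change g 0 + (g 1 + (g 2 + (g 3 + g 4))) = g 0 + g 1 + g 2 + g 3 + g 4
  omega

private lemma okc_val (N T : ℕ) (c : List Bool) (xs : List (Fin N)) (v : Fin N) :
    okc (fun i j : Fin N => ad T i j) c xs v = okc (ad T) c (xs.map Fin.val) v := by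
  induction c generalizing xs with
  | nil => simp [okc]
  | cons b bs ih =>
    cases xs with
    | nil => simp [okc]
    | cons x xs => simp only [okc, List.map_cons, ih]

private lemma cod_val (N T : ℕ) (xs : List (Fin N)) (v : Fin N) :
    cod (fun i j : Fin N => ad T i j) xs v = cod (ad T) (xs.map Fin.val) v := by
  induction xs with
  | nil => simp [cod]
  | cons x xs ih => simp only [cod, List.map_cons, ih]

private lemma cod2_val (N T : ℕ) (xs : List (Fin N)) (a a' : Fin N) :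
    cod2 (fun i j : Fin N => ad T i j) xs a a' = cod2 (ad T) (xs.map Fin.val) a a' := by
  simp only [cod2, cod_val]

private lemma cyc2_val (N T : ℕ) (a b : Fin N) (xs : List (Fin N)) :
    cyc2 (fun i j : Fin N => ad T i j) a b xs = cyc2 (ad T) a b (xs.map Fin.val) := by
  induction xs with
  | nil => simp [cyc2]
  | cons x xs ih => simp only [cyc2, List.map_cons, ih]

private lemma nin_val (N : ℕ) (xs : List (Fin N)) (a : Fin N) :
    nin (xs.map Fin.val) a = decide (a ∉ xs) := by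
  induction xs with
  | nil => simp [nin]
  | cons x xs ih =>
    simp only [nin, List.map_cons, ih, List.mem_cons, not_or]
    by_cases h : a = x
    · subst h
      simp
    · have h' : Nat.beq x.val a.val = false := by
        rw [Bool.eq_false_iff]
        intro h2
        exact h (Fin.ext (Nat.eq_of_beq_eq_true h2)).symm
      simp [h', h]

private lemma modEq_sum {ι : Type} (s : Finset ι) (f g : ι → ℤ) (M : ℤ)
    (h : ∀ i ∈ s, f i ≡ g i [ZMOD M]) : ∑ i ∈ s, f i ≡ ∑ i ∈ s, g i [ZMOD M] := by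
  rw [Int.modEq_iff_dvd, ← Finset.sum_sub_distrib]
  exact Finset.dvd_sum fun i hi => (Int.modEq_iff_dvd.1 (h i hi))

private lemma walk_gen (N : ℕ) (S : (ℕ → ℕ) → ℕ) (hS : ∀ g : ℕ → ℕ, S g = ∑ v : Fin N, g v)
    (T : ℕ) (M : ℤ) (k : List ℕ → ℕ) (k' : List (Fin N) → ℤ)
    (hk : ∀ xs : List (Fin N), (k (xs.map Fin.val) : ℤ) ≡ k' xs [ZMOD M])
    (cs : List (List Bool)) (xs : List (Fin N)) :
    ((rootWalk S (ad T) cs (xs.map Fin.val) k : ℕ) : ℤ) ≡
      gWalk (fun i j : Fin N => ad T i j) cs xs k' [ZMOD M] := by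
  induction cs generalizing xs with
  | nil => exact hk xs
  | cons c cs ih =>
    simp only [rootWalk, gWalk]
    rw [hS, Nat.cast_sum]
    refine modEq_sum _ _ _ _ fun v _ => ?_
    rw [okc_val]
    cases okc (ad T) c (xs.map Fin.val) v with
    | false => simp
    | true => simpa using ih (v :: xs)

private lemma sum_gen (N : ℕ) (S : (ℕ → ℕ) → ℕ) (hS : ∀ g : ℕ → ℕ, S g = ∑ v : Fin N, g v)
    (M : ℤ) (xs : List (Fin N)) (f : ℕ → ℕ) (g : Fin N → ℤ)
    (h : ∀ a : Fin N, (f a : ℤ) ≡ g a [ZMOD M]) :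
    ((S fun a => cond (nin (xs.map Fin.val) a) (f a) 0 : ℕ) : ℤ) ≡
      ∑ a : Fin N, if a ∉ xs then g a else 0 [ZMOD M] := by
  rw [hS, Nat.cast_sum]
  refine modEq_sum _ _ _ _ fun v _ => ?_
  rw [nin_val]
  by_cases hv : v ∈ xs
  · simp [hv]
  · simpa [hv] using h v

private lemma rec_eq (X : ℕ → ℕ) (n : ℕ) :
    (Nat.rec 0 (fun i _ => X i) n : ℕ) = if n = 0 then 0 else X (n - 1) := by
  cases n <;> simp

private lemma fld_lt (w tab i : ℕ) : fld w tab i < 2 ^ w := by
  have h : 0 < 2 ^ w := Nat.two_pow_pos w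
  have := Nat.and_le_right (n := Nat.shiftRight tab (Nat.mul w i)) (m := 2 ^ w - 1)
  change Nat.land (Nat.shiftRight tab (Nat.mul w i)) (2 ^ w - 1) < 2 ^ w
  refine lt_of_le_of_lt this ?_
  omega

private lemma sgn_modEq (x : ℕ) (hx : x < 2 ^ 192) : (x : ℤ) ≡ sgn x [ZMOD 2 ^ 192] := by
  unfold sgn
  cases Nat.ble (Nat.pow 2 191) x with
  | false => exact Int.ModEq.refl _
  | true =>
    change (x : ℤ) ≡ Int.negOfNat (2 ^ 192 - x) [ZMOD 2 ^ 192]
    rw [Int.negOfNat_eq, Int.modEq_iff_dvd]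
    refine ⟨-1, ?_⟩
    have : ((2 ^ 192 - x : ℕ) : ℤ) = 2 ^ 192 - (x : ℤ) := by
      rw [Nat.cast_sub hx.le]; norm_cast
    change -((2 ^ 192 - x : ℕ) : ℤ) - (x : ℤ) = 2 ^ 192 * -1
    rw [this]; ring

private lemma leaf_core (idt m qt c : ℕ) (F : (ℕ → ℕ) → ℕ)
    (G : (ℕ → ℤ) → ℤ) (hF : ∀ (f : ℕ → ℕ) (g : ℕ → ℤ),
      (∀ c', (f c' : ℤ) ≡ g c' [ZMOD 2 ^ 192]) → (F f : ℤ) ≡ G g [ZMOD 2 ^ 192])
    (hG : G (fun _ => 0) = 0) :
    ((Nat.rec 0 (fun i _ => F fun c' =>
      (Nat.rec 0 (fun j _ => fld 192 qt (Nat.add (Nat.mul i m) j)) (fld 6 idt c') : ℕ))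
      (fld 6 idt c) : ℕ) : ℤ) ≡ G fun c' => qf idt m qt c c' [ZMOD 2 ^ 192] := by
  rw [rec_eq (fun i => F fun c' =>
      (Nat.rec 0 (fun j _ => fld 192 qt (Nat.add (Nat.mul i m) j)) (fld 6 idt c') : ℕ))]
  by_cases h : fld 6 idt c = 0
  · have : (fun c' => qf idt m qt c c') = fun _ => 0 := by
      funext c'; simp [qf, h]
    rw [this, hG, if_pos h]
    simp
  · rw [if_neg h]
    apply hF
    intro c'
    rw [rec_eq]
    unfold qf
    rw [if_neg h]
    by_cases h' : fld 6 idt c' = 0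
    · rw [if_pos h', if_pos h']; simp
    · rw [if_neg h', if_neg h']
      exact sgn_modEq _ (fld_lt _ _ _)

theorem walk1_sound (N : ℕ) (S : (ℕ → ℕ) → ℕ) (hS : ∀ g : ℕ → ℕ, S g = ∑ v : Fin N, g v)
    (T : ℕ) (cs : List (List Bool)) (idt m qt : ℕ) :
    ((rootWalk S (ad T) cs [] (leaf1 S (ad T) idt m qt) : ℕ) : ℤ) ≡
      gWalk (fun i j : Fin N => ad T i j) cs []
        (gLeaf1 (fun i j : Fin N => ad T i j) (qf idt m qt)) [ZMOD 2 ^ 192] := by
  refine walk_gen N S hS T _ _ _ (fun xs => ?_) cs []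
  unfold leaf1 gLeaf1
  refine sum_gen N S hS _ xs _ _ fun a => ?_
  rw [cod_val]
  refine leaf_core idt m qt (cod (ad T) (xs.map Fin.val) a)
    (fun f => S fun b => cond (nin (a :: xs.map Fin.val) b) (f (cod (ad T) (xs.map Fin.val) b)) 0)
    (fun g => ∑ b : Fin N, if b ∉ a :: xs then
      g (cod (fun i j : Fin N => ad T i j) xs b) else 0) ?_ ?_
  · intro f g hfg
    refine sum_gen N S hS _ (a :: xs) _ _ fun b => ?_
    rw [cod_val]
    exact hfg _
  · simp

theorem walk2_sound (N : ℕ) (S : (ℕ → ℕ) → ℕ) (hS : ∀ g : ℕ → ℕ, S g = ∑ v : Fin N, g v)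
    (T : ℕ) (cs : List (List Bool)) (idt m qt : ℕ) :
    ((rootWalk S (ad T) cs [] (leaf2 S (ad T) idt m qt) : ℕ) : ℤ) ≡
      gWalk (fun i j : Fin N => ad T i j) cs []
        (gLeaf2 (fun i j : Fin N => ad T i j) (qf idt m qt)) [ZMOD 2 ^ 192] := by
  refine walk_gen N S hS T _ _ _ (fun xs => ?_) cs []
  unfold leaf2 gLeaf2
  refine sum_gen N S hS _ xs _ _ fun a => ?_
  refine sum_gen N S hS _ (a :: xs) (fun a' => _) _ fun a' => ?_
  rw [cod2_val]
  refine leaf_core idt m qt (cod2 (ad T) (xs.map Fin.val) a a')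
    (fun f => S fun b => cond (nin (a' :: a :: xs.map Fin.val) b) (S fun b' =>
      cond (nin (b :: a' :: a :: xs.map Fin.val) b')
        (f (cod2 (ad T) (xs.map Fin.val) b b')) 0) 0)
    (fun g => ∑ b : Fin N, if b ∉ a' :: a :: xs then
      ∑ b' : Fin N, if b' ∉ b :: a' :: a :: xs then
      g (cod2 (fun i j : Fin N => ad T i j) xs b b') else 0 else 0) ?_ ?_
  · intro f g hfg
    refine sum_gen N S hS _ (a' :: a :: xs) (fun b => _) _ fun b => ?_
    refine sum_gen N S hS _ (b :: a' :: a :: xs) (fun b' => _) _ fun b' => ?_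
    rw [cod2_val]
    exact hfg _
  · simp

theorem walkT_sound (N : ℕ) (S : (ℕ → ℕ) → ℕ) (hS : ∀ g : ℕ → ℕ, S g = ∑ v : Fin N, g v)
    (T : ℕ) (cs : List (List Bool)) :
    ((rootWalk S (ad T) cs [] (leafT S (ad T)) : ℕ) : ℤ) =
      gWalk (fun i j : Fin N => ad T i j) cs []
        (gLeafT (fun i j : Fin N => ad T i j)) := by
  have h := walk_gen N S hS T 0 (leafT S (ad T)) (gLeafT (fun i j : Fin N => ad T i j)) ?_ cs []
  · have h1 := h
    rw [Int.ModEq, Int.emod_zero, Int.emod_zero] at h1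
    exact h1
  intro xs
  unfold leafT gLeafT
  refine sum_gen N S hS _ xs _ _ fun a => ?_
  refine sum_gen N S hS _ xs (fun b => _) _ fun b => ?_
  by_cases hab : ad T a b = true
  · simp [hab, cyc2_val]
  · rw [Bool.not_eq_true] at hab
    simp [hab]

theorem walkConst_sound (N : ℕ) (S : (ℕ → ℕ) → ℕ) (hS : ∀ g : ℕ → ℕ, S g = ∑ v : Fin N, g v)
    (T : ℕ) (cs : List (List Bool)) :
    ((rootWalk S (ad T) cs [] (fun _ => 1) : ℕ) : ℤ) =
      gWalk (fun i j : Fin N => ad T i j) cs [] (fun _ => 1) := by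
  have h := walk_gen N S hS T 0 (fun _ => 1) (fun _ => 1) (fun _ => by simp) cs []
  rw [Int.ModEq, Int.emod_zero, Int.emod_zero] at h
  exact h

section

variable {V : Type} [Fintype V] [DecidableEq V]

omit [DecidableEq V] in
private lemma abs_sum_le (f : V → ℤ) (C : ℤ) (h : ∀ v, |f v| ≤ C) :
    |∑ v, f v| ≤ C * (Fintype.card V : ℤ) := by
  refine (Finset.abs_sum_le_sum_abs _ _).trans ?_
  refine (Finset.sum_le_card_nsmul _ _ C fun v _ => h v).trans ?_
  rw [Finset.card_univ, nsmul_eq_mul, mul_comm]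

private lemma abs_ite_le (p : Prop) [Decidable p] (x C : ℤ) (hC : 0 ≤ C) (h : |x| ≤ C) :
    |if p then x else 0| ≤ C := by
  split
  · exact h
  · simpa using hC

omit [DecidableEq V] in
private lemma walk_bound (A : V → V → Bool) (cs : List (List Bool)) (xs : List V)
    (k : List V → ℤ) (C : ℤ) (hC : 0 ≤ C)
    (hk : ∀ ys : List V, ys.length = cs.length + xs.length → |k ys| ≤ C) :
    |gWalk A cs xs k| ≤ C * (Fintype.card V : ℤ) ^ cs.length := by
  induction cs generalizing xs with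
  | nil => simpa [gWalk] using hk xs (by simp)
  | cons c cs ih =>
    have h : ∀ v : V, |if okc A c xs v = true then gWalk A cs (v :: xs) k else 0| ≤
        C * (Fintype.card V : ℤ) ^ cs.length := fun v => by
      refine abs_ite_le _ _ _ (by positivity) (ih (v :: xs) fun ys hys => hk ys ?_)
      simp only [List.length_cons] at hys ⊢
      omega
    simp only [gWalk, List.length_cons]
    refine (abs_sum_le _ _ h).trans (le_of_eq ?_)
    ring

theorem bound1 (A : V → V → Bool) (cs : List (List Bool)) (Q : ℕ → ℕ → ℤ) (B : ℤ)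
    (hB : 0 ≤ B) (hQ : ∀ i j, |Q i j| ≤ B) :
    |gWalk A cs [] (gLeaf1 A Q)| ≤ B * (Fintype.card V : ℤ) ^ (cs.length + 2) := by
  have hk : ∀ ys : List V, |gLeaf1 A Q ys| ≤ B * (Fintype.card V : ℤ) * (Fintype.card V : ℤ) := by
    intro ys
    unfold gLeaf1
    refine abs_sum_le _ _ fun a => abs_ite_le _ _ _ (by positivity) ?_
    refine abs_sum_le _ _ fun b => abs_ite_le _ _ _ hB (hQ _ _)
  refine (walk_bound A cs [] _ _ (by positivity) fun ys _ => hk ys).trans (le_of_eq ?_)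
  ring

theorem bound2 (A : V → V → Bool) (cs : List (List Bool)) (Q : ℕ → ℕ → ℤ) (B : ℤ)
    (hB : 0 ≤ B) (hQ : ∀ i j, |Q i j| ≤ B) :
    |gWalk A cs [] (gLeaf2 A Q)| ≤ B * (Fintype.card V : ℤ) ^ (cs.length + 4) := by
  have hk : ∀ ys : List V, |gLeaf2 A Q ys| ≤ B * (Fintype.card V : ℤ) * (Fintype.card V : ℤ) *
      (Fintype.card V : ℤ) * (Fintype.card V : ℤ) := by
    intro ys
    unfold gLeaf2
    refine abs_sum_le _ _ fun a => abs_ite_le _ _ _ (by positivity) ?_
    refine abs_sum_le _ _ fun a' => abs_ite_le _ _ _ (by positivity) ?_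
    refine abs_sum_le _ _ fun b => abs_ite_le _ _ _ (by positivity) ?_
    refine abs_sum_le _ _ fun b' => abs_ite_le _ _ _ hB (hQ _ _)
  refine (walk_bound A cs [] _ _ (by positivity) fun ys _ => hk ys).trans (le_of_eq ?_)
  ring

omit [Fintype V] [DecidableEq V] in
private lemma cyc2_le (A : V → V → Bool) (a b : V) (xs : List V) :
    cyc2 A a b xs ≤ xs.length := by
  induction xs with
  | nil => simp [cyc2]
  | cons x xs ih =>
    have h : cond (A x a) (cond (A b x) 1 0) 0 ≤ 1 := by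
      cases A x a <;> cases A b x <;> simp
    change cond (A x a) (cond (A b x) 1 0) 0 + cyc2 A a b xs ≤ xs.length + 1
    omega

theorem boundT (A : V → V → Bool) (cs : List (List Bool)) :
    |gWalk A cs [] (gLeafT A)| ≤ cs.length * (Fintype.card V : ℤ) ^ (cs.length + 2) := by
  have hk : ∀ ys : List V, ys.length = cs.length + ([] : List V).length →
      |gLeafT A ys| ≤ (cs.length : ℤ) * (Fintype.card V : ℤ) * (Fintype.card V : ℤ) := by
    intro ys hys
    unfold gLeafT
    refine abs_sum_le _ _ fun a => abs_ite_le _ _ _ (by positivity) ?_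
    refine abs_sum_le _ _ fun b => abs_ite_le _ _ _ (by positivity) ?_
    refine abs_ite_le _ _ _ (by positivity) ?_
    rw [abs_of_nonneg (by positivity)]
    have := cyc2_le A a b ys
    simp only [List.length_nil, add_zero] at hys
    rw [hys] at this
    exact_mod_cast this
  refine (walk_bound A cs [] _ _ (by positivity) hk).trans (le_of_eq ?_)
  ring

theorem boundConst (A : V → V → Bool) (cs : List (List Bool)) :
    |gWalk A cs [] (fun _ => 1)| ≤ (Fintype.card V : ℤ) ^ cs.length := by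
  refine (walk_bound A cs [] _ 1 (by norm_num) fun ys _ => by simp).trans (le_of_eq ?_)
  ring

end

end Pool.Agent.Helper59.TD
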