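import Pool.Agent.Helper59.TD.Gen

/-!
# Piece HDT-6: transfer of identities from `N` vertices to all tournaments

`Loc.zero`: with `F V A = ∑ ψ : Fin N ↪ V, t (A ∘ ψ)` one has
`N! * F V A = ∑ π : Fin N ↪ Fin N, ∑ ψ : Fin N ↪ V, t (A ∘ ψ ∘ π)` (for fixed `π`, a bijection,
`ψ ↦ ψ ∘ π` permutes the embeddings) `= ∑ ψ, F (Fin N) (A ∘ ψ) = 0`.
`Loc.equiv`: reindex the embeddings by `ψ ↦ ψ.trans e`.
-/

namespace Pool.Agent.Helper59.TD

private theorem hdt6_reindex {N : ℕ} (V : Type) [Fintype V] [DecidableEq V]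
    (f : (Fin N → V) → ℤ) (π : Fin N ↪ Fin N) :
    ∑ ψ : Fin N ↪ V, f (fun i => ψ (π i)) = ∑ ψ : Fin N ↪ V, f (fun i => ψ i) := by
  have hb : Function.Bijective π := Finite.injective_iff_bijective.1 π.injective
  let e : Fin N ≃ Fin N := Equiv.ofBijective π hb
  refine Fintype.sum_equiv (Equiv.embeddingCongr e.symm (Equiv.refl V)) _ _ ?_
  intro ψ
  rfl

private theorem hdt6_tour {N : ℕ} {V : Type} (A : V → V → Bool) (hA : IsTour A)
    (ψ : Fin N ↪ V) : IsTour (fun i j => A (ψ i) (ψ j)) :=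
  ⟨fun v => hA.1 (ψ v), fun _ _ h => hA.2 _ _ fun h' => h (ψ.injective h')⟩

theorem Loc.zero {N : ℕ} {F : ∀ (V : Type) [Fintype V] [DecidableEq V], (V → V → Bool) → ℤ}
    (hF : Loc N F) (h0 : ∀ A : Fin N → Fin N → Bool, IsTour A → F (Fin N) A = 0)
    (V : Type) [Fintype V] [DecidableEq V] (A : V → V → Bool) (hA : IsTour A) : F V A = 0 := by
  obtain ⟨t, ht⟩ := hF
  have h1 : ∑ π : Fin N ↪ Fin N, ∑ ψ : Fin N ↪ V, t (fun i j => A (ψ (π i)) (ψ (π j))) =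
      (Fintype.card (Fin N ↪ Fin N) : ℤ) * F V A := by
    have h2 : ∀ π : Fin N ↪ Fin N,
        ∑ ψ : Fin N ↪ V, t (fun i j => A (ψ (π i)) (ψ (π j))) = F V A := by
      intro π
      rw [ht V A hA]
      exact hdt6_reindex V (fun g => t (fun i j => A (g i) (g j))) π
    rw [Finset.sum_congr rfl fun π _ => h2 π]
    simp
  have h3 : ∑ π : Fin N ↪ Fin N, ∑ ψ : Fin N ↪ V, t (fun i j => A (ψ (π i)) (ψ (π j))) = 0 := by
    rw [Finset.sum_comm]
    refine Finset.sum_eq_zero fun ψ _ => ?_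
    have h4 := h0 (fun i j => A (ψ i) (ψ j)) (hdt6_tour A hA ψ)
    rw [ht (Fin N) _ (hdt6_tour A hA ψ)] at h4
    exact h4
  rw [h3] at h1
  have hc : (Fintype.card (Fin N ↪ Fin N) : ℤ) ≠ 0 := by
    have : 0 < Fintype.card (Fin N ↪ Fin N) :=
      Fintype.card_pos_iff.2 ⟨Function.Embedding.refl _⟩
    exact_mod_cast this.ne'
  rcases mul_eq_zero.1 h1.symm with h | h
  · exact absurd h hc
  · exact h

theorem Loc.equiv {N : ℕ} {F : ∀ (V : Type) [Fintype V] [DecidableEq V], (V → V → Bool) → ℤ}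
    (hF : Loc N F) (V W : Type) [Fintype V] [DecidableEq V] [Fintype W] [DecidableEq W]
    (e : V ≃ W) (A : W → W → Bool) (hA : IsTour A) :
    F V (fun i j => A (e i) (e j)) = F W A := by
  obtain ⟨t, ht⟩ := hF
  have hA' : IsTour (fun i j => A (e i) (e j)) :=
    ⟨fun v => hA.1 (e v), fun _ _ h => hA.2 _ _ fun h' => h (e.injective h')⟩
  rw [ht V _ hA', ht W A hA]
  refine Fintype.sum_equiv (Equiv.embeddingCongr (Equiv.refl (Fin N)) e) _ _ ?_
  intro ψ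
  rfl

theorem Loc.add {N : ℕ} {F F' : ∀ (V : Type) [Fintype V] [DecidableEq V], (V → V → Bool) → ℤ}
    (hF : Loc N F) (hF' : Loc N F') : Loc N (fun V _ _ A => F V A + F' V A) := by
  obtain ⟨t, ht⟩ := hF
  obtain ⟨t', ht'⟩ := hF'
  refine ⟨fun a => t a + t' a, fun V _ _ A hA => ?_⟩
  rw [Finset.sum_add_distrib, ← ht V A hA, ← ht' V A hA]

theorem Loc.smul {N : ℕ} (c : ℤ)
    {F : ∀ (V : Type) [Fintype V] [DecidableEq V], (V → V → Bool) → ℤ}
    (hF : Loc N F) : Loc N (fun V _ _ A => c * F V A) := by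
  obtain ⟨t, ht⟩ := hF
  refine ⟨fun a => c * t a, fun V _ _ A hA => ?_⟩
  rw [← Finset.mul_sum, ← ht V A hA]

theorem locDesc (N : ℕ) :
    Loc N (fun V _ _ _ => ((Fintype.card V).descFactorial N : ℤ)) := by
  refine ⟨fun _ => 1, fun V _ _ A _ => ?_⟩
  simp [Fintype.card_embedding_eq]

end Pool.Agent.Helper59.TD
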