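import Pool.Agent.Helper59.TD.Defs

/-!
# Piece HDT-1: densities and labelled copies

`cnt H G = autCard H * (number of vertex sets S with InducesOn H G S)`: the embeddings with a
given range `S` are `φ₀ ∘ σ` with `σ` an automorphism of `H`; and
`n.choose h * h! = n.descFactorial h` (`Nat.descFactorial_eq_factorial_mul_choose`).
`autCard H > 0` because of the identity.
-/

namespace Pool.Agent.Helper59.TD

open Finset

theorem fiber_card {h n : ℕ} (H : Tour h) (G : Tour n) (S : Finset (Fin n))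
    (hS : InducesOn H G S) :
    ((univ.filter fun φ : Fin h ↪ Fin n => ∀ i j, G.adj (φ i) (φ j) = H.adj i j).filter
      (fun φ => univ.map φ = S)).card = autCard H := by
  classical
  obtain ⟨φ₀, h1, h2⟩ := hS
  unfold autCard
  rw [Fintype.card_subtype]
  symm
  apply Finset.card_bij (fun (σ : Equiv.Perm (Fin h)) _ => σ.toEmbedding.trans φ₀)
  · intro σ hσ
    have hσ' : ∀ i j, H.adj (σ i) (σ j) = H.adj i j := by simpa using hσ
    refine mem_filter.2 ⟨mem_filter.2 ⟨mem_univ _, ?_⟩, ?_⟩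
    · intro i j
      change G.adj (φ₀ (σ i)) (φ₀ (σ j)) = _
      rw [h2, hσ']
    · rw [← h1, ← Finset.map_map, Finset.map_univ_equiv]
  · intro σ _ τ _ heq
    ext1 i
    have := DFunLike.congr_fun heq i
    exact φ₀.injective this
  · intro φ hφ
    obtain ⟨hφ1, hφ2⟩ := mem_filter.1 hφ
    have hφ3 : ∀ i j, G.adj (φ i) (φ j) = H.adj i j := (mem_filter.1 hφ1).2
    have hex : ∀ i, ∃ k, φ₀ k = φ i := by
      intro i
      have : φ i ∈ univ.map φ₀ := by
        rw [h1, ← hφ2]
        exact mem_map_of_mem _ (mem_univ _)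
      obtain ⟨k, _, hk⟩ := mem_map.1 this
      exact ⟨k, hk⟩
    choose f hf using hex
    have hinj : Function.Injective f := by
      intro a b hab
      apply φ.injective
      rw [← hf a, ← hf b, hab]
    refine ⟨Equiv.ofBijective f (Finite.injective_iff_bijective.1 hinj), ?_, ?_⟩
    · refine mem_filter.2 ⟨mem_univ _, ?_⟩
      intro i j
      change H.adj (f i) (f j) = H.adj i j
      rw [← h2, hf, hf, hφ3]
    · ext1 i
      exact hf i

theorem cnt_eq {h n : ℕ} (H : Tour h) (G : Tour n) :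
    cnt H G = autCard H *
      (by classical exact (((univ : Finset (Fin n)).powersetCard h).filter (InducesOn H G)).card) := by
  classical
  unfold cnt
  rw [Finset.card_eq_sum_card_fiberwise (f := fun φ : Fin h ↪ Fin n => univ.map φ)
    (t := ((univ : Finset (Fin n)).powersetCard h).filter (InducesOn H G))]
  · rw [Finset.sum_congr rfl (fun S hS => fiber_card H G S (mem_filter.1 hS).2)]
    rw [Finset.sum_const, smul_eq_mul, mul_comm]
  · intro φ hφ
    have hφ3 : ∀ i j, G.adj (φ i) (φ j) = H.adj i j := by simpa using hφ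
    have : univ.map φ ∈ ((univ : Finset (Fin n)).powersetCard h).filter (InducesOn H G) := by
      refine mem_filter.2 ⟨mem_powersetCard.2 ⟨subset_univ _, by simp⟩, φ, rfl, hφ3⟩
    exact this

theorem autCard_pos {h : ℕ} (H : Tour h) : 0 < autCard H := by
  unfold autCard
  rw [Fintype.card_pos_iff]
  exact ⟨⟨1, fun _ _ => rfl⟩⟩

theorem dens_iff {h n : ℕ} (H : Tour h) (G : Tour n) (hn : h ≤ n) (c : ℝ) :
    c * rnd H ≤ dens H G ↔
      c * (n.descFactorial h : ℝ) ≤ 2 ^ (h.choose 2) * (cnt H G : ℝ) := by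
  classical
  have ha : (0 : ℝ) < autCard H := by exact_mod_cast autCard_pos H
  have hc : (0 : ℝ) < n.choose h := by exact_mod_cast Nat.choose_pos hn
  have h2 : (0 : ℝ) < 2 ^ (h.choose 2) := by positivity
  have hcnt := cnt_eq H G
  unfold dens rnd
  rw [hcnt, Nat.descFactorial_eq_factorial_mul_choose]
  push_cast
  rw [le_div_iff₀ hc]
  rw [show c * ((h.factorial : ℝ) / 2 ^ (h.choose 2) / (autCard H : ℝ)) * (n.choose h : ℝ) =
    (c * ((h.factorial : ℝ) * (n.choose h : ℝ))) / (2 ^ (h.choose 2) * (autCard H : ℝ)) by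
      field_simp]
  rw [div_le_iff₀ (by positivity)]
  rw [show ((((univ : Finset (Fin n)).powersetCard h).filter (InducesOn H G)).card : ℝ) *
    (2 ^ (h.choose 2) * (autCard H : ℝ)) = 2 ^ (h.choose 2) * ((autCard H : ℝ) *
    ((((univ : Finset (Fin n)).powersetCard h).filter (InducesOn H G)).card : ℝ)) by ring]

theorem cnt_iso {h n : ℕ} {H H' : Tour h} (e : H.Iso H') (G : Tour n) :
    cnt H G = cnt H' G := by
  classical
  obtain ⟨σ, hσ⟩ := e
  unfold cnt
  apply Finset.card_bij (fun (φ : Fin h ↪ Fin n) _ => σ.toEmbedding.trans φ)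
  · intro φ hφ
    have hφ3 : ∀ i j, G.adj (φ i) (φ j) = H.adj i j := by simpa using hφ
    refine mem_filter.2 ⟨mem_univ _, ?_⟩
    intro i j
    change G.adj (φ (σ i)) (φ (σ j)) = _
    rw [hφ3, hσ]
  · intro φ _ ψ _ heq
    ext1 i
    have := DFunLike.congr_fun heq (σ⁻¹ i)
    change φ (σ (σ⁻¹ i)) = ψ (σ (σ⁻¹ i)) at this
    simpa using this
  · intro ψ hψ
    have hψ3 : ∀ i j, G.adj (ψ i) (ψ j) = H'.adj i j := by simpa using hψ
    refine ⟨(σ⁻¹).toEmbedding.trans ψ, ?_, ?_⟩
    · refine mem_filter.2 ⟨mem_univ _, ?_⟩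
      intro i j
      change G.adj (ψ (σ⁻¹ i)) (ψ (σ⁻¹ j)) = _
      rw [hψ3, ← hσ]
      simp
    · ext1 i
      change ψ (σ⁻¹ (σ i)) = ψ i
      simp

end Pool.Agent.Helper59.TD
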