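import Pool.Agent.Helper59.TD.Gen

/-!
# Piece HDT-5: the nested sums are sums over embeddings

`wf cs` says that the `i`-th list prescribes the arcs to all `i` earlier roots, so `okc` implies
that the new vertex is different from the earlier ones (`A v v = false`).  So all the nested sums
run over lists of distinct vertices `[v_{N-1}, …, v_0]` (most recent first), that is, over
embeddings `ψ : Fin N ↪ V`, `v_i = ψ i`, and the summand depends only on the values
`A (ψ i) (ψ j)`: `t T` is the summand for the list `[N-1, …, 0]` and the adjacency `T` on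
`Fin N` (naturality of `okc`, `cod`, `cod2`, `cyc2` under `List.map`).
A convenient lemma: for `F : List V → ℤ` the nested sum over `N` new vertices, each not in the
current list, starting from the list `[]`, equals `∑ ψ : Fin N ↪ V, F (List.ofFn ψ).reverse`
(induction with `Fin.consEquiv`/`Fin.snocEquiv`, on functions with the indicator of
injectivity).
-/

namespace Pool.Agent.Helper59.TD

section Nest

variable {V : Type} [Fintype V] [DecidableEq V]

/-- The nested sum over `N` new vertices, each not in the current list. -/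
def nest : ℕ → List V → (List V → ℤ) → ℤ
  | 0, xs, F => F xs
  | N + 1, xs, F => ∑ v : V, if v ∉ xs then nest N (v :: xs) F else 0

theorem nest_congr (N : ℕ) : ∀ (ys : List V) (F F' : List V → ℤ),
    (∀ l : List V, l.length = N → F (l ++ ys) = F' (l ++ ys)) →
    nest N ys F = nest N ys F' := by
  induction N with
  | zero =>
    intro ys F F' h
    exact h [] rfl
  | succ N ih =>
    intro ys F F' h
    simp only [nest]
    refine Finset.sum_congr rfl fun v _ => ?_
    by_cases hv : v ∉ ys
    · rw [if_pos hv, if_pos hv]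
      exact ih _ _ _ fun l hl => by
        have := h (l ++ [v]) (by simp [hl])
        simpa using this
    · rw [if_neg hv, if_neg hv]

theorem nest_zero (N : ℕ) : ∀ ys : List V, nest N ys (fun _ => (0 : ℤ)) = 0 := by
  induction N with
  | zero => intro ys; rfl
  | succ N ih =>
    intro ys
    simp only [nest, ih]
    simp

theorem nest_eq (N : ℕ) (F : List V → ℤ) : ∀ xs : List V, xs.Nodup →
    nest N xs F = ∑ f : Fin N → V,
      if ((List.ofFn f).reverse ++ xs).Nodup then F ((List.ofFn f).reverse ++ xs) else 0 := by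
  induction N with
  | zero =>
    intro xs hxs
    simp [nest, hxs]
  | succ N ih =>
    intro xs hxs
    have e : ∀ (v : V) (f : Fin N → V),
        (List.ofFn (Fin.cons v f : Fin (N + 1) → V)).reverse ++ xs
          = (List.ofFn f).reverse ++ (v :: xs) := by
      intro v f
      simp [List.ofFn_succ]
    rw [← (Fin.consEquiv (fun _ : Fin (N + 1) => V)).sum_comp]
    rw [Fintype.sum_prod_type]
    simp only [nest]
    refine Finset.sum_congr rfl fun v _ => ?_
    by_cases hv : v ∈ xs
    · rw [if_neg (by simpa using hv)]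
      symm
      apply Finset.sum_eq_zero
      intro f _
      rw [if_neg]
      intro hn
      have hn' : ((List.ofFn (Fin.cons v f : Fin (N + 1) → V)).reverse ++ xs).Nodup := hn
      rw [e v f] at hn'
      have h2 := (List.nodup_append.1 hn').2.1
      exact (List.nodup_cons.1 h2).1 hv
    · rw [if_pos hv, ih (v :: xs) (List.nodup_cons.2 ⟨hv, hxs⟩)]
      refine Finset.sum_congr rfl fun f _ => ?_
      have := e v f
      show _ = if ((List.ofFn (Fin.cons v f : Fin (N + 1) → V)).reverse ++ xs).Nodup
        then F ((List.ofFn (Fin.cons v f : Fin (N + 1) → V)).reverse ++ xs) else 0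
      rw [this]

theorem nest_nil (N : ℕ) (F : List V → ℤ) :
    nest N [] F = ∑ ψ : Fin N ↪ V, F (List.ofFn ψ).reverse := by
  rw [nest_eq N F [] List.nodup_nil]
  have h1 : ∀ f : Fin N → V,
      (if ((List.ofFn f).reverse ++ []).Nodup then F ((List.ofFn f).reverse ++ []) else 0)
        = if Function.Injective f then F (List.ofFn f).reverse else 0 := by
    intro f
    have : ((List.ofFn f).reverse ++ []).Nodup ↔ Function.Injective f := by
      rw [List.append_nil, List.nodup_reverse, List.nodup_ofFn]
    by_cases h : Function.Injective f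
    · rw [if_pos h, if_pos (this.2 h), List.append_nil]
    · rw [if_neg h, if_neg (fun hh => h (this.1 hh))]
  rw [Finset.sum_congr rfl fun f _ => h1 f, ← Finset.sum_filter]
  symm
  refine Finset.sum_bij (fun ψ _ => (ψ : Fin N → V)) ?_ ?_ ?_ ?_
  · intro ψ _
    simp [ψ.injective]
  · intro a _ b _ hab
    exact DFunLike.coe_injective hab
  · intro f hf
    exact ⟨⟨f, (Finset.mem_filter.1 hf).2⟩, Finset.mem_univ _, rfl⟩
  · intro ψ _
    rfl

end Nest

/-- Naturality under injections. -/
def Natu (G : ∀ V : Type, (V → V → Bool) → List V → ℤ) : Prop :=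
  ∀ (W V : Type) (ψ : W → V), Function.Injective ψ → ∀ (A : V → V → Bool) (xs : List W),
    G V A (xs.map ψ) = G W (fun i j => A (ψ i) (ψ j)) xs

/-- `H`, on lists of length `m`, is an `N`-fold nested sum of a natural function. -/
def Nst (m N : ℕ) (H : ∀ (V : Type) [Fintype V] [DecidableEq V], (V → V → Bool) → List V → ℤ) :
    Prop :=
  ∃ G : ∀ V : Type, (V → V → Bool) → List V → ℤ, Natu G ∧
    ∀ (V : Type) [Fintype V] [DecidableEq V] (A : V → V → Bool), IsTour A →
      ∀ xs : List V, xs.length = m → H V A xs = nest N xs (G V A)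

theorem nst_loc (N : ℕ)
    (H : ∀ (V : Type) [Fintype V] [DecidableEq V], (V → V → Bool) → List V → ℤ)
    (h : Nst 0 N H) : Loc N (fun V _ _ A => H V A []) := by
  obtain ⟨G, hG, hH⟩ := h
  refine ⟨fun T => G (Fin N) T (List.ofFn fun i : Fin N => i).reverse, ?_⟩
  intro V _ _ A hA
  show H V A [] = _
  rw [hH V A hA [] rfl, nest_nil]
  refine Finset.sum_congr rfl fun ψ _ => ?_
  show _ = G (Fin N) (fun i j => A (ψ i) (ψ j)) (List.ofFn fun i : Fin N => i).reverse
  rw [← hG (Fin N) V ψ ψ.injective A]
  congr 1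
  rw [List.map_reverse, List.map_ofFn]
  rfl

theorem nst_base (m : ℕ)
    (H : ∀ (V : Type) [Fintype V] [DecidableEq V], (V → V → Bool) → List V → ℤ)
    (G : ∀ V : Type, (V → V → Bool) → List V → ℤ) (hG : Natu G)
    (h : ∀ (V : Type) [Fintype V] [DecidableEq V] (A : V → V → Bool), IsTour A →
      ∀ xs : List V, xs.length = m → H V A xs = G V A xs) : Nst m 0 H :=
  ⟨G, hG, fun V _ _ A hA xs hxs => h V A hA xs hxs⟩

theorem nst_new (m N : ℕ)
    (H H' : ∀ (V : Type) [Fintype V] [DecidableEq V], (V → V → Bool) → List V → ℤ)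
    (h : Nst (m + 1) N H)
    (hH' : ∀ (V : Type) [Fintype V] [DecidableEq V] (A : V → V → Bool), IsTour A →
      ∀ xs : List V, xs.length = m →
        H' V A xs = ∑ v : V, if v ∉ xs then H V A (v :: xs) else 0) :
    Nst m (N + 1) H' := by
  obtain ⟨G, hG, hH⟩ := h
  refine ⟨G, hG, ?_⟩
  intro V _ _ A hA xs hxs
  rw [hH' V A hA xs hxs]
  simp only [nest]
  refine Finset.sum_congr rfl fun v _ => ?_
  by_cases hv : v ∉ xs
  · rw [if_pos hv, if_pos hv]
    exact hH V A hA (v :: xs) (by simp [hxs])
  · rw [if_neg hv, if_neg hv]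

/-! ### Naturality of the ingredients -/

theorem okc_map {W V : Type} (ψ : W → V) (A : V → V → Bool) : ∀ (c : List Bool) (xs : List W)
    (v : W), okc A c (xs.map ψ) (ψ v) = okc (fun i j => A (ψ i) (ψ j)) c xs v
  | [], xs, v => by cases xs <;> rfl
  | b :: bs, [], v => rfl
  | b :: bs, x :: xs, v => by
    simp only [List.map_cons, okc, okc_map ψ A bs xs v]

theorem cod_map {W V : Type} (ψ : W → V) (A : V → V → Bool) : ∀ (xs : List W)
    (v : W), cod A (xs.map ψ) (ψ v) = cod (fun i j => A (ψ i) (ψ j)) xs v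
  | [], v => rfl
  | x :: xs, v => by
    simp only [List.map_cons, cod, cod_map ψ A xs v]

theorem cod2_map {W V : Type} (ψ : W → V) (A : V → V → Bool) (xs : List W) (a a' : W) :
    cod2 A (xs.map ψ) (ψ a) (ψ a') = cod2 (fun i j => A (ψ i) (ψ j)) xs a a' := by
  simp only [cod2, cod_map]

theorem cyc2_map {W V : Type} (ψ : W → V) (A : V → V → Bool) (a b : W) : ∀ (xs : List W),
    cyc2 A (ψ a) (ψ b) (xs.map ψ) = cyc2 (fun i j => A (ψ i) (ψ j)) a b xs
  | [] => rfl
  | x :: xs => by
    simp only [List.map_cons, cyc2, cyc2_map ψ A a b xs]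

theorem okc_notMem {V : Type} {A : V → V → Bool} (hA : IsTour A) : ∀ (c : List Bool)
    (xs : List V) (v : V), c.length = xs.length → okc A c xs v = true → v ∉ xs
  | [], [], v, _, _ => by simp
  | [], x :: xs, v, h, _ => by simp at h
  | b :: bs, [], v, h, _ => by simp at h
  | b :: bs, x :: xs, v, h, hok => by
    simp only [okc] at hok
    rw [List.mem_cons, not_or]
    have h1 : cond b (A v x) (A x v) = true := by
      cases hc : cond b (A v x) (A x v) with
      | true => rfl
      | false => rw [hc] at hok; simp at hok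
    rw [h1] at hok
    refine ⟨?_, okc_notMem hA bs xs v (by simpa using h) hok⟩
    rintro rfl
    rw [hA.1 v] at h1
    cases b <;> simp at h1

/-- The test at the vertex number `m` of the list. -/
def tst {V : Type} (A : V → V → Bool) (c : List Bool) (m : ℕ) (zs : List V) : Bool :=
  match zs.drop (zs.length - (m + 1)) with
  | [] => false
  | v :: xs => okc A c xs v

theorem tst_map {W V : Type} (ψ : W → V) (A : V → V → Bool) (c : List Bool) (m : ℕ)
    (zs : List W) : tst A c m (zs.map ψ) = tst (fun i j => A (ψ i) (ψ j)) c m zs := by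
  unfold tst
  rw [List.length_map, ← List.map_drop]
  cases hd : zs.drop (zs.length - (m + 1)) with
  | nil => simp
  | cons v xs => simp only [List.map_cons]; exact okc_map ψ A c xs v

theorem tst_app {V : Type} (A : V → V → Bool) (c : List Bool) (l xs : List V) (v : V) :
    tst A c xs.length (l ++ v :: xs) = okc A c xs v := by
  unfold tst
  have h1 : (l ++ v :: xs).length - (xs.length + 1) = l.length := by
    simp
  rw [h1, List.drop_left]

theorem nst_step (m N : ℕ) (c : List Bool) (hc : c.length = m)
    (H H' : ∀ (V : Type) [Fintype V] [DecidableEq V], (V → V → Bool) → List V → ℤ)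
    (h : Nst (m + 1) N H)
    (hH' : ∀ (V : Type) [Fintype V] [DecidableEq V] (A : V → V → Bool), IsTour A →
      ∀ xs : List V, xs.length = m →
        H' V A xs = ∑ v : V, if okc A c xs v = true then H V A (v :: xs) else 0) :
    Nst m (N + 1) H' := by
  obtain ⟨G, hG, hH⟩ := h
  refine ⟨fun V A zs => if tst A c m zs = true then G V A zs else 0, ?_, ?_⟩
  · intro W V ψ hψ A xs
    show (if tst A c m (xs.map ψ) = true then G V A (xs.map ψ) else 0) = _
    rw [tst_map, hG W V ψ hψ A xs]
  · intro V _ _ A hA xs hxs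
    rw [hH' V A hA xs hxs]
    simp only [nest]
    refine Finset.sum_congr rfl fun v _ => ?_
    by_cases hok : okc A c xs v = true
    · have hv : v ∉ xs := okc_notMem hA c xs v (by rw [hc, hxs]) hok
      rw [if_pos hok, if_pos hv, hH V A hA (v :: xs) (by simp [hxs])]
      refine nest_congr N _ _ _ fun l _ => ?_
      have : tst A c m (l ++ v :: xs) = true := by
        rw [← hxs, tst_app]; exact hok
      rw [if_pos this]
    · rw [if_neg hok]
      by_cases hv : v ∉ xs
      · rw [if_pos hv]
        have h0 : nest N (v :: xs) (fun zs => if tst A c m zs = true then G V A zs else 0)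
            = nest N (v :: xs) (fun _ => (0 : ℤ)) := by
          refine nest_congr N _ _ _ fun l _ => ?_
          have : ¬ tst A c m (l ++ v :: xs) = true := by
            rw [← hxs, tst_app]; exact hok
          rw [if_neg this]
        rw [h0, nest_zero]
      · rw [if_neg hv]

theorem nst_walk (N : ℕ)
    (K : ∀ (V : Type) [Fintype V] [DecidableEq V], (V → V → Bool) → List V → ℤ) :
    ∀ (cs : List (List Bool)) (m : ℕ), (∀ i (h : i < cs.length), (cs[i]).length = m + i) →
      Nst (m + cs.length) N K →
      Nst m (cs.length + N) (fun V _ _ A xs => gWalk A cs xs (K V A))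
  | [], m, _, hK => by
    obtain ⟨G, hG, hH⟩ := hK
    have e : (([] : List (List Bool)).length + N) = N := by simp
    rw [e]
    exact ⟨G, hG, fun V _ _ A hA xs hxs => hH V A hA xs (by simpa using hxs)⟩
  | c :: cs, m, hcs, hK => by
    have h1 := nst_walk N K cs (m + 1)
      (fun i h => by
        have := hcs (i + 1) (by simpa using h)
        simp only [List.getElem_cons_succ] at this
        omega)
      (by
        have e : m + (c :: cs).length = m + 1 + cs.length := by
          simp only [List.length_cons]; omega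
        rw [e] at hK
        exact hK)
    have hc0 : c.length = m := by
      have := hcs 0 (by simp)
      simpa only [List.getElem_cons_zero, Nat.add_zero] using this
    have h2 := nst_step m (cs.length + N) c hc0 _
      (fun V _ _ A xs => gWalk A (c :: cs) xs (K V A)) h1
      (fun V _ _ A _ xs _ => rfl)
    have e : (c :: cs).length + N = cs.length + N + 1 := by
      simp only [List.length_cons]; omega
    rw [e]
    exact h2

theorem nst_walk0 (N : ℕ) (cs : List (List Bool)) (hcs : wf cs)
    (K : ∀ (V : Type) [Fintype V] [DecidableEq V], (V → V → Bool) → List V → ℤ)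
    (hK : Nst cs.length N K) :
    Loc (cs.length + N) (fun V _ _ A => gWalk A cs [] (K V A)) :=
  nst_loc _ _ (nst_walk N K cs 0 (fun i h => by rw [hcs i h]; omega) (by simpa using hK))

theorem locConst (cs : List (List Bool)) (hcs : wf cs) :
    Loc cs.length (fun V _ _ A => gWalk A cs [] (fun _ => 1)) :=
  nst_walk0 0 cs hcs (fun _ _ _ _ _ => 1)
    (nst_base _ _ (fun _ _ _ => 1) (fun _ _ _ _ _ _ => rfl) (fun _ _ _ _ _ _ _ => rfl))

theorem loc1 (cs : List (List Bool)) (hcs : wf cs) (Q : ℕ → ℕ → ℤ) :
    Loc (cs.length + 2) (fun V _ _ A => gWalk A cs [] (gLeaf1 A Q)) := by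
  refine nst_walk0 2 cs hcs (fun V _ _ A xs => gLeaf1 A Q xs) ?_
  let H0 : ∀ (V : Type), (V → V → Bool) → List V → ℤ := fun _ A zs =>
    match zs with
    | b :: a :: xs => Q (cod A xs a) (cod A xs b)
    | _ => 0
  have h0 : Nst (cs.length + 1 + 1) 0 (fun V _ _ A xs => H0 V A xs) := by
    refine nst_base _ _ H0 ?_ (fun _ _ _ _ _ _ _ => rfl)
    intro W V ψ _ A xs
    match xs with
    | [] => rfl
    | [x] => rfl
    | b :: a :: xs =>
      show Q (cod A (xs.map ψ) (ψ a)) (cod A (xs.map ψ) (ψ b)) = Q _ _
      rw [cod_map, cod_map]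
  have h1 := nst_new (cs.length + 1) 0 _
    (fun V _ _ A xs => ∑ v : V, if v ∉ xs then H0 V A (v :: xs) else 0) h0
    (fun _ _ _ _ _ _ _ => rfl)
  exact nst_new cs.length 1 _ (fun V _ _ A xs => gLeaf1 A Q xs) h1
    (fun _ _ _ _ _ _ _ => rfl)

theorem loc2 (cs : List (List Bool)) (hcs : wf cs) (Q : ℕ → ℕ → ℤ) :
    Loc (cs.length + 4) (fun V _ _ A => gWalk A cs [] (gLeaf2 A Q)) := by
  refine nst_walk0 4 cs hcs (fun V _ _ A xs => gLeaf2 A Q xs) ?_
  let H0 : ∀ (V : Type), (V → V → Bool) → List V → ℤ := fun _ A zs =>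
    match zs with
    | b' :: b :: a' :: a :: xs => Q (cod2 A xs a a') (cod2 A xs b b')
    | _ => 0
  have h0 : Nst (cs.length + 1 + 1 + 1 + 1) 0 (fun V _ _ A xs => H0 V A xs) := by
    refine nst_base _ _ H0 ?_ (fun _ _ _ _ _ _ _ => rfl)
    intro W V ψ _ A xs
    match xs with
    | [] => rfl
    | [x] => rfl
    | [x, y] => rfl
    | [x, y, z] => rfl
    | b' :: b :: a' :: a :: xs =>
      show Q (cod2 A (xs.map ψ) (ψ a) (ψ a')) (cod2 A (xs.map ψ) (ψ b) (ψ b')) = Q _ _
      rw [cod2_map, cod2_map]
  have h1 := nst_new (cs.length + 1 + 1 + 1) 0 _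
    (fun V _ _ A xs => ∑ v : V, if v ∉ xs then H0 V A (v :: xs) else 0) h0
    (fun _ _ _ _ _ _ _ => rfl)
  have h2 := nst_new (cs.length + 1 + 1) 1 _
    (fun V _ _ A xs => ∑ w : V, if w ∉ xs then
      ∑ v : V, (if v ∉ w :: xs then H0 V A (v :: w :: xs) else 0) else 0) h1
    (fun _ _ _ _ _ _ _ => rfl)
  have h3 := nst_new (cs.length + 1) 2 _
    (fun V _ _ A xs => ∑ u : V, if u ∉ xs then
      ∑ w : V, (if w ∉ u :: xs then
      ∑ v : V, (if v ∉ w :: u :: xs then H0 V A (v :: w :: u :: xs) else 0) else 0) else 0) h2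
    (fun _ _ _ _ _ _ _ => rfl)
  exact nst_new cs.length 3 _ (fun V _ _ A xs => gLeaf2 A Q xs) h3
    (fun _ _ _ _ _ _ _ => rfl)

theorem locT (cs : List (List Bool)) (hcs : wf cs) :
    Loc (cs.length + 2) (fun V _ _ A => gWalk A cs [] (gLeafT A)) := by
  refine nst_walk0 2 cs hcs (fun V _ _ A xs => gLeafT A xs) ?_
  let H0 : ∀ (V : Type), (V → V → Bool) → List V → ℤ := fun _ A zs =>
    match zs with
    | b :: a :: xs => if A a b = true then (cyc2 A a b xs : ℤ) else 0
    | _ => 0
  have h0 : Nst (cs.length + 1 + 1) 0 (fun V _ _ A xs => H0 V A xs) := by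
    refine nst_base _ _ H0 ?_ (fun _ _ _ _ _ _ _ => rfl)
    intro W V ψ _ A xs
    match xs with
    | [] => rfl
    | [x] => rfl
    | b :: a :: xs =>
      show (if A (ψ a) (ψ b) = true then (cyc2 A (ψ a) (ψ b) (xs.map ψ) : ℤ) else 0) = _
      rw [cyc2_map]
  have h1 := nst_new (cs.length + 1) 0 _
    (fun V _ _ A xs => ∑ v : V, if v ∉ xs then H0 V A (v :: xs) else 0) h0
    (fun _ _ _ _ _ _ _ => rfl)
  refine nst_new cs.length 1 _ (fun V _ _ A xs => gLeafT A xs) h1 ?_
  intro V _ _ A hA xs _
  show gLeafT A xs = _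
  unfold gLeafT
  refine Finset.sum_congr rfl fun a _ => ?_
  by_cases ha : a ∉ xs
  · rw [if_pos ha, if_pos ha]
    refine Finset.sum_congr rfl fun b _ => ?_
    show (if b ∉ xs then (if A a b = true then (cyc2 A a b xs : ℤ) else 0) else 0)
      = if b ∉ a :: xs then (if A a b = true then (cyc2 A a b xs : ℤ) else 0) else 0
    by_cases hab : b = a
    · subst hab
      rw [hA.1 b]
      simp
    · by_cases hb : b ∉ xs
      · have hb2 : b ∉ a :: xs := by
          rw [List.mem_cons, not_or]
          exact ⟨hab, hb⟩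
        rw [if_pos hb, if_pos hb2]
      · have hb2 : ¬ b ∉ a :: xs := fun h => hb (fun hh => h (List.mem_cons_of_mem _ hh))
        rw [if_neg hb, if_neg hb2]
  · rw [if_neg ha, if_neg ha]

end Pool.Agent.Helper59.TD
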