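import Pool.Agent.Helper59.TD.Psd

/-!
# Piece HDT-8: soundness of the check of positive semidefiniteness

`psd n d rows = true` with `0 < d` implies that the quadratic form with the upper triangle
`rows`, `qform (r :: rows) (x :: xs) = x * (r₀ * x + 2 * (r₁ * x₁ + …)) + qform rows xs`, is
nonnegative (when the number and the lengths of the rows fit: rows of lengths `m, m - 1, …, 1`
for a list of `m` variables).  For a positive pivot `p`:
`p * qform (…) = (p * x + r · xs) ^ 2 + d * qform (elim …) xs`, because
`d * (elim …)_{ij} = p * M_ij - r_i * r_j`.  For pivot `0` the rest of the row is zero.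

Then, for `l : List ℕ`, with `N i` the number of members `c` of `l` with `fld 6 idt c = i + 1`,
`∑_{a, b ∈ l} qf a b = ∑_{i, j < m} sgn (fld 192 qt (i * m + j)) * N i * N j`, which equals
`qform (upper m qt) (N 0, …, N (m - 1))` by the symmetry check.
-/

namespace Pool.Agent.Helper59.TD

/-- dot product of two lists -/
def dotl : List ℤ → List ℤ → ℤ
  | a :: as, b :: bs => a * b + dotl as bs
  | _, _ => 0

/-- quadratic form given by the rows of the upper triangle -/
def qform : List (List ℤ) → List ℤ → ℤ
  | (p :: rs) :: rows, x :: xs => x * (p * x + 2 * dotl rs xs) + qform rows xs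
  | _, _ => 0

/-- the rows form an upper triangle -/
def shape : List (List ℤ) → Prop
  | [] => True
  | row :: rows => row.length = rows.length + 1 ∧ shape rows

theorem elimRow_spec (p d r : ℤ) : ∀ (ss Ms t : List ℤ), elimRow p d r ss Ms = some t →
    t.length = Ms.length ∧ ss.length = Ms.length ∧
      ∀ xs : List ℤ, d * dotl t xs = p * dotl Ms xs - r * dotl ss xs
  | [], [], t, h => by
    simp only [elimRow, Option.some.injEq] at h
    subst h
    refine ⟨rfl, rfl, fun xs => ?_⟩
    simp [dotl]
  | [], M :: Ms, t, h => by simp [elimRow] at h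
  | s :: ss, [], t, h => by simp [elimRow] at h
  | s :: ss, M :: Ms, t, h => by
    simp only [elimRow] at h
    split_ifs at h with hq
    · split at h
      · rename_i t' ht'
        simp only [Option.some.injEq] at h
        subst h
        obtain ⟨h1, h2, h3⟩ := elimRow_spec p d r ss Ms t' ht'
        refine ⟨by simp [h1], by simp [h2], fun xs => ?_⟩
        cases xs with
        | nil => simp [dotl]
        | cons x xs =>
          have h4 := h3 xs
          simp only [dotl]
          linear_combination h4 + x * hq
      · simp at h

theorem elim_spec (p d : ℤ) : ∀ (rs : List ℤ) (rows M : List (List ℤ)),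
    elim p d rs rows = some M → shape rows →
    M.length = rows.length ∧ shape M ∧
      ∀ xs : List ℤ, xs.length = rows.length →
        d * qform M xs = p * qform rows xs - dotl rs xs ^ 2
  | [], [], M, h, _ => by
    simp only [elim, Option.some.injEq] at h
    subst h
    refine ⟨rfl, trivial, fun xs _ => ?_⟩
    simp [qform, dotl]
  | [], row :: rows, M, h, _ => by simp [elim] at h
  | r :: rs, [], M, h, _ => by simp [elim] at h
  | r :: rs, row :: rows, M, h, hs => by
    obtain ⟨hs1, hs2⟩ := hs
    simp only [elim] at h
    split at h
    · rename_i t ht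
      split at h
      · rename_i ts hts
        simp only [Option.some.injEq] at h
        subst h
        obtain ⟨h1, h2, h3⟩ := elim_spec p d rs rows ts hts hs2
        obtain ⟨g1, g2, g3⟩ := elimRow_spec p d r (r :: rs) row t ht
        refine ⟨by simp [h1], ⟨by rw [g1, hs1, h1], h2⟩, fun xs hxs => ?_⟩
        cases xs with
        | nil => simp at hxs
        | cons x xs =>
          have hxs' : xs.length = rows.length := by simpa using hxs
          cases row with
          | nil => simp at hs1
          | cons m0 ms =>
            cases t with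
            | nil => simp at g1
            | cons t0 tl =>
              have e0 := g3 [1]
              have e1 := g3 (0 :: xs)
              have e2 := h3 xs hxs'
              simp only [dotl] at e0 e1
              simp only [qform, dotl]
              have e0' : d * t0 = p * m0 - r * r := by
                linear_combination e0
              linear_combination (x ^ 2) * e0' + (2 * x) * e1 + e2
      · simp at h
    · simp at h

theorem allZero_dotl : ∀ (rs xs : List ℤ), allZero rs = true → dotl rs xs = 0
  | [], xs, _ => by simp [dotl]
  | r :: rs, [], _ => by simp [dotl]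
  | r :: rs, x :: xs, h => by
    simp only [allZero] at h
    split_ifs at h with h0
    simp only [dotl]
    rw [allZero_dotl rs xs h, h0]
    ring

theorem psd_nonneg : ∀ (n : ℕ) (d : ℤ) (rows : List (List ℤ)) (xs : List ℤ),
    psd n d rows = true → 0 < d → shape rows → xs.length = rows.length → 0 ≤ qform rows xs
  | n, d, [], xs, _, _, _, _ => by simp [qform]
  | 0, d, _ :: _, xs, h, _, _, _ => by simp [psd] at h
  | n + 1, d, [] :: _, xs, h, _, _, _ => by simp [psd] at h
  | n + 1, d, (p :: rs) :: rows, xs, h, hd, hs, hl => by
    obtain ⟨hs1, hs2⟩ := hs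
    cases xs with
    | nil => simp at hl
    | cons x xs =>
      have hl' : xs.length = rows.length := by simpa using hl
      simp only [psd] at h
      split_ifs at h with h0 hz hp
      · have ih := psd_nonneg n d rows xs h hd hs2 hl'
        simp only [qform]
        rw [allZero_dotl rs xs hz, h0]
        linarith
      · split at h
        · rename_i M hM
          obtain ⟨h1, h2, h3⟩ := elim_spec p d rs rows M hM hs2
          have ih := psd_nonneg n p M xs h hp h2 (by rw [hl', h1])
          have e := h3 xs hl'
          simp only [qform]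
          have key : p * (x * (p * x + 2 * dotl rs xs) + qform rows xs)
              = (p * x + dotl rs xs) ^ 2 + d * qform M xs := by
            linear_combination -e
          have hnn : 0 ≤ p * (x * (p * x + 2 * dotl rs xs) + qform rows xs) := by
            rw [key]
            exact add_nonneg (sq_nonneg _) (mul_nonneg hd.le ih)
          exact nonneg_of_mul_nonneg_right hnn hp
        · simp at h

/-- rows of the upper triangle of `a` -/
def rowsF (a : ℕ → ℕ → ℤ) (i k : ℕ) : List (List ℤ) :=
  (List.range k).map fun t => (List.range (k - t)).map fun j => a (i + t) (i + t + j)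

def xsF (x : ℕ → ℤ) (i k : ℕ) : List ℤ := (List.range k).map fun t => x (i + t)

theorem rowsF_succ (a : ℕ → ℕ → ℤ) (i k : ℕ) :
    rowsF a i (k + 1) = ((List.range (k + 1)).map fun j => a i (i + j)) :: rowsF a (i + 1) k := by
  unfold rowsF
  conv_lhs => rw [List.range_succ_eq_map, List.map_cons, List.map_map]
  congr 1
  apply List.map_congr_left
  intro t _
  simp only [Function.comp]
  rw [Nat.succ_sub_succ]
  apply List.map_congr_left
  intro j _
  have h1 : i + t.succ = i + 1 + t := by omega
  rw [h1]

theorem xsF_succ (x : ℕ → ℤ) (i k : ℕ) : xsF x i (k + 1) = x i :: xsF x (i + 1) k := by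
  unfold xsF
  rw [List.range_succ_eq_map, List.map_cons, List.map_map]
  congr 1
  apply List.map_congr_left
  intro t _
  simp only [Function.comp]
  congr 1
  omega

theorem shape_rowsF (a : ℕ → ℕ → ℤ) : ∀ (k i : ℕ), shape (rowsF a i k)
  | 0, i => by simp [rowsF, shape]
  | k + 1, i => by
    rw [rowsF_succ]
    refine ⟨?_, shape_rowsF a k (i + 1)⟩
    simp [rowsF]

theorem dotl_map (f : ℕ → ℤ) (x : ℕ → ℤ) : ∀ (k i : ℕ),
    dotl ((List.range k).map fun j => f (i + j)) (xsF x i k)
      = ∑ j ∈ Finset.range k, f (i + j) * x (i + j)
  | 0, i => by simp [xsF, dotl]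
  | k + 1, i => by
    have h1 : ((List.range (k + 1)).map fun j => f (i + j))
        = f i :: (List.range k).map fun j => f (i + 1 + j) := by
      rw [List.range_succ_eq_map, List.map_cons, List.map_map]
      congr 1
      apply List.map_congr_left
      intro t _
      simp only [Function.comp]
      congr 1
      omega
    rw [h1, xsF_succ]
    simp only [dotl]
    rw [dotl_map f x k (i + 1), Finset.sum_range_succ']
    simp only [Nat.add_zero]
    rw [add_comm]
    congr 1
    apply Finset.sum_congr rfl
    intro j _
    have h2 : i + (j + 1) = i + 1 + j := by omega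
    rw [h2]

theorem qform_rowsF (a : ℕ → ℕ → ℤ) (m : ℕ) (hsym : ∀ i j, i < m → j < m → a i j = a j i)
    (x : ℕ → ℤ) : ∀ (k i : ℕ), i + k ≤ m →
    qform (rowsF a i k) (xsF x i k)
      = ∑ s ∈ Finset.range k, ∑ t ∈ Finset.range k,
          a (i + s) (i + t) * x (i + s) * x (i + t)
  | 0, i, _ => by simp [rowsF, xsF, qform]
  | k + 1, i, h => by
    rw [rowsF_succ, xsF_succ]
    have h1 : ((List.range (k + 1)).map fun j => a i (i + j))
        = a i i :: (List.range k).map fun j => a i (i + 1 + j) := by
      rw [List.range_succ_eq_map, List.map_cons, List.map_map]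
      congr 1
      apply List.map_congr_left
      intro t _
      simp only [Function.comp]
      congr 1
      omega
    rw [h1]
    simp only [qform]
    rw [dotl_map (fun j => a i j) x k (i + 1), qform_rowsF a m hsym x k (i + 1) (by omega)]
    rw [Finset.sum_range_succ' (fun s => ∑ t ∈ Finset.range (k + 1),
      a (i + s) (i + t) * x (i + s) * x (i + t))]
    simp only [Nat.add_zero]
    rw [Finset.sum_range_succ' (fun t => a i (i + t) * x i * x (i + t))]
    have h2 : ∀ s ∈ Finset.range k, ∑ t ∈ Finset.range (k + 1),
        a (i + (s + 1)) (i + t) * x (i + (s + 1)) * x (i + t)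
        = (∑ t ∈ Finset.range k, a (i + 1 + s) (i + 1 + t) * x (i + 1 + s) * x (i + 1 + t))
          + a i (i + 1 + s) * x (i + 1 + s) * x i := by
      intro s hs
      have hs' := Finset.mem_range.1 hs
      rw [Finset.sum_range_succ']
      simp only [Nat.add_zero]
      have e1 : i + (s + 1) = i + 1 + s := by omega
      rw [e1, hsym (i + 1 + s) i (by omega) (by omega)]
      congr 1
      apply Finset.sum_congr rfl
      intro t _
      have e2 : i + (t + 1) = i + 1 + t := by omega
      rw [e2]
    rw [Finset.sum_congr rfl h2, Finset.sum_add_distrib]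
    have h3 : ∑ t ∈ Finset.range k, a i (i + (t + 1)) * x i * x (i + (t + 1))
        = x i * ∑ t ∈ Finset.range k, a i (i + 1 + t) * x (i + 1 + t) := by
      rw [Finset.mul_sum]
      apply Finset.sum_congr rfl
      intro t _
      have e2 : i + (t + 1) = i + 1 + t := by omega
      rw [e2]
      ring
    have h4 : ∑ s ∈ Finset.range k, a i (i + 1 + s) * x (i + 1 + s) * x i
        = x i * ∑ t ∈ Finset.range k, a i (i + 1 + t) * x (i + 1 + t) := by
      rw [Finset.mul_sum]
      apply Finset.sum_congr rfl
      intro t _
      ring
    rw [h3, h4]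
    ring_nf

theorem upper_eq (m qt : ℕ) :
    upper m qt = rowsF (fun i j => sgn (fld 192 qt (i * m + j))) 0 m := by
  unfold upper rowsF
  apply List.map_congr_left
  intro t _
  apply List.map_congr_left
  intro j _
  simp only [Nat.zero_add]

theorem fld_eq (w tab i : ℕ) : fld w tab i = (tab / 2 ^ (w * i)) % 2 ^ w := by
  unfold fld
  change (tab >>> (w * i)) &&& (2 ^ w - 1) = _
  rw [Nat.and_two_pow_sub_one_eq_mod, Nat.shiftRight_eq_div_pow]

theorem id_le (idt m : ℕ) (h3 : idOK m idt = true) (c : ℕ) : fld 6 idt c ≤ m := by
  unfold idOK at h3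
  rw [Bool.and_eq_true, List.all_eq_true] at h3
  obtain ⟨h1, h2⟩ := h3
  rcases Nat.lt_or_ge c 128 with hc | hc
  · exact Nat.le_of_ble_eq_true (h1 c (List.mem_range.2 hc))
  · have h4 : idt + 1 ≤ 2 ^ 768 := Nat.le_of_ble_eq_true h2
    have h5 : idt < 2 ^ (6 * c) :=
      lt_of_lt_of_le (by omega) (Nat.pow_le_pow_right (by norm_num) (by omega : 768 ≤ 6 * c))
    rw [fld_eq, Nat.div_eq_of_lt h5]
    simp

/-- indicator of the class `i` -/
def ind (idt i c : ℕ) : ℤ := if fld 6 idt c = i + 1 then 1 else 0

theorem qf_sum (idt m qt : ℕ) (h3 : idOK m idt = true) (c c' : ℕ) :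
    qf idt m qt c c' = ∑ i ∈ Finset.range m, ∑ j ∈ Finset.range m,
      sgn (fld 192 qt (i * m + j)) * ind idt i c * ind idt j c' := by
  unfold qf
  split_ifs with hc hc'
  · symm
    apply Finset.sum_eq_zero
    intro i _
    apply Finset.sum_eq_zero
    intro j _
    have : ind idt i c = 0 := by
      unfold ind
      rw [if_neg]
      omega
    rw [this]
    ring
  · symm
    apply Finset.sum_eq_zero
    intro i _
    apply Finset.sum_eq_zero
    intro j _
    have : ind idt j c' = 0 := by
      unfold ind
      rw [if_neg]
      omega
    rw [this]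
    ring
  · have l1 := id_le idt m h3 c
    have l2 := id_le idt m h3 c'
    rw [Finset.sum_eq_single (fld 6 idt c - 1)]
    · rw [Finset.sum_eq_single (fld 6 idt c' - 1)]
      · unfold ind
        rw [if_pos (by omega), if_pos (by omega)]
        ring
      · intro j _ hj
        unfold ind
        rw [if_neg (by omega : ¬ fld 6 idt c' = j + 1)]
        ring
      · intro hn
        exact absurd (Finset.mem_range.2 (by omega)) hn
    · intro i _ hi
      apply Finset.sum_eq_zero
      intro j _
      unfold ind
      rw [if_neg (by omega : ¬ fld 6 idt c = i + 1)]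
      ring
    · intro hn
      exact absurd (Finset.mem_range.2 (by omega)) hn

theorem list_sum_comm {s : Finset ℕ} (g : ℕ → ℕ → ℤ) : ∀ l : List ℕ,
    (l.map fun a => ∑ i ∈ s, g i a).sum = ∑ i ∈ s, (l.map (g i)).sum
  | [] => by simp
  | a :: l => by
    simp only [List.map_cons, List.sum_cons, list_sum_comm g l, Finset.sum_add_distrib]

theorem psd_sound (idt m qt : ℕ) (h1 : psd (m + 1) 1 (upper m qt) = true)
    (h2 : symOK m qt = true) (h3 : idOK m idt = true) : PSDf (qf idt m qt) := by
  intro l
  have hsym : ∀ i j, i < m → j < m →
      (fun i j => sgn (fld 192 qt (i * m + j))) i j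
        = (fun i j => sgn (fld 192 qt (i * m + j))) j i := by
    intro i j hi hj
    unfold symOK at h2
    rw [List.all_eq_true] at h2
    have h := h2 i (List.mem_range.2 hi)
    rw [List.all_eq_true] at h
    have h' := Nat.eq_of_beq_eq_true (h j (List.mem_range.2 hj))
    simp only [h']
  set N : ℕ → ℤ := fun i => (l.map (ind idt i)).sum with hN
  have key : (l.map fun a => (l.map fun b => qf idt m qt a b).sum).sum
      = ∑ i ∈ Finset.range m, ∑ j ∈ Finset.range m,
          sgn (fld 192 qt (i * m + j)) * N i * N j := by
    have e1 : ∀ a, (l.map fun b => qf idt m qt a b).sum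
        = ∑ i ∈ Finset.range m, ∑ j ∈ Finset.range m,
          sgn (fld 192 qt (i * m + j)) * ind idt i a * N j := by
      intro a
      simp only [qf_sum idt m qt h3 a]
      rw [list_sum_comm (s := Finset.range m) (fun i b => ∑ j ∈ Finset.range m,
        sgn (fld 192 qt (i * m + j)) * ind idt i a * ind idt j b) l]
      apply Finset.sum_congr rfl
      intro i _
      rw [list_sum_comm (s := Finset.range m) (fun j b =>
        sgn (fld 192 qt (i * m + j)) * ind idt i a * ind idt j b) l]
      apply Finset.sum_congr rfl
      intro j _
      rw [List.sum_map_mul_left]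
    simp only [e1]
    rw [list_sum_comm (s := Finset.range m) (fun i a => ∑ j ∈ Finset.range m,
      sgn (fld 192 qt (i * m + j)) * ind idt i a * N j) l]
    apply Finset.sum_congr rfl
    intro i _
    rw [list_sum_comm (s := Finset.range m) (fun j a =>
      sgn (fld 192 qt (i * m + j)) * ind idt i a * N j) l]
    apply Finset.sum_congr rfl
    intro j _
    rw [List.sum_map_mul_right, List.sum_map_mul_left]
  rw [key]
  have hq := qform_rowsF (fun i j => sgn (fld 192 qt (i * m + j))) m hsym N m 0 (by omega)
  simp only [Nat.zero_add] at hq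
  rw [← hq, ← upper_eq]
  apply psd_nonneg (m + 1) 1 _ _ h1 (by norm_num)
  · rw [upper_eq]
    exact shape_rowsF _ _ _
  · simp [upper, xsF]

theorem qf_bound (idt m qt k : ℕ) (h3 : idOK m idt = true) (h4 : bdOK m qt k = true) (c c' : ℕ) :
    |qf idt m qt c c'| ≤ 2 ^ k := by
  unfold qf
  split_ifs with hc hc'
  · simp
  · simp
  · have l1 := id_le idt m h3 c
    have l2 := id_le idt m h3 c'
    unfold bdOK at h4
    rw [List.all_eq_true] at h4
    have h := h4 (fld 6 idt c - 1) (List.mem_range.2 (by omega))
    rw [List.all_eq_true] at h
    have h' := Nat.le_of_ble_eq_true (h (fld 6 idt c' - 1) (List.mem_range.2 (by omega)))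
    rw [Int.abs_eq_natAbs]
    exact_mod_cast h'

end Pool.Agent.Helper59.TD
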