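import Pool.Agent.Helper59.TD.Defs

/-!
# Piece HDT-11: sampling from a step kernel

`m` parts with weights `w i` (natural numbers, sum `S > 0`) and arc probabilities
`a i j / (2 q)`, `a i j + a j i = 2 q` (so `a i i = q`).  Claim: for every `ε > 0` and all large
`n` there is a tournament `G` on `n` vertices such that for ALL labelled tournaments `H` on five
vertices simultaneously `cnt H G ≥ (kernelSum w a H / (S ^ 5 (2 q) ^ 10) - ε) n ^ 5`.

Proof: put the vertex `v : Fin n` into the part `π v` determined by `v % S` (each residue `r < S`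
belongs to a part, the part `j` has `w j` residues), so the part `j` has at least
`w j * (n / S) ≥ w j * n / S - w j` vertices.  Choose `ω : Fin n → Fin n → Fin (2 q)` uniformly at
random (a finite average) and, for `u < v`, let `u → v` iff `ω u v < a (π u) (π v)`.
For an embedding `φ : Fin 5 ↪ Fin n` the probability that `φ` is a copy of `H` is exactly
`∏_{u < v} (if H.adj u v then a (π φ u) (π φ v) else a (π φ v) (π φ u)) / (2 q)`, so the
expectation of `cnt H G` is `≥ kernelSum / (S ^ 5 (2 q) ^ 10) * n ^ 5 - C n ^ 4`.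
Variance: if the ranges of `φ, ψ` share at most one vertex the two events depend on disjoint
coordinates of `ω` and are independent; there are at most `400 n ^ 8` other pairs.  So
`E (cnt H G - E cnt H G) ^ 2 ≤ 400 n ^ 8`; summing over the `1024` labelled tournaments `H` (or
over all `H : Tour 5`, a finite type), some `ω` has
`∑ H, (cnt H G - E cnt H G) ^ 2 ≤ 1024 * 400 * n ^ 8`, so `cnt H G ≥ E cnt H G - 640 n ^ 4`.
-/

namespace Pool.Agent.Helper59.TD

open Finset

namespace Samp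

/-- The tournament given by the random numbers `ω`. -/
def mkT {m n : ℕ} (q : ℕ) (a : Fin m → Fin m → ℕ) (π : Fin n → Fin m)
    (ω : Fin n × Fin n → Fin (2 * q)) : Tour n where
  adj x y := if x < y then decide ((ω (x, y)).val < a (π x) (π y))
    else if y < x then !decide ((ω (y, x)).val < a (π y) (π x)) else false
  irr i := by simp
  anti i j h := by
    rcases lt_or_gt_of_ne h with h1 | h1
    · have h2 : ¬ j < i := not_lt.2 (le_of_lt h1)
      simp [h1, h2]
    · have h2 : ¬ i < j := not_lt.2 (le_of_lt h1)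
      simp [h1, h2]

open Classical in
/-- The factor of the coordinate `e` in the indicator of a copy. -/
noncomputable def fac {m n : ℕ} (q : ℕ) (a : Fin m → Fin m → ℕ) (π : Fin n → Fin m) (H : Tour 5)
    (φ : Fin 5 ↪ Fin n) (e : Fin n × Fin n) (z : Fin (2 * q)) : ℝ :=
  if ∀ i j, φ i = e.1 → φ j = e.2 → e.1 < e.2 →
    decide (z.val < a (π e.1) (π e.2)) = H.adj i j then 1 else 0

open Classical in
theorem ind_eq {m n : ℕ} (q : ℕ) (a : Fin m → Fin m → ℕ) (π : Fin n → Fin m) (H : Tour 5)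
    (φ : Fin 5 ↪ Fin n) (ω : Fin n × Fin n → Fin (2 * q)) :
    (if ∀ i j, (mkT q a π ω).adj (φ i) (φ j) = H.adj i j then (1 : ℝ) else 0) =
      ∏ e, fac q a π H φ e (ω e) := by
  by_cases h : ∀ i j, (mkT q a π ω).adj (φ i) (φ j) = H.adj i j
  · rw [if_pos h]
    symm
    refine Finset.prod_eq_one (fun e _ => ?_)
    unfold fac
    rw [if_pos]
    intro i j h1 h2 h3
    have h4 := h i j
    rw [h1, h2] at h4
    simp only [mkT, h3, if_true] at h4
    exact h4
  · rw [if_neg h]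
    push Not at h
    obtain ⟨i, j, hij⟩ := h
    have key : ∃ i j, φ i < φ j ∧
        ¬ decide ((ω (φ i, φ j)).val < a (π (φ i)) (π (φ j))) = H.adj i j := by
      rcases lt_trichotomy (φ i) (φ j) with h1 | h1 | h1
      · refine ⟨i, j, h1, ?_⟩
        simp only [mkT, h1, if_true] at hij
        exact hij
      · exfalso
        have h2 : i = j := φ.injective h1
        subst h2
        apply hij
        rw [H.irr, (mkT q a π ω).irr]
      · refine ⟨j, i, h1, ?_⟩
        have h2 : ¬ φ i < φ j := not_lt.2 (le_of_lt h1)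
        simp only [mkT, h1, h2, if_true, if_false] at hij
        have hne : i ≠ j := by
          intro h3
          rw [h3] at h1
          exact lt_irrefl _ h1
        rw [H.anti i j hne] at hij
        intro h3
        apply hij
        rw [h3]
    obtain ⟨i, j, h1, h2⟩ := key
    symm
    refine Finset.prod_eq_zero (Finset.mem_univ (φ i, φ j)) ?_
    unfold fac
    rw [if_neg]
    intro h3
    exact h2 (h3 i j rfl rfl h1)

/-- Average over a finite set of numbers. -/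
noncomputable def av {q : ℕ} (g : Fin (2 * q) → ℝ) : ℝ := (∑ z, g z) / (2 * q)

theorem sum_prod {n q : ℕ} (hq : 0 < q) (g : Fin n × Fin n → Fin (2 * q) → ℝ) :
    ∑ ω : Fin n × Fin n → Fin (2 * q), ∏ e, g e (ω e) =
      (2 * q : ℝ) ^ (Fintype.card (Fin n × Fin n)) * ∏ e, av (g e) := by
  have h1 : ∑ ω : Fin n × Fin n → Fin (2 * q), ∏ e, g e (ω e) = ∏ e, ∑ z, g e z := by
    rw [Finset.prod_univ_sum]
    simp
  rw [h1]
  unfold av
  rw [Finset.prod_div_distrib, Finset.prod_const, Finset.card_univ]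
  have hq' : (2 * q : ℝ) ≠ 0 := by positivity
  field_simp

theorem av_one {q : ℕ} (hq : 0 < q) : av (fun _ : Fin (2 * q) => (1 : ℝ)) = 1 := by
  unfold av
  rw [Finset.sum_const, Finset.card_univ, Fintype.card_fin, nsmul_eq_mul, mul_one]
  push_cast
  exact div_self (by positivity)

theorem av_nonneg {q : ℕ} {g : Fin (2 * q) → ℝ} (h : ∀ z, 0 ≤ g z) : 0 ≤ av g := by
  unfold av
  exact div_nonneg (Finset.sum_nonneg (fun z _ => h z)) (by positivity)

theorem av_le_one {q : ℕ} (hq : 0 < q) {g : Fin (2 * q) → ℝ} (h : ∀ z, g z ≤ 1) : av g ≤ 1 := by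
  unfold av
  rw [div_le_one (by positivity)]
  calc ∑ z, g z ≤ ∑ z : Fin (2 * q), (1 : ℝ) := Finset.sum_le_sum (fun z _ => h z)
    _ = 2 * q := by simp

theorem fac_nonneg {m n : ℕ} (q : ℕ) (a : Fin m → Fin m → ℕ) (π : Fin n → Fin m) (H : Tour 5)
    (φ : Fin 5 ↪ Fin n) (e : Fin n × Fin n) (z : Fin (2 * q)) : 0 ≤ fac q a π H φ e z := by
  unfold fac
  split_ifs <;> norm_num

theorem fac_le_one {m n : ℕ} (q : ℕ) (a : Fin m → Fin m → ℕ) (π : Fin n → Fin m) (H : Tour 5)
    (φ : Fin 5 ↪ Fin n) (e : Fin n × Fin n) (z : Fin (2 * q)) : fac q a π H φ e z ≤ 1 := by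
  unfold fac
  split_ifs <;> norm_num

/-- The two embeddings have a pair of vertices in common. -/
def Dep {n : ℕ} (φ ψ : Fin 5 ↪ Fin n) : Prop :=
  ∃ i j k l, k ≠ l ∧ φ i = ψ k ∧ φ j = ψ l

theorem fac_trivial {m n : ℕ} (q : ℕ) (a : Fin m → Fin m → ℕ) (π : Fin n → Fin m) (H : Tour 5)
    (φ : Fin 5 ↪ Fin n) (e : Fin n × Fin n)
    (h : ¬ ∃ i j, φ i = e.1 ∧ φ j = e.2 ∧ e.1 < e.2) :
    fac q a π H φ e = fun _ => 1 := by
  funext z
  unfold fac
  rw [if_pos]
  intro i j h1 h2 h3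
  exact absurd ⟨i, j, h1, h2, h3⟩ h

theorem indep {m n q : ℕ} (hq : 0 < q) (a : Fin m → Fin m → ℕ) (π : Fin n → Fin m) (H : Tour 5)
    (φ ψ : Fin 5 ↪ Fin n) (h : ¬ Dep φ ψ) :
    ∏ e, av (fun z => fac q a π H φ e z * fac q a π H ψ e z) =
      (∏ e, av (fac q a π H φ e)) * ∏ e, av (fac q a π H ψ e) := by
  rw [← Finset.prod_mul_distrib]
  refine Finset.prod_congr rfl (fun e _ => ?_)
  by_cases h1 : ∃ i j, φ i = e.1 ∧ φ j = e.2 ∧ e.1 < e.2
  · have h2 : ¬ ∃ i j, ψ i = e.1 ∧ ψ j = e.2 ∧ e.1 < e.2 := by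
      rintro ⟨k, l, h3, h4, h5⟩
      obtain ⟨i, j, h6, h7, _⟩ := h1
      refine h ⟨i, j, k, l, ?_, by rw [h6, h3], by rw [h7, h4]⟩
      intro h8
      rw [h8, h4] at h3
      rw [h3] at h5
      exact lt_irrefl _ h5
    rw [fac_trivial q a π H ψ e h2, av_one hq]
    simp
  · rw [fac_trivial q a π H φ e h1, av_one hq]
    simp

theorem card_sub (k l : Fin 5) (h : ¬ k = l) :
    Fintype.card {x : Fin 5 // x ≠ k ∧ x ≠ l} = 3 := by
  revert k l
  decide

open Classical in
theorem card_dep (n : ℕ) :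
    ((univ : Finset ((Fin 5 ↪ Fin n) × (Fin 5 ↪ Fin n))).filter
      (fun p => Dep p.1 p.2)).card ≤ 625 * n ^ 8 := by
  have hsub : ((univ : Finset ((Fin 5 ↪ Fin n) × (Fin 5 ↪ Fin n))).filter
      (fun p => Dep p.1 p.2)) ⊆
      (univ : Finset (Fin 5 × Fin 5 × Fin 5 × Fin 5)).biUnion (fun t =>
        (univ : Finset ((Fin 5 ↪ Fin n) × (Fin 5 ↪ Fin n))).filter
          (fun p => t.2.2.1 ≠ t.2.2.2 ∧ p.1 t.1 = p.2 t.2.2.1 ∧ p.1 t.2.1 = p.2 t.2.2.2)) := by
    intro p hp
    rw [Finset.mem_filter] at hp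
    obtain ⟨_, i, j, k, l, h1, h2, h3⟩ := hp
    rw [Finset.mem_biUnion]
    exact ⟨(i, j, k, l), Finset.mem_univ _, by
      rw [Finset.mem_filter]
      exact ⟨Finset.mem_univ _, h1, h2, h3⟩⟩
  refine le_trans (Finset.card_le_card hsub) ?_
  refine le_trans (Finset.card_biUnion_le_card_mul _ _ (n ^ 8) ?_) ?_
  · rintro ⟨i, j, k, l⟩ _
    by_cases hkl : k = l
    · simp [hkl]
    · have hinj : Set.InjOn (fun p : (Fin 5 ↪ Fin n) × (Fin 5 ↪ Fin n) =>
          ((fun x => p.1 x, fun x : {x : Fin 5 // x ≠ k ∧ x ≠ l} => p.2 x.1) :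
            (Fin 5 → Fin n) × ({x : Fin 5 // x ≠ k ∧ x ≠ l} → Fin n)))
          ((univ : Finset ((Fin 5 ↪ Fin n) × (Fin 5 ↪ Fin n))).filter
          (fun p => k ≠ l ∧ p.1 i = p.2 k ∧ p.1 j = p.2 l) :
            Finset ((Fin 5 ↪ Fin n) × (Fin 5 ↪ Fin n))) := by
        rintro ⟨f, g⟩ hp ⟨f', g'⟩ hp' heq
        have hp := (Finset.mem_filter.1 (Finset.mem_coe.1 hp)).2
        have hp' := (Finset.mem_filter.1 (Finset.mem_coe.1 hp')).2
        simp only [Prod.mk.injEq] at heq hp hp'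
        obtain ⟨h1, h2⟩ := heq
        have h3 : f = f' := by
          ext x
          exact congrArg Fin.val (congrFun h1 x)
        subst h3
        have h4 : g = g' := by
          ext x
          by_cases hx : x = k
          · rw [hx, ← hp.2.1, ← hp'.2.1]
          · by_cases hx2 : x = l
            · rw [hx2, ← hp.2.2, ← hp'.2.2]
            · exact congrArg Fin.val (congrFun h2 ⟨x, hx, hx2⟩)
        rw [h4]
      refine le_trans (Finset.card_le_card_of_injOn (t := Finset.univ) _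
        (fun _ _ => Finset.mem_coe.2 (Finset.mem_univ _)) hinj) ?_
      rw [Finset.card_univ, Fintype.card_prod, Fintype.card_fun, Fintype.card_fun,
        Fintype.card_fin, Fintype.card_fin]
      rw [card_sub k l hkl, ← pow_add]
  · simp

/-- Expectation of the number of copies. -/
noncomputable def ex {m n : ℕ} (q : ℕ) (a : Fin m → Fin m → ℕ) (π : Fin n → Fin m)
    (H : Tour 5) : ℝ :=
  ∑ φ : Fin 5 ↪ Fin n, ∏ e, av (fac q a π H φ e)

open Classical in
theorem cnt_eq {m n : ℕ} (q : ℕ) (a : Fin m → Fin m → ℕ) (π : Fin n → Fin m) (H : Tour 5)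
    (ω : Fin n × Fin n → Fin (2 * q)) :
    (cnt H (mkT q a π ω) : ℝ) = ∑ φ : Fin 5 ↪ Fin n, ∏ e, fac q a π H φ e (ω e) := by
  unfold cnt
  rw [Finset.card_filter]
  push_cast
  refine Finset.sum_congr rfl (fun φ _ => ?_)
  rw [← ind_eq]

open Classical in
theorem variance {m n q : ℕ} (hq : 0 < q) (a : Fin m → Fin m → ℕ) (π : Fin n → Fin m)
    (H : Tour 5) :
    ∑ ω : Fin n × Fin n → Fin (2 * q), ((cnt H (mkT q a π ω) : ℝ) - ex q a π H) ^ 2 ≤
      (2 * q : ℝ) ^ (Fintype.card (Fin n × Fin n)) * (625 * (n : ℝ) ^ 8) := by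
  set N : ℝ := (2 * q : ℝ) ^ (Fintype.card (Fin n × Fin n)) with hN
  have hNpos : 0 < N := by positivity
  have hcard : ((univ : Finset (Fin n × Fin n → Fin (2 * q))).card : ℝ) = N := by
    rw [Finset.card_univ, Fintype.card_fun, Fintype.card_fin]
    push_cast
    rfl
  set X : (Fin 5 ↪ Fin n) → (Fin n × Fin n → Fin (2 * q)) → ℝ :=
    fun φ ω => ∏ e, fac q a π H φ e (ω e) with hX
  set p : (Fin 5 ↪ Fin n) → ℝ := fun φ => ∏ e, av (fac q a π H φ e) with hp
  have hEX : ∀ φ, ∑ ω, X φ ω = N * p φ := by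
    intro φ
    exact sum_prod hq (fac q a π H φ)
  have hEXX : ∀ φ ψ, ∑ ω, X φ ω * X ψ ω =
      N * ∏ e, av (fun z => fac q a π H φ e z * fac q a π H ψ e z) := by
    intro φ ψ
    rw [← sum_prod hq]
    refine Finset.sum_congr rfl (fun ω _ => ?_)
    rw [hX]
    simp only
    rw [← Finset.prod_mul_distrib]
  have hcov : ∀ φ ψ, ∑ ω, (X φ ω - p φ) * (X ψ ω - p ψ) ≤ if Dep φ ψ then N else 0 := by
    intro φ ψ
    have e1 : ∑ ω, (X φ ω - p φ) * (X ψ ω - p ψ) =
        N * (∏ e, av (fun z => fac q a π H φ e z * fac q a π H ψ e z)) - N * (p φ * p ψ) := by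
      have : ∀ ω, (X φ ω - p φ) * (X ψ ω - p ψ) =
          X φ ω * X ψ ω - p ψ * X φ ω - p φ * X ψ ω + p φ * p ψ := by intro ω; ring
      simp_rw [this]
      rw [Finset.sum_add_distrib, Finset.sum_sub_distrib, Finset.sum_sub_distrib, hEXX,
        ← Finset.mul_sum, ← Finset.mul_sum, hEX, hEX, Finset.sum_const, nsmul_eq_mul, hcard]
      ring
    rw [e1]
    by_cases hd : Dep φ ψ
    · rw [if_pos hd]
      have h1 : ∏ e, av (fun z => fac q a π H φ e z * fac q a π H ψ e z) ≤ 1 := by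
        refine Finset.prod_le_one (fun e _ => av_nonneg (fun z => ?_))
          (fun e _ => av_le_one hq (fun z => ?_))
        · exact mul_nonneg (fac_nonneg _ _ _ _ _ _ _) (fac_nonneg _ _ _ _ _ _ _)
        · exact mul_le_one₀ (fac_le_one _ _ _ _ _ _ _) (fac_nonneg _ _ _ _ _ _ _)
            (fac_le_one _ _ _ _ _ _ _)
      have h2 : 0 ≤ p φ * p ψ := by
        refine mul_nonneg ?_ ?_ <;>
        exact Finset.prod_nonneg (fun e _ => av_nonneg (fun z => fac_nonneg _ _ _ _ _ _ _))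
      have h3 : 0 ≤ N * (p φ * p ψ) := mul_nonneg hNpos.le h2
      nlinarith
    · rw [if_neg hd, indep hq a π H φ ψ hd]
      simp [hp]
  calc ∑ ω : Fin n × Fin n → Fin (2 * q), ((cnt H (mkT q a π ω) : ℝ) - ex q a π H) ^ 2
      = ∑ ω : Fin n × Fin n → Fin (2 * q), ∑ φ : Fin 5 ↪ Fin n, ∑ ψ : Fin 5 ↪ Fin n,
          (X φ ω - p φ) * (X ψ ω - p ψ) := by
        refine Finset.sum_congr rfl (fun ω _ => ?_)
        rw [cnt_eq, ex, ← Finset.sum_sub_distrib, sq, Finset.sum_mul_sum]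
    _ = ∑ φ : Fin 5 ↪ Fin n, ∑ ψ : Fin 5 ↪ Fin n,
          ∑ ω : Fin n × Fin n → Fin (2 * q), (X φ ω - p φ) * (X ψ ω - p ψ) := by
        rw [Finset.sum_comm]
        refine Finset.sum_congr rfl (fun φ _ => ?_)
        rw [Finset.sum_comm]
    _ ≤ ∑ φ : Fin 5 ↪ Fin n, ∑ ψ : Fin 5 ↪ Fin n, (if Dep φ ψ then N else 0) :=
        Finset.sum_le_sum (fun φ _ => Finset.sum_le_sum (fun ψ _ => hcov φ ψ))
    _ = N * (((univ : Finset ((Fin 5 ↪ Fin n) × (Fin 5 ↪ Fin n))).filter
          (fun p => Dep p.1 p.2)).card : ℝ) := by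
        rw [← Finset.sum_product', Finset.univ_product_univ, ← Finset.sum_filter,
          Finset.sum_const, nsmul_eq_mul, mul_comm]
    _ ≤ N * (625 * (n : ℝ) ^ 8) := by
        refine mul_le_mul_of_nonneg_left ?_ hNpos.le
        have := card_dep n
        exact_mod_cast this

/-- Labelled tournaments on five vertices form a finite type. -/
noncomputable def tourFintype : Fintype (Tour 5) :=
  Fintype.ofInjective (fun H : Tour 5 => H.adj) (by
    rintro ⟨a, _, _⟩ ⟨b, _, _⟩ h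
    simp only at h
    subst h
    rfl)

attribute [local instance] tourFintype

/-- Some outcome is good for all `H`. -/
theorem exists_good {m n q : ℕ} (hq : 0 < q) (a : Fin m → Fin m → ℕ) (π : Fin n → Fin m) :
    ∃ ω : Fin n × Fin n → Fin (2 * q), ∀ H : Tour 5,
      ex q a π H - (Fintype.card (Tour 5) * 625 + 1) * (n : ℝ) ^ 4 ≤ cnt H (mkT q a π ω) := by
  have hne : Nonempty (Fin n × Fin n → Fin (2 * q)) := ⟨fun _ => ⟨0, by omega⟩⟩
  set N : ℝ := (2 * q : ℝ) ^ (Fintype.card (Fin n × Fin n)) with hN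
  have hNpos : 0 < N := by positivity
  have hcard : ((univ : Finset (Fin n × Fin n → Fin (2 * q))).card : ℝ) = N := by
    rw [Finset.card_univ, Fintype.card_fun, Fintype.card_fin]
    push_cast
    rfl
  have hsum : ∑ ω : Fin n × Fin n → Fin (2 * q), ∑ H : Tour 5,
      ((cnt H (mkT q a π ω) : ℝ) - ex q a π H) ^ 2 ≤
      ∑ ω : Fin n × Fin n → Fin (2 * q), (Fintype.card (Tour 5) * (625 * (n : ℝ) ^ 8)) := by
    rw [Finset.sum_comm, Finset.sum_const, nsmul_eq_mul, hcard]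
    calc ∑ H : Tour 5, ∑ ω : Fin n × Fin n → Fin (2 * q),
          ((cnt H (mkT q a π ω) : ℝ) - ex q a π H) ^ 2
        ≤ ∑ H : Tour 5, N * (625 * (n : ℝ) ^ 8) :=
          Finset.sum_le_sum (fun H _ => variance hq a π H)
      _ = N * (Fintype.card (Tour 5) * (625 * (n : ℝ) ^ 8)) := by
          rw [Finset.sum_const, nsmul_eq_mul, Finset.card_univ]
          ring
  obtain ⟨ω, _, hω⟩ := Finset.exists_le_of_sum_le (Finset.univ_nonempty) hsum
  refine ⟨ω, fun H => ?_⟩
  have h1 : ((cnt H (mkT q a π ω) : ℝ) - ex q a π H) ^ 2 ≤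
      Fintype.card (Tour 5) * (625 * (n : ℝ) ^ 8) := by
    refine le_trans ?_ hω
    exact Finset.single_le_sum (f := fun H : Tour 5 =>
      ((cnt H (mkT q a π ω) : ℝ) - ex q a π H) ^ 2) (fun H _ => sq_nonneg _) (Finset.mem_univ H)
  set C : ℝ := Fintype.card (Tour 5) * 625 with hC
  have hC0 : 0 ≤ C := by positivity
  have h2 : ((cnt H (mkT q a π ω) : ℝ) - ex q a π H) ^ 2 ≤ ((C + 1) * (n : ℝ) ^ 4) ^ 2 := by
    refine le_trans h1 ?_
    have h3 : (Fintype.card (Tour 5) : ℝ) * (625 * (n : ℝ) ^ 8) = C * (n : ℝ) ^ 8 := by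
      rw [hC]; ring
    rw [h3]
    have h4 : ((C + 1) * (n : ℝ) ^ 4) ^ 2 = (C + 1) ^ 2 * (n : ℝ) ^ 8 := by ring
    rw [h4]
    refine mul_le_mul_of_nonneg_right ?_ (by positivity)
    nlinarith
  have h5 := abs_le_of_sq_le_sq h2 (by positivity)
  linarith [(abs_le.1 h5).1]

/-- The factor of the pair `(i, j)`. -/
def cc {m : ℕ} (a : Fin m → Fin m → ℕ) (H : Tour 5) (f : Fin 5 → Fin m) (p : Fin 5 × Fin 5) : ℕ :=
  if H.adj p.1 p.2 = true then a (f p.1) (f p.2) else a (f p.2) (f p.1)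

/-- Product over the pairs. -/
def KK {m : ℕ} (a : Fin m → Fin m → ℕ) (H : Tour 5) (f : Fin 5 → Fin m) : ℕ :=
  ∏ u, ∏ v, if u < v then (if H.adj u v = true then a (f u) (f v) else a (f v) (f u)) else 1

theorem KK_eq {m : ℕ} (a : Fin m → Fin m → ℕ) (H : Tour 5) (f : Fin 5 → Fin m) :
    KK a H f = ∏ p ∈ (univ : Finset (Fin 5 × Fin 5)).filter (fun p => p.1 < p.2), cc a H f p := by
  unfold KK
  rw [Finset.prod_filter, ← Finset.univ_product_univ, Finset.prod_product]
  rfl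

theorem cc_le {m q : ℕ} (a : Fin m → Fin m → ℕ) (ha : ∀ i j, a i j + a j i = 2 * q) (H : Tour 5)
    (f : Fin 5 → Fin m) (p : Fin 5 × Fin 5) : cc a H f p ≤ 2 * q := by
  unfold cc
  have h1 := ha (f p.1) (f p.2)
  split_ifs <;> omega

theorem card_pairs : ((univ : Finset (Fin 5 × Fin 5)).filter (fun p => p.1 < p.2)).card = 10 := by
  decide

theorem KK_le {m q : ℕ} (a : Fin m → Fin m → ℕ) (ha : ∀ i j, a i j + a j i = 2 * q) (H : Tour 5)
    (f : Fin 5 → Fin m) : KK a H f ≤ (2 * q) ^ 10 := by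
  rw [KK_eq, ← card_pairs, ← Finset.prod_const]
  exact Finset.prod_le_prod' (fun p _ => cc_le a ha H f p)

theorem sum_lt (Q A : ℕ) (h : A ≤ Q) :
    ∑ z : Fin Q, (if z.val < A then (1 : ℝ) else 0) = A := by
  rw [Fin.sum_univ_eq_sum_range (fun z => if z < A then (1 : ℝ) else 0) Q, ← Finset.sum_filter,
    Finset.sum_const, nsmul_eq_mul, mul_one]
  congr 1
  have : (Finset.range Q).filter (fun z => z < A) = Finset.range A := by
    ext z
    simp only [Finset.mem_filter, Finset.mem_range]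
    omega
  rw [this, Finset.card_range]

theorem av_fac {m n q : ℕ} (a : Fin m → Fin m → ℕ)
    (ha : ∀ i j, a i j + a j i = 2 * q) (π : Fin n → Fin m) (H : Tour 5)
    (φ : Fin 5 ↪ Fin n) (p : Fin 5 × Fin 5) (hp : φ p.1 < φ p.2) :
    av (fac q a π H φ (φ p.1, φ p.2)) = (cc a H (fun x => π (φ x)) p : ℝ) / (2 * q) := by
  obtain ⟨i, j⟩ := p
  simp only at hp
  have h1 : ∀ z : Fin (2 * q), fac q a π H φ (φ i, φ j) z =
      if decide (z.val < a (π (φ i)) (π (φ j))) = H.adj i j then 1 else 0 := by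
    intro z
    unfold fac
    congr 1
    apply propext
    constructor
    · intro h
      exact h i j rfl rfl hp
    · intro h i' j' h2 h3 _
      have e1 := φ.injective h2
      have e2 := φ.injective h3
      subst e1
      subst e2
      exact h
  unfold av
  congr 1
  rw [Finset.sum_congr rfl (fun z _ => h1 z)]
  have h2 := ha (π (φ i)) (π (φ j))
  unfold cc
  simp only
  by_cases hH : H.adj i j = true
  · simp only [hH, if_true, decide_eq_true_eq]
    exact sum_lt _ _ (by omega)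
  · have hH' : H.adj i j = false := by simpa using hH
    simp only [hH', decide_eq_false_iff_not, Bool.false_eq_true, if_false]
    have h3 := sum_lt (2 * q) (a (π (φ i)) (π (φ j))) (by omega)
    have h4 : ∑ z : Fin (2 * q), (if ¬ z.val < a (π (φ i)) (π (φ j)) then (1 : ℝ) else 0) +
        ∑ z : Fin (2 * q), (if z.val < a (π (φ i)) (π (φ j)) then (1 : ℝ) else 0) = 2 * q := by
      rw [← Finset.sum_add_distrib]
      have : ∀ z : Fin (2 * q), ((if ¬ z.val < a (π (φ i)) (π (φ j)) then (1 : ℝ) else 0) +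
          (if z.val < a (π (φ i)) (π (φ j)) then (1 : ℝ) else 0)) = 1 := by
        intro z
        by_cases h : z.val < a (π (φ i)) (π (φ j)) <;> simp [h]
      rw [Finset.sum_congr rfl (fun z _ => this z)]
      simp
    have h5 : ((a (π (φ i)) (π (φ j)) : ℕ) : ℝ) + ((a (π (φ j)) (π (φ i)) : ℕ) : ℝ) = 2 * q := by
      exact_mod_cast h2
    rw [h3] at h4
    linarith

theorem prod_av {m n q : ℕ} (hq : 0 < q) (a : Fin m → Fin m → ℕ)
    (ha : ∀ i j, a i j + a j i = 2 * q) (π : Fin n → Fin m) (H : Tour 5)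
    (φ : Fin 5 ↪ Fin n) :
    ∏ e, av (fac q a π H φ e) = (KK a H (fun x => π (φ x)) : ℝ) / (2 * q) ^ 10 := by
  classical
  have hinj : Function.Injective (fun p : Fin 5 × Fin 5 => (φ p.1, φ p.2)) := by
    rintro ⟨i, j⟩ ⟨i', j'⟩ h
    simp only [Prod.mk.injEq] at h
    rw [φ.injective h.1, φ.injective h.2]
  set P := (univ : Finset (Fin 5 × Fin 5)).filter (fun p => φ p.1 < φ p.2) with hP
  have h1 : ∏ e, av (fac q a π H φ e) =
      ∏ e ∈ P.image (fun p : Fin 5 × Fin 5 => (φ p.1, φ p.2)), av (fac q a π H φ e) := by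
    symm
    refine Finset.prod_subset (Finset.subset_univ _) (fun e _ he => ?_)
    rw [fac_trivial, av_one hq]
    rintro ⟨i, j, g1, g2, g3⟩
    apply he
    rw [Finset.mem_image]
    refine ⟨(i, j), ?_, by simp only [g1, g2]⟩
    rw [hP, Finset.mem_filter]
    simp only [g1, g2]
    exact ⟨Finset.mem_univ _, g3⟩
  rw [h1, Finset.prod_image (fun x _ y _ h => hinj h)]
  have h2 : ∏ p ∈ P, av (fac q a π H φ (φ p.1, φ p.2)) =
      ∏ p ∈ P, (cc a H (fun x => π (φ x)) p : ℝ) / (2 * q) := by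
    refine Finset.prod_congr rfl (fun p hp => ?_)
    exact av_fac a ha π H φ p (Finset.mem_filter.1 hp).2
  rw [h2]
  have hsymm : ∀ p : Fin 5 × Fin 5, p.1 ≠ p.2 →
      cc a H (fun x => π (φ x)) (p.2, p.1) = cc a H (fun x => π (φ x)) p := by
    rintro ⟨i, j⟩ hne
    simp only at hne
    unfold cc
    simp only
    rw [H.anti j i (Ne.symm hne)]
    by_cases h : H.adj i j = true
    · simp [h]
    · have h' : H.adj i j = false := by simpa using h
      simp [h']
  have h3 : ∏ p ∈ P, (cc a H (fun x => π (φ x)) p : ℝ) / (2 * q) =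
      ∏ p ∈ (univ : Finset (Fin 5 × Fin 5)).filter (fun p => p.1 < p.2),
        (cc a H (fun x => π (φ x)) p : ℝ) / (2 * q) := by
    refine Finset.prod_nbij' (fun p => if p.1 < p.2 then p else (p.2, p.1))
      (fun p => if φ p.1 < φ p.2 then p else (p.2, p.1)) ?_ ?_ ?_ ?_ ?_
    · rintro ⟨i, j⟩ hp
      have hp' := (Finset.mem_filter.1 hp).2
      simp only at hp' ⊢
      rw [Finset.mem_filter]
      refine ⟨Finset.mem_univ _, ?_⟩
      have hne : i ≠ j := by rintro rfl; exact lt_irrefl _ hp'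
      split_ifs with h
      · exact h
      · exact lt_of_le_of_ne (not_lt.1 h) (Ne.symm hne)
    · rintro ⟨i, j⟩ hp
      have hp' := (Finset.mem_filter.1 hp).2
      simp only at hp' ⊢
      rw [hP, Finset.mem_filter]
      refine ⟨Finset.mem_univ _, ?_⟩
      have hne : φ i ≠ φ j := fun h => (ne_of_lt hp') (φ.injective h)
      split_ifs with h
      · exact h
      · exact lt_of_le_of_ne (not_lt.1 h) (Ne.symm hne)
    · rintro ⟨i, j⟩ hp
      have hp' := (Finset.mem_filter.1 hp).2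
      simp only at hp' ⊢
      by_cases h : i < j
      · simp [h, hp']
      · simp [h, not_lt.2 (le_of_lt hp')]
    · rintro ⟨i, j⟩ hp
      have hp' := (Finset.mem_filter.1 hp).2
      simp only at hp' ⊢
      by_cases h : φ i < φ j
      · simp [h, hp']
      · simp [h, not_lt.2 (le_of_lt hp')]
    · rintro ⟨i, j⟩ hp
      have hp' := (Finset.mem_filter.1 hp).2
      simp only at hp' ⊢
      have hne : i ≠ j := by rintro rfl; exact lt_irrefl _ hp'
      by_cases h : i < j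
      · simp [h]
      · simp only [h, if_false]
        rw [hsymm (i, j) hne]
  rw [h3, Finset.prod_div_distrib, Finset.prod_const, card_pairs, KK_eq]
  push_cast
  rfl

theorem card_noninj (n : ℕ) :
    ((univ : Finset (Fin 5 → Fin n)).filter (fun f => ¬ Function.Injective f)).card ≤
      25 * n ^ 4 := by
  classical
  have hsub : (univ : Finset (Fin 5 → Fin n)).filter (fun f => ¬ Function.Injective f) ⊆
      (univ : Finset (Fin 5 × Fin 5)).biUnion (fun t =>
        (univ : Finset (Fin 5 → Fin n)).filter (fun f => t.1 ≠ t.2 ∧ f t.1 = f t.2)) := by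
    intro f hf
    have hf' := (Finset.mem_filter.1 hf).2
    unfold Function.Injective at hf'
    push Not at hf'
    obtain ⟨i, j, h1, h2⟩ := hf'
    rw [Finset.mem_biUnion]
    exact ⟨(i, j), Finset.mem_univ _, by
      rw [Finset.mem_filter]
      exact ⟨Finset.mem_univ _, h2, h1⟩⟩
  refine le_trans (Finset.card_le_card hsub) ?_
  refine le_trans (Finset.card_biUnion_le_card_mul _ _ (n ^ 4) ?_) ?_
  · rintro ⟨i, j⟩ _
    by_cases hij : i = j
    · simp [hij]
    · have hinj : Set.InjOn (fun f : Fin 5 → Fin n => fun x : {x : Fin 5 // x ≠ i} => f x.1)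
          ((univ : Finset (Fin 5 → Fin n)).filter (fun f => i ≠ j ∧ f i = f j) :
            Finset (Fin 5 → Fin n)) := by
        intro f hf g hg h
        have hf' := (Finset.mem_filter.1 (Finset.mem_coe.1 hf)).2
        have hg' := (Finset.mem_filter.1 (Finset.mem_coe.1 hg)).2
        funext x
        by_cases hx : x = i
        · rw [hx, hf'.2, hg'.2]
          exact congrFun h ⟨j, fun h' => hij h'.symm⟩
        · exact congrFun h ⟨x, hx⟩
      refine le_trans (Finset.card_le_card_of_injOn (t := Finset.univ) _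
        (fun _ _ => Finset.mem_coe.2 (Finset.mem_univ _)) hinj) ?_
      rw [Finset.card_univ, Fintype.card_fun, Fintype.card_fin]
      have h5 : Fintype.card {x : Fin 5 // x ≠ i} = 4 := by
        rw [Fintype.card_subtype_compl, Fintype.card_fin]
        simp
      rw [h5]
  · simp

theorem sum_embed {n : ℕ} (g : (Fin 5 → Fin n) → ℕ) (B : ℕ) (hg : ∀ f, g f ≤ B) :
    ∑ f : Fin 5 → Fin n, g f ≤ (∑ φ : Fin 5 ↪ Fin n, g (fun x => φ x)) + 25 * n ^ 4 * B := by
  classical
  rw [← Finset.sum_filter_add_sum_filter_not univ (fun f : Fin 5 → Fin n => Function.Injective f)]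
  refine add_le_add ?_ ?_
  · have h1 : (univ : Finset (Fin 5 → Fin n)).filter (fun f => Function.Injective f) =
        (univ : Finset (Fin 5 ↪ Fin n)).image (fun φ x => φ x) := by
      ext f
      rw [Finset.mem_filter, Finset.mem_image]
      constructor
      · rintro ⟨_, h⟩
        exact ⟨⟨f, h⟩, Finset.mem_univ _, rfl⟩
      · rintro ⟨φ, _, rfl⟩
        exact ⟨Finset.mem_univ _, φ.injective⟩
    rw [h1, Finset.sum_image]
    intro φ _ ψ _ h
    exact DFunLike.coe_injective h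
  · refine le_trans (Finset.sum_le_card_nsmul _ _ B (fun f _ => hg f)) ?_
    rw [smul_eq_mul]
    exact Nat.mul_le_mul_right _ (card_noninj n)

theorem sum_fun {m n : ℕ} (π : Fin n → Fin m) (w : Fin m → ℕ) (d : ℕ)
    (hπ : ∀ j, w j * d ≤ ((univ : Finset (Fin n)).filter (fun x => π x = j)).card)
    (g : (Fin 5 → Fin m) → ℕ) :
    d ^ 5 * ∑ i : Fin 5 → Fin m, (∏ v, w (i v)) * g i ≤
      ∑ f : Fin 5 → Fin n, g (fun x => π (f x)) := by
  classical
  have h1 : ∑ f : Fin 5 → Fin n, g (fun x => π (f x)) =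
      ∑ i : Fin 5 → Fin m, ((univ : Finset (Fin 5 → Fin n)).filter
        (fun f => (fun x => π (f x)) = i)).card * g i := by
    rw [← Finset.sum_fiberwise (s := (univ : Finset (Fin 5 → Fin n)))
      (g := fun f : Fin 5 → Fin n => (fun x => π (f x)))]
    refine Finset.sum_congr rfl (fun i _ => ?_)
    rw [← smul_eq_mul, ← Finset.sum_const]
    refine Finset.sum_congr rfl (fun f hf => ?_)
    rw [(Finset.mem_filter.1 hf).2]
  rw [h1, Finset.mul_sum]
  refine Finset.sum_le_sum (fun i _ => ?_)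
  rw [← mul_assoc]
  refine Nat.mul_le_mul_right _ ?_
  have h2 : (univ : Finset (Fin 5 → Fin n)).filter (fun f => (fun x => π (f x)) = i) =
      Fintype.piFinset (fun v => (univ : Finset (Fin n)).filter (fun x => π x = i v)) := by
    ext f
    rw [Finset.mem_filter, Fintype.mem_piFinset]
    constructor
    · rintro ⟨_, h⟩ v
      rw [Finset.mem_filter]
      exact ⟨Finset.mem_univ _, congrFun h v⟩
    · intro h
      refine ⟨Finset.mem_univ _, ?_⟩
      funext v
      exact (Finset.mem_filter.1 (h v)).2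
  rw [h2, Fintype.card_piFinset]
  calc d ^ 5 * ∏ v, w (i v) = ∏ v : Fin 5, (w (i v) * d) := by
        rw [Finset.prod_mul_distrib, Finset.prod_const, Finset.card_univ, Fintype.card_fin]
        ring
    _ ≤ _ := Finset.prod_le_prod' (fun v _ => hπ (i v))

theorem exists_parts {m : ℕ} (w : Fin m → ℕ) (S : ℕ) (hS0 : 0 < S) (hS : ∑ i, w i = S) (n : ℕ) :
    ∃ π : Fin n → Fin m, ∀ j, w j * (n / S) ≤
      ((univ : Finset (Fin n)).filter (fun x => π x = j)).card := by
  classical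
  subst hS
  let e : (Σ j : Fin m, Fin (w j)) ≃ Fin (∑ i, w i) := finSigmaFinEquiv
  let π : Fin n → Fin m := fun x => (e.symm ⟨x.val % (∑ i, w i), Nat.mod_lt _ hS0⟩).1
  refine ⟨π, fun j => ?_⟩
  have hb : ∀ (r : Fin (w j)) (t : Fin (n / ∑ i, w i)),
      t.val * (∑ i, w i) + (e ⟨j, r⟩).val < n := by
    intro r t
    have h1 := (e ⟨j, r⟩).2
    have h2 := t.2
    have h3 := Nat.div_mul_le_self n (∑ i, w i)
    have h4 : (t.val + 1) * (∑ i, w i) ≤ (n / ∑ i, w i) * (∑ i, w i) :=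
      Nat.mul_le_mul_right _ h2
    rw [Nat.add_mul, Nat.one_mul] at h4
    omega
  have h1 : w j * (n / ∑ i, w i) =
      (univ : Finset (Fin (w j) × Fin (n / ∑ i, w i))).card := by
    rw [Finset.card_univ, Fintype.card_prod, Fintype.card_fin, Fintype.card_fin]
  rw [h1]
  refine Finset.card_le_card_of_injOn
    (fun p => ⟨p.2.val * (∑ i, w i) + (e ⟨j, p.1⟩).val, hb p.1 p.2⟩) ?_ ?_
  · rintro ⟨r, t⟩ _
    rw [Finset.mem_coe, Finset.mem_filter]
    refine ⟨Finset.mem_univ _, ?_⟩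
    simp only [π]
    have h2 : (⟨(t.val * (∑ i, w i) + (e ⟨j, r⟩).val) % (∑ i, w i), Nat.mod_lt _ hS0⟩ :
        Fin (∑ i, w i)) = e ⟨j, r⟩ := by
      apply Fin.ext
      simp only
      rw [Nat.mul_comm, Nat.mul_add_mod, Nat.mod_eq_of_lt (e ⟨j, r⟩).2]
    rw [h2, Equiv.symm_apply_apply]
  · rintro ⟨r, t⟩ _ ⟨r', t'⟩ _ h
    have h : t.val * (∑ i, w i) + (e ⟨j, r⟩).val = t'.val * (∑ i, w i) + (e ⟨j, r'⟩).val :=
      congrArg Fin.val h
    have h2 : (t.val * (∑ i, w i) + (e ⟨j, r⟩).val) % (∑ i, w i) =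
        (t'.val * (∑ i, w i) + (e ⟨j, r'⟩).val) % (∑ i, w i) := by rw [h]
    rw [Nat.mul_comm, Nat.mul_add_mod, Nat.mod_eq_of_lt (e ⟨j, r⟩).2, Nat.mul_comm t'.val,
      Nat.mul_add_mod, Nat.mod_eq_of_lt (e ⟨j, r'⟩).2] at h2
    have h3 : e ⟨j, r⟩ = e ⟨j, r'⟩ := Fin.ext h2
    have h4 := e.injective h3
    have h5 : r = r' := by
      simpa using h4
    subst h5
    have h6 : t.val * (∑ i, w i) = t'.val * (∑ i, w i) := by omega
    have h7 : t.val = t'.val := Nat.eq_of_mul_eq_mul_right hS0 h6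
    rw [Fin.ext h7]

end Samp

attribute [local instance] Samp.tourFintype

open Samp in
theorem sampling {m : ℕ} (w : Fin m → ℕ) (a : Fin m → Fin m → ℕ) (q S : ℕ) (hq : 0 < q)
    (hS0 : 0 < S) (hS : ∑ i, w i = S) (ha : ∀ i j, a i j + a j i = 2 * q) (ε : ℝ) (hε : 0 < ε) :
    ∃ n₀ : ℕ, ∀ n ≥ n₀, ∃ G : Tour n, ∀ H : Tour 5,
      ((kernelSum w a H : ℝ) / ((S : ℝ) ^ 5 * (2 * q) ^ 10) - ε) * (n : ℝ) ^ 5 ≤ cnt H G := by
  classical
  set C1 : ℝ := Fintype.card (Tour 5) * 625 + 1 with hC1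
  set C2 : ℝ := ∑ H : Tour 5, 5 * (kernelSum w a H : ℝ) with hC2
  have hC1p : 0 ≤ C1 := by positivity
  have hC2p : 0 ≤ C2 := by positivity
  obtain ⟨n1, hn1⟩ := exists_nat_ge ((C1 + 25 + C2) / ε)
  refine ⟨max n1 S, fun n hn => ?_⟩
  have hn1' : (C1 + 25 + C2) / ε ≤ n := by
    refine le_trans hn1 ?_
    exact_mod_cast le_trans (le_max_left _ _) hn
  have hnS : S ≤ n := le_trans (le_max_right _ _) hn
  obtain ⟨π, hπ⟩ := exists_parts w S hS0 hS n
  obtain ⟨ω, hω⟩ := exists_good hq a π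
  refine ⟨mkT q a π ω, fun H => ?_⟩
  have h1 := hω H
  rw [← hC1] at h1
  -- expectation
  have hex : ex q a π H = ((∑ φ : Fin 5 ↪ Fin n, KK a H (fun x => π (φ x)) : ℕ) : ℝ) /
      (2 * q) ^ 10 := by
    unfold ex
    push_cast
    rw [Finset.sum_div]
    exact Finset.sum_congr rfl (fun φ _ => prod_av hq a ha π H φ)
  have hA := sum_embed (fun f : Fin 5 → Fin n => KK a H (fun x => π (f x))) ((2 * q) ^ 10)
    (fun f => KK_le a ha H _)
  have hB := sum_fun π w (n / S) hπ (KK a H)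
  have hks : kernelSum w a H = ∑ i : Fin 5 → Fin m, (∏ v, w (i v)) * KK a H i := rfl
  rw [← hks] at hB
  have hAB : (n / S) ^ 5 * kernelSum w a H ≤
      (∑ φ : Fin 5 ↪ Fin n, KK a H (fun x => π (φ x))) + 25 * n ^ 4 * (2 * q) ^ 10 :=
    le_trans hB hA
  have hABr : (((n / S : ℕ) : ℝ)) ^ 5 * (kernelSum w a H : ℝ) ≤
      ((∑ φ : Fin 5 ↪ Fin n, KK a H (fun x => π (φ x)) : ℕ) : ℝ) +
        25 * (n : ℝ) ^ 4 * (2 * q) ^ 10 := by
    exact_mod_cast hAB
  set T : ℝ := ((∑ φ : Fin 5 ↪ Fin n, KK a H (fun x => π (φ x)) : ℕ) : ℝ) with hT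
  set k : ℝ := (kernelSum w a H : ℝ) with hk
  have hk0 : 0 ≤ k := by positivity
  have hSr : (0 : ℝ) < S := by exact_mod_cast hS0
  have hS1 : (1 : ℝ) ≤ S := by exact_mod_cast hS0
  have hqr : (0 : ℝ) < (2 * q) ^ 10 := by positivity
  have hq1 : (1 : ℝ) ≤ (2 * q : ℝ) ^ 10 := by
    apply one_le_pow₀
    have : (1 : ℝ) ≤ q := by exact_mod_cast hq
    linarith
  set x : ℝ := (n : ℝ) / S with hx
  have hx1 : 1 ≤ x := by
    rw [hx, le_div_iff₀ hSr, one_mul]
    exact_mod_cast hnS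
  have hd : x - 1 ≤ ((n / S : ℕ) : ℝ) := by
    have h2 : (n : ℝ) < ((n / S : ℕ) : ℝ) * S + S := by
      have h3 := Nat.div_add_mod n S
      have h4 := Nat.mod_lt n hS0
      have h5 : n < (n / S) * S + S := by
        rw [Nat.mul_comm]; omega
      exact_mod_cast h5
    have h3 : x < ((n / S : ℕ) : ℝ) + 1 := by
      rw [hx, div_lt_iff₀ hSr]
      linarith
    linarith
  have hd5 : x ^ 5 - 5 * x ^ 4 ≤ (((n / S : ℕ) : ℝ)) ^ 5 := by
    refine le_trans ?_ (pow_le_pow_left₀ (by linarith) hd 5)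
    have h2 : (x - 1) ^ 5 - (x ^ 5 - 5 * x ^ 4) = 10 * x ^ 2 * (x - 1) + (5 * x - 1) := by ring
    have h3 : 0 ≤ 10 * x ^ 2 * (x - 1) := by
      apply mul_nonneg (by positivity)
      linarith
    linarith
  -- lower bound of the expectation
  have hlow : k / ((S : ℝ) ^ 5 * (2 * q) ^ 10) * (n : ℝ) ^ 5 - C2 * (n : ℝ) ^ 4 -
      25 * (n : ℝ) ^ 4 ≤ ex q a π H := by
    rw [hex]
    have h2 : (x ^ 5 - 5 * x ^ 4) * k ≤ T + 25 * (n : ℝ) ^ 4 * (2 * q) ^ 10 :=
      le_trans (mul_le_mul_of_nonneg_right hd5 hk0) hABr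
    have h3 : ((x ^ 5 - 5 * x ^ 4) * k) / (2 * q) ^ 10 ≤ T / (2 * q) ^ 10 + 25 * (n : ℝ) ^ 4 := by
      rw [div_add' _ _ _ hqr.ne', div_le_div_iff_of_pos_right hqr]
      exact h2
    have h4 : ((x ^ 5 - 5 * x ^ 4) * k) / (2 * q) ^ 10 =
        k / ((S : ℝ) ^ 5 * (2 * q) ^ 10) * (n : ℝ) ^ 5 -
          (5 * k) * ((n : ℝ) ^ 4 / ((S : ℝ) ^ 4 * (2 * q) ^ 10)) := by
      rw [hx]
      field_simp
    have h5 : (n : ℝ) ^ 4 / ((S : ℝ) ^ 4 * (2 * q) ^ 10) ≤ (n : ℝ) ^ 4 := by
      apply div_le_self (by positivity)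
      have : (1 : ℝ) ≤ (S : ℝ) ^ 4 := one_le_pow₀ hS1
      nlinarith
    have h6 : 5 * k ≤ C2 := by
      rw [hC2]
      exact Finset.single_le_sum (f := fun H : Tour 5 => 5 * (kernelSum w a H : ℝ))
        (fun H _ => by positivity) (Finset.mem_univ H)
    have h7 : (5 * k) * ((n : ℝ) ^ 4 / ((S : ℝ) ^ 4 * (2 * q) ^ 10)) ≤ C2 * (n : ℝ) ^ 4 :=
      mul_le_mul h6 h5 (by positivity) hC2p
    linarith
  have hfin : (C1 + 25 + C2) * (n : ℝ) ^ 4 ≤ ε * (n : ℝ) ^ 5 := by
    have h2 : C1 + 25 + C2 ≤ ε * n := by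
      rw [div_le_iff₀ hε] at hn1'
      linarith
    calc (C1 + 25 + C2) * (n : ℝ) ^ 4 ≤ (ε * n) * (n : ℝ) ^ 4 :=
          mul_le_mul_of_nonneg_right h2 (by positivity)
      _ = ε * (n : ℝ) ^ 5 := by ring
  rw [sub_mul]
  linarith

end Pool.Agent.Helper59.TD
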